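import Mathlib

-- merged part: Pool.Agent.Work.MP_4523ee_co.Plant
section
/-!
Planting a pattern at a random place of the cube is almost unnoticeable.
-/

set_option autoImplicit false

open Finset
open scoped BigOperators

namespace Pool.Agent.Work.MP_4523ee_co

section plant

variable {X : Type} [Fintype X] [DecidableEq X]

/-- Overwrite `α` on `C` by `ζ`. -/
def ov (C : Finset X) (ζ α : X → Bool) : X → Bool := fun x => if x ∈ C then ζ x else α x

/-- The density of the overwritten measure. -/
noncomputable def dens (C : Finset X) (ζ α : X → Bool) : ℝ :=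
  ∏ x ∈ C, (if α x = ζ x then (2 : ℝ) else 0)

lemma expect_update (Ψ : (X → Bool) → ℝ) (x : X) (b : Bool) :
    𝔼 α, Ψ (Function.update α x b) = 𝔼 α, Ψ α * (if α x = b then (2 : ℝ) else 0) := by
  let fl : (X → Bool) ≃ (X → Bool) :=
    { toFun := fun α => Function.update α x (!α x)
      invFun := fun α => Function.update α x (!α x)
      left_inv := by intro α; funext y; by_cases h : y = x <;> simp [h, Function.update]
      right_inv := by intro α; funext y; by_cases h : y = x <;> simp [h, Function.update] }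
  let g : (X → Bool) → ℝ := fun α => Ψ α * (if α x = b then (1 : ℝ) else 0)
  have h1 : ∀ α, Ψ (Function.update α x b) = g α + g (fl α) := by
    intro α
    by_cases h : α x = b
    · have : (fl α) x ≠ b := by simp [fl, h]
      simp only [g, h, if_true, this, if_false]
      rw [← h, Function.update_eq_self]; ring
    · have h2 : (!α x) = b := by cases hb : b <;> cases ha : α x <;> simp_all
      have h3 : (fl α) x = b := by simp [fl, h2]
      simp only [g, h, if_false, h3, if_true]
      have : fl α = Function.update α x b := by simp [fl, h2]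
      rw [this]; ring
  have h2 : 𝔼 α, g (fl α) = 𝔼 α, g α := Fintype.expect_equiv fl _ _ (fun _ => rfl)
  simp_rw [h1]
  rw [expect_add_distrib, h2, ← expect_add_distrib]
  refine expect_congr rfl fun α _ => ?_
  simp only [g]; split_ifs <;> ring

lemma expect_ov (C : Finset X) (ζ : X → Bool) (Ψ : (X → Bool) → ℝ) :
    𝔼 α, Ψ (ov C ζ α) = 𝔼 α, Ψ α * dens C ζ α := by
  induction C using Finset.induction_on generalizing Ψ with
  | empty =>
    refine expect_congr rfl fun α _ => ?_
    have : ov ∅ ζ α = α := by funext x; simp [ov]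
    simp [this, dens]
  | insert x C hx ih =>
    have h1 : ∀ α, ov (insert x C) ζ α = Function.update (ov C ζ α) x (ζ x) := by
      intro α; funext y
      by_cases h : y = x
      · subst h; simp [ov]
      · simp [ov, h]
    simp_rw [h1]
    rw [ih (fun β => Ψ (Function.update β x (ζ x)))]
    have h2 : ∀ α, Ψ (Function.update α x (ζ x)) * dens C ζ α =
        (fun β => Ψ β * dens C ζ β) (Function.update α x (ζ x)) := by
      intro α
      simp only [dens]
      congr 1
      refine prod_congr rfl fun y hy => ?_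
      have : y ≠ x := fun h => hx (h ▸ hy)
      simp [Function.update, this]
    simp_rw [h2]
    rw [expect_update (fun β => Ψ β * dens C ζ β)]
    refine expect_congr rfl fun α _ => ?_
    simp only [dens, prod_insert hx]; ring

lemma expect_dens (C : Finset X) (ζ : X → Bool) : 𝔼 α, dens C ζ α = 1 := by
  have := expect_ov C ζ (fun _ => 1)
  simp only [one_mul] at this
  rw [← this, Fintype.expect_const]

lemma expect_dens_mul (C C' : Finset X) (ζ ζ' : X → Bool) (h : Disjoint C C') :
    𝔼 α, dens C' ζ' α * dens C ζ α = 1 := by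
  rw [← expect_ov C ζ (dens C' ζ'), ← expect_dens C' ζ']
  refine expect_congr rfl fun α _ => ?_
  simp only [dens]
  refine prod_congr rfl fun y hy => ?_
  have : y ∉ C := fun hc => (Finset.disjoint_left.1 h) hc hy
  simp [ov, this]

lemma expect_dens_sq (C : Finset X) (ζ : X → Bool) :
    𝔼 α, dens C ζ α * dens C ζ α = 2 ^ C.card := by
  rw [← expect_ov C ζ (dens C ζ)]
  have : ∀ α, dens C ζ (ov C ζ α) = 2 ^ C.card := by
    intro α
    simp only [dens]
    rw [← prod_const]
    refine prod_congr rfl fun y hy => ?_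
    simp [ov, hy]
  simp_rw [this]
  exact Fintype.expect_const _

/-- The planting lemma. -/
lemma planting {W : Type} [Fintype W] [DecidableEq W] [Nonempty W] (C : W → Finset X)
    (ζ : W → X → Bool) (D : ℕ) (hD : ∀ w, (C w).card ≤ D)
    (hdis : ∀ w w', w ≠ w' → Disjoint (C w) (C w')) (Ψ : (X → Bool) → ℝ)
    (hΨ : ∀ α, |Ψ α| ≤ 1) :
    ((𝔼 w, 𝔼 α, Ψ (ov (C w) (ζ w) α)) - 𝔼 α, Ψ α) ^ 2 ≤ 2 ^ D / Fintype.card W := by
  set h : (X → Bool) → ℝ := fun α => 𝔼 w, dens (C w) (ζ w) α with hh
  have e1 : (𝔼 w, 𝔼 α, Ψ (ov (C w) (ζ w) α)) - 𝔼 α, Ψ α = 𝔼 α, Ψ α * (h α - 1) := by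
    simp_rw [expect_ov]
    rw [expect_comm, ← expect_sub_distrib]
    refine expect_congr rfl fun α _ => ?_
    rw [hh, mul_sub, mul_one, mul_expect]
  have e2 : 𝔼 α, h α = 1 := by
    rw [hh]; simp only; rw [expect_comm]; simp_rw [expect_dens]; exact Fintype.expect_const _
  have hW : (0 : ℝ) < Fintype.card W := by exact_mod_cast Fintype.card_pos
  have e3 : 𝔼 α, h α * h α ≤ 1 + 2 ^ D / Fintype.card W := by
    have : 𝔼 α, h α * h α = 𝔼 w, 𝔼 w', 𝔼 α, dens (C w') (ζ w') α * dens (C w) (ζ w) α := by
      have : ∀ α, h α * h α = 𝔼 w, 𝔼 w', dens (C w') (ζ w') α * dens (C w) (ζ w) α := by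
        intro α
        rw [hh]; simp only
        rw [Fintype.expect_mul_expect, expect_comm]
      simp_rw [this]
      rw [expect_comm]
      refine expect_congr rfl fun w _ => ?_
      rw [expect_comm]
    rw [this]
    refine expect_le univ_nonempty fun w _ => ?_
    have hle : ∀ w', 𝔼 α, dens (C w') (ζ w') α * dens (C w) (ζ w) α ≤
        1 + (if w' = w then (2 : ℝ) ^ D else 0) := by
      intro w'
      by_cases hw : w' = w
      · subst hw
        rw [expect_dens_sq, if_pos rfl]
        have : (2 : ℝ) ^ (C w').card ≤ 2 ^ D := pow_le_pow_right₀ (by norm_num) (hD w')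
        linarith only [this]
      · rw [expect_dens_mul _ _ _ _ (hdis w w' (Ne.symm hw)), if_neg hw]; simp
    calc _ ≤ 𝔼 w', (1 + (if w' = w then (2 : ℝ) ^ D else 0)) := expect_le_expect fun w' _ => hle w'
      _ = 1 + 2 ^ D / Fintype.card W := by
        rw [expect_add_distrib, Fintype.expect_const, Fintype.expect_eq_sum_div_card]
        simp
  rw [e1]
  calc (𝔼 α, Ψ α * (h α - 1)) ^ 2 ≤ (𝔼 α, Ψ α ^ 2) * 𝔼 α, (h α - 1) ^ 2 :=
        expect_mul_sq_le_sq_mul_sq _ _ _
    _ ≤ 1 * 𝔼 α, (h α - 1) ^ 2 := by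
        refine mul_le_mul_of_nonneg_right ?_ (expect_nonneg fun α _ => sq_nonneg _)
        refine expect_le univ_nonempty fun α _ => ?_
        have := hΨ α
        rw [← sq_abs]; linarith only [this, abs_nonneg (Ψ α), mul_nonneg_of_nonpos_of_nonpos (Mathlib.Tactic.Linarith.sub_nonpos_of_le this) (Mathlib.Tactic.Linarith.sub_nonpos_of_le (abs_nonneg (Ψ α)))]
    _ = (𝔼 α, h α * h α) - 1 := by
        have : ∀ α, (h α - 1) ^ 2 = h α * h α - 2 * h α + 1 := fun α => by ring
        simp_rw [this]
        rw [expect_add_distrib, expect_sub_distrib, ← mul_expect, e2, Fintype.expect_const]; ring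
    _ ≤ _ := by linarith only [e3]

end plant

end Pool.Agent.Work.MP_4523ee_co
end

-- merged part: Pool.Agent.Work.MP_4523ee_co.Finite
section
/-!
The finite Gram kernels: plant a pattern on the image of a random map into `Fin N`.
-/

set_option autoImplicit false

open Finset
open scoped BigOperators

namespace Pool.Agent.Work.MP_4523ee_co

/-- Patterns on the grid `V ^ d`. -/
abbrev Pat (d : ℕ) (V : Type) : Type := (Fin d → V) → Bool

open Classical in
/-- Plant the pattern `π` on the image of the grid under `ι`. -/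
noncomputable def plant {d N : ℕ} {V : Type} (ι : V → Fin N) (π : Pat d V) (α : Pat d (Fin N)) :
    Pat d (Fin N) :=
  fun x => if ∀ j, x j ∈ Set.range ι then decide (∃ c : Fin d → V, ι ∘ c = x ∧ π c = true) else α x

open Classical in
/-- The finite kernel. -/
noncomputable def KN {d N : ℕ} (Φ : Pat d (Fin N) → Pat d (Fin N) → ℝ) (V : Type) [Finite V]
    (π ρ : Pat d V) : ℝ :=
  letI := Fintype.ofFinite V
  𝔼 ι : V → Fin N, 𝔼 α : Pat d (Fin N), Φ (plant ι π α) (plant ι ρ α)

lemma KN_eq {d N : ℕ} (Φ : Pat d (Fin N) → Pat d (Fin N) → ℝ) (V : Type) [Fintype V]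
    [DecidableEq V] (π ρ : Pat d V) :
    KN Φ V π ρ = 𝔼 ι : V → Fin N, 𝔼 α : Pat d (Fin N), Φ (plant ι π α) (plant ι ρ α) := by
  unfold KN
  congr 1
  · congr 1
    exact Subsingleton.elim _ _

lemma plant_equiv {d N : ℕ} {V V' : Type} (e : V ≃ V') (ι : V' → Fin N) (π : Pat d V')
    (α : Pat d (Fin N)) :
    plant ι π α = plant (ι ∘ e) (fun c => π (e ∘ c)) α := by
  funext x
  have hr : Set.range (ι ∘ e) = Set.range ι := by
    rw [Set.range_comp, e.range_eq_univ, Set.image_univ]
  unfold plant
  rw [hr]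
  by_cases h : ∀ j, x j ∈ Set.range ι
  · rw [if_pos h, if_pos h]
    congr 1
    apply propext
    constructor
    · rintro ⟨c, hc, hp⟩
      refine ⟨e.symm ∘ c, ?_, ?_⟩
      · rw [← hc]; funext j; simp
      · have : e ∘ e.symm ∘ c = c := by funext j; simp
        show π (e ∘ e.symm ∘ c) = true
        rw [this]; exact hp
    · rintro ⟨c, hc, hp⟩
      exact ⟨e ∘ c, hc, hp⟩
  · rw [if_neg h, if_neg h]

lemma KN_equiv {d N : ℕ} (Φ : Pat d (Fin N) → Pat d (Fin N) → ℝ) {V V' : Type} [Finite V]
    [Finite V'] (e : V ≃ V') (π ρ : Pat d V') :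
    KN Φ V' π ρ = KN Φ V (fun c => π (e ∘ c)) (fun c => ρ (e ∘ c)) := by
  classical
  let _ := Fintype.ofFinite V
  let _ := Fintype.ofFinite V'
  rw [KN_eq, KN_eq]
  refine Fintype.expect_equiv (e.symm.arrowCongr (Equiv.refl _)) _ _ fun ι => ?_
  have : (e.symm.arrowCongr (Equiv.refl (Fin N))) ι = ι ∘ e := by
    funext v; simp [Equiv.arrowCongr_apply]
  rw [this]
  refine expect_congr rfl fun α _ => ?_
  rw [← plant_equiv e ι π α, ← plant_equiv e ι ρ α]

lemma KN_bound {d N : ℕ} (hN : 0 < N) (Φ : Pat d (Fin N) → Pat d (Fin N) → ℝ)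
    (hΦ : ∀ a b, |Φ a b| ≤ 1) (V : Type) [Finite V] (π ρ : Pat d V) : |KN Φ V π ρ| ≤ 1 := by
  classical
  let _ := Fintype.ofFinite V
  have _ : Nonempty (Fin N) := ⟨⟨0, hN⟩⟩
  rw [KN_eq]
  refine (abs_expect_le _ _).trans (expect_le univ_nonempty fun ι _ => ?_)
  exact (abs_expect_le _ _).trans (expect_le univ_nonempty fun α _ => hΦ _ _)

open Classical in
/-- The cells that a new point `w` adds to the image grid. -/
noncomputable def newCells (d : ℕ) {N : ℕ} {V : Type} (ι : V → Fin N) (w : Fin N) :
    Finset (Fin d → Fin N) :=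
  if w ∈ Set.range ι then ∅ else
    univ.filter fun x => (∀ j, x j = w ∨ x j ∈ Set.range ι) ∧ ∃ j, x j = w

lemma newCells_card (d : ℕ) {N : ℕ} {V : Type} [Fintype V] (ι : V → Fin N) (w : Fin N) :
    (newCells d ι w).card ≤ (Fintype.card V + 1) ^ d := by
  classical
  unfold newCells
  split_ifs
  · simp
  · calc _ ≤ (Fintype.piFinset fun _ : Fin d => insert w (univ.image ι)).card := by
          refine card_le_card fun x hx => ?_
          simp only [mem_filter, mem_univ, true_and] at hx
          simp only [Fintype.mem_piFinset, mem_insert, mem_image, mem_univ, true_and]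
          intro j
          rcases hx.1 j with h | ⟨v, hv⟩
          · exact Or.inl h
          · exact Or.inr ⟨v, hv⟩
      _ = (insert w (univ.image ι)).card ^ d := by simp
      _ ≤ _ := by
          refine Nat.pow_le_pow_left ?_ _
          refine (card_insert_le _ _).trans ?_
          have := card_image_le (s := univ) (f := ι)
          simpa using this

lemma newCells_disjoint (d : ℕ) {N : ℕ} {V : Type} (ι : V → Fin N) (w w' : Fin N)
    (h : w ≠ w') : Disjoint (newCells d ι w) (newCells d ι w') := by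
  classical
  unfold newCells
  split_ifs with h1 h2 h2
  · simp
  · simp
  · simp
  · rw [Finset.disjoint_left]
    intro x hx hx'
    simp only [mem_filter, mem_univ, true_and] at hx hx'
    obtain ⟨j, hj⟩ := hx.2
    rcases hx'.1 j with h3 | h3
    · exact h (hj.symm.trans h3)
    · exact h1 (hj ▸ h3)

lemma plant_option {d N : ℕ} {V : Type} (ι : V → Fin N) (w : Fin N) (hw : w ∉ Set.range ι)
    (π ζ : Pat d (Option V)) (hag : ∀ c : Fin d → Option V, (∃ j, c j = none) → π c = ζ c)
    (α : Pat d (Fin N)) :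
    plant (fun o : Option V => o.elim w ι) π α =
      plant ι (fun c => π (some ∘ c))
        (ov (newCells d ι w) (plant (fun o : Option V => o.elim w ι) ζ (fun _ => false)) α) := by
  classical
  funext x
  have hr : ∀ y, y ∈ Set.range (fun o : Option V => o.elim w ι) ↔ y = w ∨ y ∈ Set.range ι := by
    intro y
    constructor
    · rintro ⟨o, ho⟩
      cases o with
      | none => exact Or.inl ho.symm
      | some v => exact Or.inr ⟨v, ho⟩
    · rintro (h | ⟨v, hv⟩)
      · exact ⟨none, h.symm⟩
      · exact ⟨some v, hv⟩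
  by_cases h1 : ∀ j, x j ∈ Set.range ι
  · have h2 : ∀ j, x j ∈ Set.range (fun o : Option V => o.elim w ι) :=
      fun j => (hr _).2 (Or.inr (h1 j))
    unfold plant
    rw [if_pos h1, if_pos h2]
    congr 1
    apply propext
    constructor
    · rintro ⟨c, hc, hp⟩
      have hs : ∀ j, ∃ v, c j = some v := by
        intro j
        cases hcj : c j with
        | none =>
          exfalso; apply hw
          have := congrFun hc j
          simp only [Function.comp, hcj, Option.elim] at this
          rw [this]; exact h1 j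
        | some v => exact ⟨v, rfl⟩
      choose c' hc' using hs
      have : c = some ∘ c' := funext hc'
      subst this
      exact ⟨c', hc, hp⟩
    · rintro ⟨c, hc, hp⟩
      exact ⟨some ∘ c, hc, hp⟩
  · have e1 : plant ι (fun c => π (some ∘ c))
        (ov (newCells d ι w) (plant (fun o : Option V => o.elim w ι) ζ (fun _ => false)) α) x =
        ov (newCells d ι w) (plant (fun o : Option V => o.elim w ι) ζ (fun _ => false)) α x := by
      conv_lhs => unfold plant
      rw [if_neg h1]
      rfl
    rw [e1]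
    by_cases h2 : ∀ j, x j ∈ Set.range (fun o : Option V => o.elim w ι)
    · have hx : x ∈ newCells d ι w := by
        unfold newCells
        rw [if_neg hw]
        simp only [mem_filter, mem_univ, true_and]
        refine ⟨fun j => (hr _).1 (h2 j), ?_⟩
        push Not at h1
        obtain ⟨j, hj⟩ := h1
        exact ⟨j, ((hr _).1 (h2 j)).resolve_right hj⟩
      simp only [ov, hx, if_true]
      unfold plant
      rw [if_pos h2, if_pos h2]
      congr 1
      apply propext
      have key : ∀ c : Fin d → Option V, (fun o : Option V => o.elim w ι) ∘ c = x →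
          ∃ j, c j = none := by
        intro c hc
        push Not at h1
        obtain ⟨j, hj⟩ := h1
        refine ⟨j, ?_⟩
        cases hcj : c j with
        | none => rfl
        | some v =>
          exfalso; apply hj
          have := congrFun hc j
          simp only [Function.comp, hcj, Option.elim] at this
          exact ⟨v, this⟩
      constructor
      · rintro ⟨c, hc, hp⟩
        exact ⟨c, hc, by rw [← hag c (key c hc)]; exact hp⟩
      · rintro ⟨c, hc, hp⟩
        exact ⟨c, hc, by rw [hag c (key c hc)]; exact hp⟩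
    · have hx : x ∉ newCells d ι w := by
        unfold newCells
        rw [if_neg hw]
        simp only [mem_filter, mem_univ, true_and, not_and]
        intro h3
        exact absurd (fun j => (hr _).2 (h3 j)) h2
      simp only [ov, hx, if_false]
      unfold plant
      rw [if_neg h2]

lemma expect_option {V Y : Type} [Fintype V] [DecidableEq V] [Fintype Y]
    (F : (Option V → Y) → ℝ) :
    𝔼 ι, F ι = 𝔼 ι : V → Y, 𝔼 w : Y, F (fun o : Option V => o.elim w ι) := by
  have h1 := expect_product' (univ : Finset (V → Y)) (univ : Finset Y)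
    (fun ι w => F (fun o : Option V => o.elim w ι))
  rw [← h1, univ_product_univ]
  let e : (Option V → Y) ≃ (V → Y) × Y :=
    { toFun := fun ι => (fun v => ι (some v), ι none)
      invFun := fun p => fun o => o.elim p.2 p.1
      left_inv := by intro ι; funext o; cases o <;> rfl
      right_inv := by intro p; rfl }
  refine Fintype.expect_equiv e _ _ fun ι => ?_
  congr 1
  funext o; cases o <;> rfl

/-- One more vertex on which the two patterns agree changes the kernel very little. -/
lemma KN_option {d N : ℕ} (hN : 0 < N) (Φ : Pat d (Fin N) → Pat d (Fin N) → ℝ)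
    (hΦ : ∀ a b, |Φ a b| ≤ 1) (V : Type) [Fintype V] (π ρ : Pat d (Option V))
    (hag : ∀ c : Fin d → Option V, (∃ j, c j = none) → π c = ρ c) :
    |KN Φ (Option V) π ρ - KN Φ V (fun c => π (some ∘ c)) (fun c => ρ (some ∘ c))| ≤
      2 * (Fintype.card V : ℝ) / N + √(2 ^ ((Fintype.card V + 1) ^ d) / N) := by
  classical
  have _ : Nonempty (Fin N) := ⟨⟨0, hN⟩⟩
  rw [KN_eq, KN_eq]
  have e1 : (𝔼 ι : Option V → Fin N, 𝔼 α : Pat d (Fin N), Φ (plant ι π α) (plant ι ρ α)) =
      𝔼 ι : V → Fin N, 𝔼 w : Fin N, 𝔼 α : Pat d (Fin N),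
        Φ (plant (fun o : Option V => o.elim w ι) π α)
          (plant (fun o : Option V => o.elim w ι) ρ α) := by
    exact expect_option (fun ι => 𝔼 α : Pat d (Fin N), Φ (plant ι π α) (plant ι ρ α))
  rw [e1, ← expect_sub_distrib]
  refine (abs_expect_le _ _).trans (expect_le univ_nonempty fun ι _ => ?_)
  set Ψ : Pat d (Fin N) → ℝ := fun α =>
    Φ (plant ι (fun c => π (some ∘ c)) α) (plant ι (fun c => ρ (some ∘ c)) α) with hΨ
  set ζ : Fin N → Pat d (Fin N) := fun w =>
    plant (fun o : Option V => o.elim w ι) π (fun _ => false) with hζ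
  have hp := planting (newCells d ι) ζ ((Fintype.card V + 1) ^ d) (newCells_card d ι)
    (newCells_disjoint d ι) Ψ (fun α => hΦ _ _)
  have hp' : |(𝔼 w, 𝔼 α, Ψ (ov (newCells d ι w) (ζ w) α)) - 𝔼 α, Ψ α| ≤
      √(2 ^ ((Fintype.card V + 1) ^ d) / N) := by
    apply Real.abs_le_sqrt
    simpa using hp
  have hq : |(𝔼 w : Fin N, 𝔼 α : Pat d (Fin N),
        Φ (plant (fun o : Option V => o.elim w ι) π α)
          (plant (fun o : Option V => o.elim w ι) ρ α)) -
        𝔼 w, 𝔼 α, Ψ (ov (newCells d ι w) (ζ w) α)| ≤ 2 * (Fintype.card V : ℝ) / N := by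
    rw [← expect_sub_distrib]
    refine (abs_expect_le _ _).trans ?_
    have hle : ∀ w : Fin N, |(𝔼 α : Pat d (Fin N),
        Φ (plant (fun o : Option V => o.elim w ι) π α)
          (plant (fun o : Option V => o.elim w ι) ρ α)) -
        𝔼 α, Ψ (ov (newCells d ι w) (ζ w) α)| ≤ if w ∈ univ.image ι then (2 : ℝ) else 0 := by
      intro w
      split_ifs with hw
      · refine (abs_sub _ _).trans ?_
        have a1 := (abs_expect_le univ (fun α : Pat d (Fin N) =>
          Φ (plant (fun o : Option V => o.elim w ι) π α)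
            (plant (fun o : Option V => o.elim w ι) ρ α))).trans
          (expect_le univ_nonempty fun α _ => hΦ _ _)
        have a2 := (abs_expect_le univ (fun α : Pat d (Fin N) =>
          Ψ (ov (newCells d ι w) (ζ w) α))).trans (expect_le univ_nonempty fun α _ => hΦ _ _)
        linarith only [a1, a2]
      · have hw' : w ∉ Set.range ι := by
          rintro ⟨v, hv⟩; exact hw (mem_image.2 ⟨v, mem_univ _, hv⟩)
        have : ∀ α, Φ (plant (fun o : Option V => o.elim w ι) π α)
            (plant (fun o : Option V => o.elim w ι) ρ α) = Ψ (ov (newCells d ι w) (ζ w) α) := by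
          intro α
          rw [plant_option ι w hw' π π (fun _ _ => rfl) α,
            plant_option ι w hw' ρ π (fun c hc => (hag c hc).symm) α]
        simp_rw [this]; simp
    refine (expect_le_expect fun w _ => hle w).trans ?_
    rw [Fintype.expect_eq_sum_div_card, ← sum_filter]
    simp only [sum_const, Fintype.card_fin, nsmul_eq_mul]
    have hN' : (0 : ℝ) < N := by exact_mod_cast hN
    refine div_le_div_of_nonneg_right ?_ hN'.le
    have : (univ.filter fun w => w ∈ univ.image ι).card ≤ Fintype.card V := by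
      have h1 : (univ.filter fun w => w ∈ univ.image ι) = univ.image ι := by ext; simp
      rw [h1]
      simpa using card_image_le (s := univ) (f := ι)
    have : ((univ.filter fun w => w ∈ univ.image ι).card : ℝ) ≤ Fintype.card V := by
      exact_mod_cast this
    linarith only [this]
  calc _ = |((𝔼 w : Fin N, 𝔼 α : Pat d (Fin N),
        Φ (plant (fun o : Option V => o.elim w ι) π α)
          (plant (fun o : Option V => o.elim w ι) ρ α)) -
        𝔼 w, 𝔼 α, Ψ (ov (newCells d ι w) (ζ w) α)) +
        ((𝔼 w, 𝔼 α, Ψ (ov (newCells d ι w) (ζ w) α)) - 𝔼 α, Ψ α)| := by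
          congr 1; ring
    _ ≤ _ := (abs_add_le _ _).trans (add_le_add hq hp')

end Pool.Agent.Work.MP_4523ee_co
end

-- merged part: Pool.Agent.Work.MP_4523ee_co.Limit
section
/-!
The limit kernel of a sequence of dense families.
-/

set_option autoImplicit false

open Finset Filter Topology
open scoped BigOperators

namespace Pool.Agent.Work.MP_4523ee_co

/-- Limit along the hyperfilter. -/
noncomputable def ulim (u : ℕ → ℝ) : ℝ := limUnder (hyperfilter ℕ : Filter ℕ) u

lemma tendsto_ulim (u : ℕ → ℝ) (C : ℝ) (h : ∀ n, |u n| ≤ C) :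
    Tendsto u (hyperfilter ℕ : Filter ℕ) (𝓝 (ulim u)) := by
  apply tendsto_nhds_limUnder
  have hc : IsCompact (Set.Icc (-C) C) := isCompact_Icc
  obtain ⟨x, _, hx⟩ := hc.ultrafilter_le_nhds ((hyperfilter ℕ).map u) (by
    rw [Ultrafilter.coe_map, le_principal_iff, Filter.mem_map]
    exact univ_mem' fun n => abs_le.1 (h n))
  exact ⟨x, hx⟩

lemma ulim_eq {u : ℕ → ℝ} {x : ℝ} (h : Tendsto u (hyperfilter ℕ : Filter ℕ) (𝓝 x)) :
    ulim u = x := h.limUnder_eq

lemma hyper_le_atTop : (hyperfilter ℕ : Filter ℕ) ≤ atTop := Nat.hyperfilter_le_atTop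

/-- Extension property: vertices on which the two patterns agree can be dropped. -/
def ExtProp {d : ℕ} {R : Type} (K : ∀ (V : Type) [Finite V], Pat d V → Pat d V → R) : Prop :=
  ∀ (V V' : Type) [Finite V] [Finite V'] (e : V → V'), Function.Injective e →
    ∀ π ρ : Pat d V', (∀ c : Fin d → V', (∃ j, c j ∉ Set.range e) → π c = ρ c) →
      K V' π ρ = K V (fun c => π (e ∘ c)) (fun c => ρ (e ∘ c))

lemma extProp_of {d : ℕ} {R : Type} (K : ∀ (V : Type) [Finite V], Pat d V → Pat d V → R)
    (h1 : ∀ (V V' : Type) [Finite V] [Finite V'] (e : V ≃ V') (π ρ : Pat d V'),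
      K V' π ρ = K V (fun c => π (e ∘ c)) (fun c => ρ (e ∘ c)))
    (h2 : ∀ (V : Type) [Finite V] (π ρ : Pat d (Option V)),
      (∀ c : Fin d → Option V, (∃ j, c j = none) → π c = ρ c) →
      K (Option V) π ρ = K V (fun c => π (some ∘ c)) (fun c => ρ (some ∘ c))) :
    ExtProp K := by
  classical
  have main : ∀ n : ℕ, ∀ (V V' : Type) [Finite V] [Finite V'] (e : V → V'), Nat.card V' = n →
      Function.Injective e →
      ∀ π ρ : Pat d V', (∀ c : Fin d → V', (∃ j, c j ∉ Set.range e) → π c = ρ c) →
        K V' π ρ = K V (fun c => π (e ∘ c)) (fun c => ρ (e ∘ c)) := by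
    intro n
    induction n using Nat.strong_induction_on with
    | _ n ih =>
      intro V V' _ _ e hn he π ρ hag
      by_cases hs : Function.Surjective e
      · exact h1 V V' (Equiv.ofBijective e ⟨he, hs⟩) π ρ
      · unfold Function.Surjective at hs
        push Not at hs
        obtain ⟨v, hv⟩ := hs
        let e' : V → {x : V' // x ≠ v} := fun a => ⟨e a, hv a⟩
        have he' : Function.Injective e' := fun a b h => he (congrArg Subtype.val h)
        have hc : Nat.card {x : V' // x ≠ v} < n := by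
          rw [← hn, ← Nat.card_congr (Equiv.optionSubtypeNe v), Finite.card_option]
          omega
        rw [h1 _ _ (Equiv.optionSubtypeNe v) π ρ, h2]
        · rw [ih _ hc V _ e' rfl he']
          · rfl
          · intro c ⟨j, hj⟩
            apply hag
            refine ⟨j, ?_⟩
            rintro ⟨a, ha⟩
            apply hj
            refine ⟨a, Subtype.ext ?_⟩
            simpa using ha
        · intro c ⟨j, hj⟩
          apply hag
          refine ⟨j, ?_⟩
          rintro ⟨a, ha⟩
          apply hv a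
          simpa [hj] using ha
  intro V V' _ _ e he π ρ hag
  exact main _ V V' e rfl he π ρ hag

section lim

variable {d : ℕ} (N : ℕ → ℕ) (hN : ∀ n, n < N n)

/-- The limit of the finite kernels. -/
noncomputable def KL (Φ : ∀ n, Pat d (Fin (N n)) → Pat d (Fin (N n)) → ℝ) (V : Type) [Finite V]
    (π ρ : Pat d V) : ℝ := ulim fun n => KN (Φ n) V π ρ

include hN

lemma tendsto_N : Tendsto (fun n => (N n : ℝ)) atTop atTop :=
  tendsto_natCast_atTop_atTop.comp (tendsto_atTop_mono (fun n => (hN n).le) tendsto_id)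

lemma tendsto_KL (Φ : ∀ n, Pat d (Fin (N n)) → Pat d (Fin (N n)) → ℝ)
    (hΦ : ∀ n a b, |Φ n a b| ≤ 1) (V : Type) [Finite V] (π ρ : Pat d V) :
    Tendsto (fun n => KN (Φ n) V π ρ) (hyperfilter ℕ : Filter ℕ) (𝓝 (KL N Φ V π ρ)) :=
  tendsto_ulim _ 1 fun n => KN_bound (by have := hN n; omega) _ (hΦ n) V π ρ

lemma KL_ext (Φ : ∀ n, Pat d (Fin (N n)) → Pat d (Fin (N n)) → ℝ)
    (hΦ : ∀ n a b, |Φ n a b| ≤ 1) : ExtProp (KL N Φ) := by
  apply extProp_of
  · intro V V' _ _ e π ρ
    unfold KL
    congr 1
    funext n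
    exact KN_equiv _ e π ρ
  · intro V _ π ρ hag
    let _ := Fintype.ofFinite V
    have t1 := tendsto_KL N hN Φ hΦ (Option V) π ρ
    have t2 := tendsto_KL N hN Φ hΦ V (fun c => π (some ∘ c)) (fun c => ρ (some ∘ c))
    have t3 : Tendsto (fun n => 2 * (Fintype.card V : ℝ) / N n +
        √(2 ^ ((Fintype.card V + 1) ^ d) / N n)) atTop (𝓝 0) := by
      have a1 : Tendsto (fun n => 2 * (Fintype.card V : ℝ) / N n) atTop (𝓝 0) :=
        (tendsto_N N hN).const_div_atTop _
      have a2 : Tendsto (fun n => (2 : ℝ) ^ ((Fintype.card V + 1) ^ d) / N n) atTop (𝓝 0) :=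
        (tendsto_N N hN).const_div_atTop _
      simpa using a1.add a2.sqrt
    have t4 : Tendsto (fun n => KN (Φ n) (Option V) π ρ -
        KN (Φ n) V (fun c => π (some ∘ c)) (fun c => ρ (some ∘ c))) atTop (𝓝 0) :=
      squeeze_zero_norm (fun n => KN_option (by have := hN n; omega) _ (hΦ n) V π ρ hag) t3
    have := tendsto_nhds_unique (t1.sub t2) (t4.mono_left hyper_le_atTop)
    linarith

end lim

lemma expect_resample {V Y : Type} [Fintype V] [DecidableEq V] [Fintype Y] [Nonempty Y] (a : V)
    (F : (V → Y) → ℝ) : 𝔼 ι, F ι = 𝔼 ι : V → Y, 𝔼 w : Y, F (Function.update ι a w) := by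
  have h1 := expect_product' (univ : Finset (V → Y)) (univ : Finset Y)
    (fun ι w => F (Function.update ι a w))
  have h2 := expect_product' (univ : Finset (V → Y)) (univ : Finset Y) (fun ι _ => F ι)
  simp only [Fintype.expect_const] at h2
  rw [← h1, ← h2, univ_product_univ]
  let e : (V → Y) × Y ≃ (V → Y) × Y :=
    { toFun := fun p => (Function.update p.1 a p.2, p.1 a)
      invFun := fun p => (Function.update p.1 a p.2, p.1 a)
      left_inv := by intro p; simp
      right_inv := by intro p; simp }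
  refine Fintype.expect_equiv e _ _ fun p => ?_
  simp [e]

open Classical in
lemma expect_not_inj {V : Type} [Fintype V] {N : ℕ} (hN : 0 < N) :
    𝔼 ι : V → Fin N, (if Function.Injective ι then (0 : ℝ) else 1) ≤
      (Fintype.card V : ℝ) ^ 2 / N := by
  have _ : Nonempty (Fin N) := ⟨⟨0, hN⟩⟩
  have h1 : ∀ ι : V → Fin N, (if Function.Injective ι then (0 : ℝ) else 1) ≤
      ∑ p : V × V, (if p.1 ≠ p.2 ∧ ι p.1 = ι p.2 then (1 : ℝ) else 0) := by
    intro ι
    split_ifs with h
    · exact sum_nonneg fun p _ => by split_ifs <;> norm_num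
    · unfold Function.Injective at h
      push Not at h
      obtain ⟨a, b, hab, hne⟩ := h
      have := single_le_sum (f := fun p : V × V =>
        (if p.1 ≠ p.2 ∧ ι p.1 = ι p.2 then (1 : ℝ) else 0))
        (fun p _ => by split_ifs <;> norm_num) (mem_univ (a, b))
      simpa [hne, hab] using this
  refine (expect_le_expect fun ι _ => h1 ι).trans ?_
  rw [expect_sum_comm]
  have h2 : ∀ p : V × V, 𝔼 ι : V → Fin N,
      (if p.1 ≠ p.2 ∧ ι p.1 = ι p.2 then (1 : ℝ) else 0) ≤ 1 / N := by
    rintro ⟨a, b⟩
    by_cases hab : a = b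
    · simp [hab]
    · rw [expect_resample a]
      refine expect_le univ_nonempty fun ι _ => ?_
      have hb : b ≠ a := Ne.symm hab
      simp only [ne_eq, hab, not_false_eq_true, Function.update_self, true_and,
        Function.update_of_ne hb]
      rw [Fintype.expect_eq_sum_div_card]
      simp
  refine (sum_le_sum fun p _ => h2 p).trans (le_of_eq ?_)
  simp [sq, div_eq_mul_inv]

/-- Real symmetric positive semidefinite kernels with the extension property. -/
structure IsKer {d : ℕ} (K : ∀ (V : Type) [Finite V], Pat d V → Pat d V → ℝ) : Prop where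
  symm : ∀ (V : Type) [Finite V] (π ρ : Pat d V), K V π ρ = K V ρ π
  psd : ∀ (V : Type) [Finite V] (I : Type) [Fintype I] (c : I → ℝ) (π : I → Pat d V),
    0 ≤ ∑ i, ∑ j, c i * c j * K V (π i) (π j)
  ext : ExtProp K

lemma plant_empty {d N : ℕ} (hd : 0 < d) (ι : Empty → Fin N) (π : Pat d Empty)
    (α : Pat d (Fin N)) : plant ι π α = α := by
  funext x
  unfold plant
  rw [if_neg]
  intro h
  obtain ⟨v, _⟩ := h ⟨0, hd⟩
  exact v.elim

/-- The limit kernel of a sequence of families with densities at least `δ`. -/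
theorem exists_kernel {d : ℕ} (hd : 0 < d) (N : ℕ → ℕ) (hN : ∀ n, n < N n)
    (E : ∀ n, Pat d (Fin (N n)) → Prop) [∀ n, DecidablePred (E n)] (δ : ℝ)
    (hE : ∀ n, δ ≤ 𝔼 α, (if E n α then (1 : ℝ) else 0)) :
    ∃ (p : ℝ) (K : ∀ (V : Type) [Finite V], Pat d V → Pat d V → ℝ), δ ≤ p ∧ p ≤ 1 ∧ IsKer K ∧
      (∀ (V : Type) [Finite V] (π : Pat d V), K V π π = p * (1 - p)) ∧
      ∀ (V : Type) [Finite V] (π ρ : Pat d V),
        (∀ n (ι : V → Fin (N n)), Function.Injective ι → ∀ α,
          ¬ (E n (plant ι π α) ∧ E n (plant ι ρ α))) → K V π ρ = -p ^ 2 := by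
  classical
  set f : ∀ n, Pat d (Fin (N n)) → ℝ := fun n α => if E n α then 1 else 0 with hf
  set q : ℕ → ℝ := fun n => 𝔼 α, f n α with hq
  have hf0 : ∀ n α, 0 ≤ f n α := fun n α => by simp only [hf]; split_ifs <;> norm_num
  have hf1 : ∀ n α, f n α ≤ 1 := fun n α => by simp only [hf]; split_ifs <;> norm_num
  have hq0 : ∀ n, 0 ≤ q n := fun n => expect_nonneg fun α _ => hf0 n α
  have hq1 : ∀ n, q n ≤ 1 := fun n => expect_le univ_nonempty fun α _ => hf1 n α
  have tq := tendsto_ulim q 1 fun n => abs_le.2 ⟨by linarith only [hq0, hq0 n], hq1 n⟩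
  set p := ulim q with hp
  let Φ : ∀ n, Pat d (Fin (N n)) → Pat d (Fin (N n)) → ℝ :=
    fun n a b => (f n a - q n) * (f n b - q n)
  have hfq : ∀ n α, |f n α - q n| ≤ 1 := fun n α =>
    abs_le.2 ⟨by linarith only [hf0, hq1, hf0 n α, hq1 n], by linarith only [hf1, hq0, hf1 n α, hq0 n]⟩
  have hΦ : ∀ n a b, |Φ n a b| ≤ 1 := fun n a b => by
    simp only [Φ, abs_mul]
    exact mul_le_one₀ (hfq n a) (abs_nonneg _) (hfq n b)
  have hne : ∀ n, Nonempty (Fin (N n)) := fun n => ⟨⟨0, by have := hN n; omega⟩⟩
  -- the mean of a planted pattern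
  have hmean : ∀ (V : Type) [Finite V] (π : Pat d V),
      Tendsto (fun n => KN (fun a _ => f n a) V π π) (hyperfilter ℕ : Filter ℕ) (𝓝 p) := by
    intro V _ π
    have hb : ∀ n (a b : Pat d (Fin (N n))), |(fun a _ => f n a) a b| ≤ 1 := fun n a _ =>
      abs_le.2 ⟨by linarith only [hf0, hf0 n a], hf1 n a⟩
    have t1 := tendsto_KL N hN (fun n a _ => f n a) hb V π π
    rw [KL_ext N hN (fun n a _ => f n a) hb Empty V (fun x => x.elim) (fun x => x.elim) π π
      (fun _ _ => rfl)] at t1
    have : KL N (fun n a _ => f n a) Empty (fun c => π ((fun x => x.elim) ∘ c))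
        (fun c => π ((fun x => x.elim) ∘ c)) = p := by
      unfold KL
      rw [hp]
      congr 1
      funext n
      rw [KN_eq]
      simp only [plant_empty hd]
      exact Fintype.expect_const _
    rwa [this] at t1
  have hexp : ∀ (V : Type) [Finite V] (π ρ : Pat d V) (n : ℕ), KN (Φ n) V π ρ =
      KN (fun a b => f n a * f n b) V π ρ - q n * KN (fun a _ => f n a) V π π
        - q n * KN (fun a _ => f n a) V ρ ρ + q n ^ 2 := by
    intro V _ π ρ n
    let _ := Fintype.ofFinite V
    have := hne n
    simp only [KN_eq, Φ]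
    have : ∀ a b : ℝ, (a - q n) * (b - q n) = a * b - q n * a - q n * b + q n ^ 2 :=
      fun a b => by ring
    simp only [this, expect_add_distrib, expect_sub_distrib, ← mul_expect, Fintype.expect_const]
  refine ⟨p, KL N Φ, ge_of_tendsto tq (Eventually.of_forall hE),
    le_of_tendsto tq (Eventually.of_forall hq1), ⟨?_, ?_, KL_ext N hN Φ hΦ⟩, ?_, ?_⟩
  · intro V _ π ρ
    unfold KL KN
    simp only [Φ, mul_comm]
  · intro V _ I _ c π
    let _ := Fintype.ofFinite V
    have t : Tendsto (fun n => ∑ i, ∑ j, c i * c j * KN (Φ n) V (π i) (π j))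
        (hyperfilter ℕ : Filter ℕ) (𝓝 (∑ i, ∑ j, c i * c j * KL N Φ V (π i) (π j))) :=
      tendsto_finsetSum _ fun i _ => tendsto_finsetSum _ fun j _ =>
        (tendsto_KL N hN Φ hΦ V (π i) (π j)).const_mul _
    refine ge_of_tendsto t (Eventually.of_forall fun n => ?_)
    simp only [KN_eq, mul_expect, ← expect_sum_comm]
    refine expect_nonneg fun ι _ => expect_nonneg fun α _ => ?_
    have : ∑ i, ∑ j, c i * c j * Φ n (plant ι (π i) α) (plant ι (π j) α) =
        (∑ i, c i * (f n (plant ι (π i) α) - q n)) ^ 2 := by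
      rw [sq, sum_mul_sum]
      refine sum_congr rfl fun i _ => sum_congr rfl fun j _ => ?_
      simp only [Φ]; ring
    rw [this]; exact sq_nonneg _
  · intro V _ π
    apply ulim_eq
    simp only [hexp]
    have e : ∀ n, KN (fun a b => f n a * f n b) V π π = KN (fun a _ => f n a) V π π := by
      intro n
      unfold KN
      congr 1; funext ι; congr 1; funext α
      simp only [hf]; split_ifs <;> norm_num
    simp only [e]
    have := (((hmean V π).sub (tq.mul (hmean V π))).sub (tq.mul (hmean V π))).add (tq.pow 2)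
    convert this using 2
    ring
  · intro V _ π ρ hno
    let _ := Fintype.ofFinite V
    apply ulim_eq
    simp only [hexp]
    have t0 : Tendsto (fun n => KN (fun a b => f n a * f n b) V π ρ) atTop (𝓝 0) := by
      clear * - V N hN d f π ρ hf0 E hno hf hf1
      have a1 : Tendsto (fun n => (Fintype.card V : ℝ) ^ 2 / N n) atTop (𝓝 0) :=
        (tendsto_N N hN).const_div_atTop _
      refine squeeze_zero (fun n => ?_) (fun n => ?_) a1
      · rw [KN_eq]
        exact expect_nonneg fun ι _ => expect_nonneg fun α _ => mul_nonneg (hf0 _ _) (hf0 _ _)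
      · rw [KN_eq]
        refine le_trans (expect_le_expect fun ι _ => ?_)
          (expect_not_inj (V := V) (by have := hN n; omega : 0 < N n))
        refine expect_le univ_nonempty fun α _ => ?_
        split_ifs with hi
        · have := hno n ι hi α
          simp only [hf]
          split_ifs with h1 h2 <;> simp_all
        · exact mul_le_one₀ (hf1 _ _) (hf0 _ _) (hf1 _ _)
    have := (((t0.mono_left hyper_le_atTop).sub (tq.mul (hmean V π))).sub
      (tq.mul (hmean V ρ))).add (tq.pow 2)
    convert this using 2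
    ring

end Pool.Agent.Work.MP_4523ee_co
end

-- merged part: Pool.Agent.Work.MP_4523ee_co.Mean
section
/-!
An invariant mean on bounded real sequences.
-/

set_option autoImplicit false

open Finset Filter Topology
open scoped BigOperators

namespace Pool.Agent.Work.MP_4523ee_co

/-- Bounded real sequences. -/
def Bdd (u : ℕ → ℝ) : Prop := ∃ C, ∀ n, |u n| ≤ C

/-- Cesaro means. -/
noncomputable def ces (u : ℕ → ℝ) (S : ℕ) : ℝ := (∑ s ∈ range (S + 1), u s) / (S + 1)

lemma ces_bound {u : ℕ → ℝ} {C : ℝ} (h : ∀ n, |u n| ≤ C) (S : ℕ) : |ces u S| ≤ C := by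
  unfold ces
  have hS : (0 : ℝ) < S + 1 := by positivity
  rw [abs_div, abs_of_pos hS, div_le_iff₀ hS]
  refine (abs_sum_le_sum_abs _ _).trans ((sum_le_sum fun s _ => h s).trans (le_of_eq ?_))
  simp [mul_comm]

lemma tendsto_ces {u : ℕ → ℝ} (h : Bdd u) :
    Tendsto (ces u) (hyperfilter ℕ : Filter ℕ) (𝓝 (ulim (ces u))) := by
  obtain ⟨C, hC⟩ := h
  exact tendsto_ulim _ C (ces_bound hC)

/-- The bounded sequences form a subspace. -/
def bddSub : Submodule ℝ (ℕ → ℝ) where
  carrier := {u | Bdd u}
  add_mem' := by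
    rintro u v ⟨C, hC⟩ ⟨D, hD⟩
    exact ⟨C + D, fun n => (abs_add_le _ _).trans (add_le_add (hC n) (hD n))⟩
  zero_mem' := ⟨0, fun n => by simp⟩
  smul_mem' := by
    rintro c u ⟨C, hC⟩
    exact ⟨|c| * C, fun n => by
      simp only [Pi.smul_apply, smul_eq_mul, abs_mul]
      exact mul_le_mul_of_nonneg_left (hC n) (abs_nonneg c)⟩

theorem exists_mean : ∃ M : (ℕ → ℝ) →ₗ[ℝ] ℝ, (∀ c : ℝ, M (fun _ => c) = c) ∧
    (∀ u v, Bdd u → Bdd v → (∀ n, u n ≤ v n) → M u ≤ M v) ∧
    ∀ u, Bdd u → ∀ a, M (fun n => u (n + a)) = M u := by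
  let M₀ : bddSub →ₗ[ℝ] ℝ :=
    { toFun := fun u => ulim (ces u.1)
      map_add' := by
        intro u v
        apply ulim_eq
        have := (tendsto_ces u.2).add (tendsto_ces v.2)
        convert this using 1
        funext S; simp [ces, sum_add_distrib, add_div]
      map_smul' := by
        intro c u
        apply ulim_eq
        have := (tendsto_ces u.2).const_mul c
        convert this using 1
        · funext S; simp [ces, ← mul_sum, mul_div_assoc]
        · simp }
  obtain ⟨M, hM⟩ := LinearMap.exists_extend M₀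
  have key : ∀ u, Bdd u → M u = ulim (ces u) := fun u hu =>
    congrArg (fun L : bddSub →ₗ[ℝ] ℝ => L ⟨u, hu⟩) hM
  refine ⟨M, fun c => ?_, fun u v hu hv h => ?_, fun u hu a => ?_⟩
  · rw [key _ ⟨|c|, fun _ => le_rfl⟩]
    apply ulim_eq
    have : ces (fun _ => c) = fun _ => c := by
      funext S
      have hS : (S : ℝ) + 1 ≠ 0 := by positivity
      simp [ces]; field_simp
    rw [this]; exact tendsto_const_nhds
  · rw [key u hu, key v hv]
    refine le_of_tendsto_of_tendsto' (tendsto_ces hu) (tendsto_ces hv) fun S => ?_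
    unfold ces
    exact div_le_div_of_nonneg_right (sum_le_sum fun s _ => h s) (by positivity)
  · induction a with
    | zero => simp
    | succ a ih =>
      rw [← ih]
      obtain ⟨C, hC⟩ := hu
      have h1 : Bdd (fun n => u (n + (a + 1))) := ⟨C, fun n => hC _⟩
      have h2 : Bdd (fun n => u (n + a)) := ⟨C, fun n => hC _⟩
      rw [key _ h1, key _ h2]
      apply ulim_eq
      have t0 : Tendsto (fun S : ℕ => ces (fun n => u (n + (a + 1))) S - ces (fun n => u (n + a)) S)
          atTop (𝓝 0) := by
        have a1 : Tendsto (fun S : ℕ => 2 * C / ((S : ℝ) + 1)) atTop (𝓝 0) :=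
          (tendsto_atTop_add_const_right _ 1 tendsto_natCast_atTop_atTop).const_div_atTop _
        refine squeeze_zero_norm (fun S => ?_) a1
        have hS : (0 : ℝ) < S + 1 := by positivity
        have e : ces (fun n => u (n + (a + 1))) S - ces (fun n => u (n + a)) S =
            (u (S + 1 + a) - u (0 + a)) / (S + 1) := by
          unfold ces
          rw [← sub_div, ← sum_sub_distrib]
          congr 1
          have := sum_range_sub (fun n => u (n + a)) (S + 1)
          rw [← this]
          refine sum_congr rfl fun s _ => ?_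
          congr 2; ring
        rw [e, Real.norm_eq_abs, abs_div, abs_of_pos hS]
        refine div_le_div_of_nonneg_right ?_ hS.le
        refine (abs_sub _ _).trans ?_
        linarith only [hC, hC (S + 1 + a), hC (0 + a)]
      have := (t0.mono_left hyper_le_atTop).add (tendsto_ces h2)
      simpa using this

end Pool.Agent.Work.MP_4523ee_co
end

-- merged part: Pool.Agent.Work.MP_4523ee_co.Disc
section
/-!
The disc inequality for polynomial systems of degree at most `e`.
-/

set_option autoImplicit false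

open Finset Filter Topology
open scoped BigOperators

namespace Pool.Agent.Work.MP_4523ee_co

lemma sum_symm (g : ℕ → ℕ → ℝ) (hg : ∀ i j, g i j = g j i) (H : ℕ) :
    ∑ i ∈ range H, ∑ j ∈ range H, g i j =
      ∑ i ∈ range H, g i i + 2 * ∑ i ∈ range H, ∑ j ∈ range i, g i j := by
  induction H with
  | zero => simp
  | succ H ih =>
    simp only [sum_range_succ, sum_add_distrib]
    rw [ih]
    have : ∑ i ∈ range H, g i H = ∑ i ∈ range H, g H i := sum_congr rfl fun i _ => hg _ _
    rw [this]; ring

lemma exists_shifts (M : (ℕ → ℝ) →ₗ[ℝ] ℝ) (hc : ∀ c : ℝ, M (fun _ => c) = c)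
    (hm : ∀ u v, Bdd u → Bdd v → (∀ n, u n ≤ v n) → M u ≤ M v)
    (hs : ∀ u, Bdd u → ∀ a, M (fun n => u (n + a)) = M u) (t : ℕ → ℝ) (ht : Bdd t) (H : ℕ) :
    ∃ a : ℕ → ℕ, Monotone a ∧
      ∑ i ∈ range H, ∑ j ∈ range i, t (a i - a j) ≤ (∑ i ∈ range H, (i : ℝ)) * M t + 1 := by
  suffices h : ∀ ε : ℝ, 0 < ε → ∀ H : ℕ, ∃ a : ℕ → ℕ, Monotone a ∧
      ∑ i ∈ range H, ∑ j ∈ range i, t (a i - a j) ≤ (∑ i ∈ range H, (i : ℝ)) * M t + H * ε by
    obtain ⟨a, ha, h2⟩ := h (1 / (H + 1)) (by positivity) H
    refine ⟨a, ha, h2.trans ?_⟩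
    have : (H : ℝ) * (1 / (H + 1)) ≤ 1 := by
      rw [mul_one_div, div_le_one (by positivity)]; linarith only []
    linarith only [this]
  intro ε hε H
  induction H with
  | zero => exact ⟨fun _ => 0, monotone_const, by simp⟩
  | succ H ih =>
    obtain ⟨a, ha, h2⟩ := ih
    obtain ⟨C, hC⟩ := ht
    have hx : ∃ x, ∑ j ∈ range H, t (x + (a H - a j)) ≤ H * M t + ε := by
      by_contra hcon
      push Not at hcon
      have b1 : Bdd (fun x => ∑ j ∈ range H, t (x + (a H - a j))) :=
        ⟨H * C, fun x => (abs_sum_le_sum_abs _ _).trans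
          ((sum_le_sum fun j _ => hC _).trans (by simp))⟩
      have h3 := hm (fun _ => H * M t + ε) _ ⟨_, fun _ => le_rfl⟩ b1 (fun x => (hcon x).le)
      have e : (fun x => ∑ j ∈ range H, t (x + (a H - a j))) =
          ∑ j ∈ range H, fun x => t (x + (a H - a j)) := by
        funext x; simp
      rw [hc, e, map_sum] at h3
      simp only [hs t ⟨C, hC⟩, sum_const, card_range, nsmul_eq_mul] at h3
      linarith only [hε, h3]
    obtain ⟨x, hx⟩ := hx
    refine ⟨fun i => if i < H then a i else x + a H, ?_, ?_⟩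
    · intro i j hij
      simp only
      split_ifs with h1 h3 h3
      · exact ha hij
      · have := ha h1.le; omega
      · omega
      · exact le_rfl
    · rw [sum_range_succ, sum_range_succ]
      have e1 : ∑ i ∈ range H, ∑ j ∈ range i, t ((if i < H then a i else x + a H) -
          (if j < H then a j else x + a H)) = ∑ i ∈ range H, ∑ j ∈ range i, t (a i - a j) := by
        refine sum_congr rfl fun i hi => sum_congr rfl fun j hj => ?_
        have hi := mem_range.1 hi
        have hj := mem_range.1 hj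
        rw [if_pos hi, if_pos (hj.trans hi)]
      have e2 : ∑ j ∈ range H, t ((if H < H then a H else x + a H) -
          (if j < H then a j else x + a H)) = ∑ j ∈ range H, t (x + (a H - a j)) := by
        refine sum_congr rfl fun j hj => ?_
        have hj := mem_range.1 hj
        rw [if_neg (lt_irrefl _), if_pos hj]
        have := ha hj.le
        congr 1; omega
      rw [e1, e2]
      push_cast
      linarith only [h2, hx]

section ker

variable {d : ℕ} {K : ∀ (V : Type) [Finite V], Pat d V → Pat d V → ℝ} (hK : IsKer K) {κ : ℝ}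
  (hκ : ∀ (V : Type) [Finite V] (π : Pat d V), K V π π = κ)

include hK hκ

lemma kappa_nonneg : 0 ≤ κ := by
  have := hK.psd Empty Unit (fun _ => 1) (fun _ _ => false)
  simpa [hκ] using this

lemma ker_cs (V : Type) [Finite V] (I : Type) [Fintype I] (c : I → ℝ) (π : I → Pat d V)
    (ρ : Pat d V) :
    (∑ i, c i * K V (π i) ρ) ^ 2 ≤ (∑ i, ∑ j, c i * c j * K V (π i) (π j)) * κ := by
  have h : ∀ x : ℝ, 0 ≤ κ * (x * x) + (2 * ∑ i, c i * K V (π i) ρ) * x +
      ∑ i, ∑ j, c i * c j * K V (π i) (π j) := by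
    intro x
    have := hK.psd V (Option I) (fun o => o.elim x c) (fun o => o.elim ρ π)
    simp only [Fintype.sum_option, Option.elim, hκ, sum_add_distrib] at this
    have e1 : ∑ j, x * c j * K V ρ (π j) = x * ∑ i, c i * K V (π i) ρ := by
      rw [mul_sum]; exact sum_congr rfl fun j _ => by rw [hK.symm]; ring
    have e2 : ∑ j, c j * x * K V (π j) ρ = x * ∑ i, c i * K V (π i) ρ := by
      rw [mul_sum]; exact sum_congr rfl fun j _ => by ring
    rw [e1, e2] at this
    linarith
  have := discrim_le_zero h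
  unfold discrim at this
  nlinarith

lemma ker_abs (V : Type) [Finite V] (π ρ : Pat d V) : |K V π ρ| ≤ κ := by
  have := ker_cs hK hκ V Unit (fun _ => 1) (fun _ => π) ρ
  simp only [univ_unique, sum_singleton, one_mul, hκ] at this
  apply abs_le_of_sq_le_sq _ (kappa_nonneg hK hκ)
  nlinarith

lemma ker_cs2 (V : Type) [Finite V] (H : ℕ) (c x : ℝ) (π : ℕ → Pat d V) (σ ρ : Pat d V) :
    (c * ∑ i ∈ range H, K V (π i) ρ - x * K V σ ρ) ^ 2 ≤
      (c ^ 2 * ∑ i ∈ range H, ∑ j ∈ range H, K V (π i) (π j)
        - 2 * x * c * ∑ i ∈ range H, K V (π i) σ + x ^ 2 * κ) * κ := by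
  have := ker_cs hK hκ V (Option (Fin H)) (fun o => o.elim (-x) (fun _ => c))
    (fun o => o.elim σ (fun i => π i)) ρ
  simp only [Fintype.sum_option, Option.elim, hκ, sum_add_distrib] at this
  have e0 : ∑ i : Fin H, c * K V (π i) ρ = c * ∑ i ∈ range H, K V (π i) ρ := by
    rw [← mul_sum, Fin.sum_univ_eq_sum_range (fun i => K V (π i) ρ)]
  have e1 : ∑ j : Fin H, -x * c * K V σ (π j) = -x * c * ∑ i ∈ range H, K V (π i) σ := by
    rw [← mul_sum, Fin.sum_univ_eq_sum_range (fun i => K V σ (π i))]
    congr 1; exact sum_congr rfl fun j _ => hK.symm _ _ _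
  have e2 : ∑ j : Fin H, c * -x * K V (π j) σ = -x * c * ∑ i ∈ range H, K V (π i) σ := by
    rw [← mul_sum, Fin.sum_univ_eq_sum_range (fun i => K V (π i) σ)]; ring
  have e3 : ∑ i : Fin H, ∑ j : Fin H, c * c * K V (π i) (π j) =
      c ^ 2 * ∑ i ∈ range H, ∑ j ∈ range H, K V (π i) (π j) := by
    simp only [← mul_sum]
    rw [Fin.sum_univ_eq_sum_range (fun i => ∑ j : Fin H, K V (π i) (π j)), sq]
    congr 1
    exact sum_congr rfl fun i _ => Fin.sum_univ_eq_sum_range (fun j => K V (π i) (π j)) H
  rw [e0, e1, e2, e3] at this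
  convert this using 2 <;> ring

end ker

/-- The type of a vertex: base vertices keep their name, the others are stars. -/
def ty {B : Type} {s : ℕ} : B ⊕ Fin s → Option B := Sum.elim some (fun _ => none)

/-- The pattern of a template. -/
def tpl {d : ℕ} {B : Type} (T : Pat d (Option B)) (s : ℕ) : Pat d (B ⊕ Fin s) :=
  fun c => T (ty ∘ c)

open Classical in
/-- The number of stars in a type. -/
noncomputable def stars {d : ℕ} {B : Type} (τ : Fin d → Option B) : ℕ :=
  (univ.filter fun j => τ j = none).card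

open Classical in
/-- The threshold patterns. -/
noncomputable def thr {d : ℕ} {B : Type} (T T' : Pat d (Option B)) (n k : ℕ) :
    Pat d (B ⊕ Fin n) :=
  fun c => if ∀ j i, c j = Sum.inr i → i.val < k then T (ty ∘ c) else T' (ty ∘ c)

/-- Collapse the new base vertices to stars. -/
def col {B : Type} {a : ℕ} : Option (B ⊕ Fin a) → Option B := fun o => o.bind ty

/-- First derived template. -/
def dT {d : ℕ} {B : Type} (T : Pat d (Option B)) (a : ℕ) : Pat d (Option (B ⊕ Fin a)) :=
  fun τ => T (col ∘ τ)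

open Classical in
/-- Second derived template. -/
noncomputable def dT' {d : ℕ} {B : Type} (T T' : Pat d (Option B)) (a : ℕ) :
    Pat d (Option (B ⊕ Fin a)) :=
  fun τ => if ∀ j i, τ j ≠ some (Sum.inr i) then T (col ∘ τ) else T' (col ∘ τ)

lemma stars_derived {d : ℕ} {B : Type} (T T' : Pat d (Option B)) (e a : ℕ)
    (h : ∀ τ, e + 1 < stars τ → T τ = T' τ) (τ : Fin d → Option (B ⊕ Fin a))
    (hτ : e < stars τ) : dT T a τ = dT' T T' a τ := by
  classical
  unfold dT dT'
  split_ifs with h1
  · rfl
  · apply h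
    push Not at h1
    obtain ⟨j, i, hj⟩ := h1
    unfold stars at hτ ⊢
    have hsub : insert j (univ.filter fun j => τ j = none) ⊆
        univ.filter fun j => (col ∘ τ) j = none := by
      intro l hl
      simp only [mem_insert, mem_filter, mem_univ, true_and] at hl ⊢
      rcases hl with rfl | hl
      · simp [col, hj, ty]
      · simp [col, hl]
    have := card_le_card hsub
    rw [card_insert_of_notMem (by simp [hj])] at this
    convert (by omega : e + 1 < (univ.filter fun j => (col ∘ τ) j = none).card)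

section ker2

variable {d : ℕ} {K : ∀ (V : Type) [Finite V], Pat d V → Pat d V → ℝ} (hK : IsKer K)

/-- The correlation sequence of a pair of templates. -/
noncomputable def tf (K : ∀ (V : Type) [Finite V], Pat d V → Pat d V → ℝ) {B : Type} [Finite B]
    (T T' : Pat d (Option B)) (s : ℕ) : ℝ := K (B ⊕ Fin s) (tpl T s) (tpl T' s)

include hK

lemma thr_tpl {B : Type} [Finite B] (T T' : Pat d (Option B)) (n k : ℕ) (hk : k ≤ n) :
    K (B ⊕ Fin n) (thr T T' n k) (tpl T' n) = tf K T T' k := by
  classical
  have hty : ∀ c : Fin d → B ⊕ Fin k, ty ∘ (Sum.map id (Fin.castLE hk) ∘ c) = ty ∘ c := by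
    intro c; funext j; simp only [Function.comp]; cases c j <;> rfl
  rw [hK.ext (B ⊕ Fin k) (B ⊕ Fin n) (Sum.map id (Fin.castLE hk))
    (Function.injective_id.sumMap (Fin.castLE_injective hk))]
  · unfold tf
    congr 1
    · funext c
      unfold thr tpl
      rw [if_pos, hty]
      intro j i hj
      simp only [Function.comp] at hj
      cases hc : c j with
      | inl b => simp [hc] at hj
      | inr l =>
        simp only [hc, Sum.map_inr, Sum.inr.injEq] at hj
        rw [← hj]; exact l.2
    · funext c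
      unfold tpl
      rw [hty]
  · rintro c ⟨j, hj⟩
    unfold thr tpl
    rw [if_neg]
    intro h
    apply hj
    cases hc : c j with
    | inl b => exact ⟨Sum.inl b, rfl⟩
    | inr i => exact ⟨Sum.inr ⟨i, h j i hc⟩, rfl⟩

lemma thr_thr {B : Type} [Finite B] (T T' : Pat d (Option B)) (n k a : ℕ) (hk : k + a ≤ n) :
    K (B ⊕ Fin n) (thr T T' n (k + a)) (thr T T' n k) = tf K (dT T a) (dT' T T' a) k := by
  classical
  let e : (B ⊕ Fin a) ⊕ Fin k → B ⊕ Fin n :=
    Sum.elim (Sum.elim Sum.inl (fun i => Sum.inr ⟨k + i, by omega⟩))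
      (fun i => Sum.inr ⟨i, by omega⟩)
  have he : Function.Injective e := by
    rintro ((x | x) | x) ((y | y) | y) h <;> simp [e, Fin.ext_iff] at h ⊢ <;> omega
  have hty : ∀ c : Fin d → (B ⊕ Fin a) ⊕ Fin k, ty ∘ (e ∘ c) = col ∘ (ty ∘ c) := by
    intro c; funext j; simp only [Function.comp]
    rcases c j with (x | x) | x <;> rfl
  rw [hK.ext _ _ e he]
  · unfold tf
    congr 1
    · funext c
      unfold thr tpl dT
      rw [if_pos, hty]
      intro j i hj
      simp only [Function.comp] at hj
      rcases hc : c j with (x | x) | x <;> simp [hc, e, Fin.ext_iff] at hj <;> omega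
    · funext c
      unfold thr tpl dT'
      rw [hty]
      congr 1
      apply propext
      constructor
      · intro h j i hj
        simp only [Function.comp] at hj
        rcases hc : c j with (x | x) | x
        · simp [hc, ty] at hj
        · have := h j ⟨k + x, by omega⟩ (by simp [hc, e])
          simp at this
        · simp [hc, ty] at hj
      · intro h j i hj
        simp only [Function.comp] at hj
        rcases hc : c j with (x | x) | x
        · simp [hc, e] at hj
        · exact absurd (by simp [hc, ty]) (h j x)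
        · simp [hc, e, Fin.ext_iff] at hj; omega
  · rintro c ⟨j, hj⟩
    have hbig : ∃ i, c j = Sum.inr i ∧ k + a ≤ i.val := by
      cases hc : c j with
      | inl b => exact absurd ⟨Sum.inl (Sum.inl b), by simp [e, hc]⟩ hj
      | inr i =>
        refine ⟨i, rfl, ?_⟩
        by_contra hlt
        apply hj
        by_cases h2 : i.val < k
        · exact ⟨Sum.inr ⟨i, h2⟩, by simp [e, hc]⟩
        · exact ⟨Sum.inl (Sum.inr ⟨i - k, by omega⟩), by simp [e, hc, Fin.ext_iff]; omega⟩
    obtain ⟨i, hi, hi2⟩ := hbig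
    unfold thr
    rw [if_neg, if_neg]
    · intro h; have := h j i hi; omega
    · intro h; have := h j i hi; omega

theorem disc {κ : ℝ} (hκ : ∀ (V : Type) [Finite V] (π : Pat d V), K V π π = κ)
    (M : (ℕ → ℝ) →ₗ[ℝ] ℝ) (hc : ∀ c : ℝ, M (fun _ => c) = c)
    (hm : ∀ u v, Bdd u → Bdd v → (∀ n, u n ≤ v n) → M u ≤ M v)
    (hs : ∀ u, Bdd u → ∀ a, M (fun n => u (n + a)) = M u) (e : ℕ) :
    ∀ (B : Type) [Finite B] (T T' : Pat d (Option B)), (∀ τ, e < stars τ → T τ = T' τ) →
      |M (tf K T T') - (1 / 2) ^ e * tf K T T' 0| ≤ (1 - (1 / 2) ^ e) * κ := by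
  classical
  have hκ0 := kappa_nonneg hK hκ
  induction e with
  | zero =>
    intro B _ T T' h
    have : tf K T T' = fun _ => tf K T T' 0 := by
      funext s
      rw [← thr_tpl hK T T' s s le_rfl, ← thr_tpl hK T T' s 0 (Nat.zero_le _)]
      congr 1
      funext c
      unfold thr
      rw [if_pos (fun j i _ => i.2)]
      split_ifs with h1
      · rfl
      · apply h
        push Not at h1
        obtain ⟨j, i, hj, _⟩ := h1
        unfold stars
        exact card_pos.2 ⟨j, by simp [hj, ty]⟩
    rw [this, hc]; simp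
  | succ e ih =>
    intro B _ T T' h
    set m : ℝ := (1 / 2) ^ e with hmdef
    have hm0 : 0 ≤ m := by positivity
    have hm1 : m ≤ 1 := pow_le_one₀ (by norm_num) (by norm_num)
    set t := tf K T T' with ht
    set t2 : ℕ → ℝ := fun a => tf K (dT T a) (dT' T T' a) 0 with ht2
    have bt : Bdd t := ⟨κ, fun n => ker_abs hK hκ _ _ _⟩
    have bt2 : Bdd t2 := ⟨κ, fun n => ker_abs hK hκ _ _ _⟩
    have hMt2 : -κ ≤ M t2 := by
      rw [← hc (-κ)]
      exact hm _ _ ⟨_, fun _ => le_rfl⟩ bt2 fun n => (abs_le.1 (ker_abs hK hκ _ _ _)).1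
    set z := M t - m / 2 * t 0 with hz
    have key : ∀ H : ℕ, 0 < H → z ^ 2 ≤ ((1 - m / 2) * κ) ^ 2 + (2 * κ ^ 2 + 2 * κ) / H := by
      intro H hH
      have hH' : (1 : ℝ) ≤ H := by exact_mod_cast hH
      obtain ⟨a, ha, hsum⟩ := exists_shifts M hc hm hs t2 bt2 H
      let G : ℕ → ℕ → ℕ → ℝ := fun i j u =>
        K (B ⊕ Fin (u + a H)) (thr T T' (u + a H) (u + a i)) (thr T T' (u + a H) (u + a j))
      let L : ℕ → ℝ := (1 / H : ℝ) • (∑ i ∈ range H, fun u => t (u + a i)) - fun _ => m / 2 * t 0
      let Q : ℕ → ℝ := ((1 / H : ℝ) ^ 2 • (∑ i ∈ range H, ∑ j ∈ range H, G i j)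
        - (2 * (m / 2) * (1 / H : ℝ)) • (∑ i ∈ range H, fun u => t2 (u + a i))
        + fun _ => (m / 2) ^ 2 * κ)
      have hLQ : ∀ u, L u ^ 2 ≤ Q u * κ := by
        intro u
        have := ker_cs2 hK hκ (B ⊕ Fin (u + a H)) H (1 / H) (m / 2)
          (fun i => thr T T' (u + a H) (u + a i)) (thr T T' (u + a H) 0) (tpl T' (u + a H))
        convert this using 2
        · simp only [L, Pi.sub_apply, Pi.smul_apply, Finset.sum_apply, smul_eq_mul]
          rw [thr_tpl hK T T' _ 0 (Nat.zero_le _)]
          congr 2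
          refine sum_congr rfl fun i hi => ?_
          rw [thr_tpl hK T T' _ _ (by have := ha (mem_range.1 hi).le; omega)]
        · simp only [Q, G, Pi.sub_apply, Pi.add_apply, Pi.smul_apply, Finset.sum_apply,
            smul_eq_mul]
          congr 3
          refine sum_congr rfl fun i hi => ?_
          have := thr_thr hK T T' (u + a H) 0 (u + a i)
            (by have := ha (mem_range.1 hi).le; omega)
          rw [zero_add] at this
          rw [this]
      have hML : M L = z := by
        simp only [L, map_sub, map_smul, map_sum, hs t bt, hc, sum_const, card_range,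
          smul_eq_mul, nsmul_eq_mul]
        rw [hz]; field_simp
      have hG : ∀ i j, j < i → i < H → M (G i j) ≤ m * t2 (a i - a j) + (1 - m) * κ := by
        intro i j hji hi
        have h1 := ha hji.le
        have h2 := ha hi.le
        have e1 : G i j = fun u => tf K (dT T (a i - a j)) (dT' T T' (a i - a j)) (u + a j) := by
          funext u
          rw [← thr_thr hK T T' (u + a H) (u + a j) (a i - a j) (by omega)]
          simp only [G]
          congr 2; omega
        rw [e1, hs (tf K (dT T (a i - a j)) (dT' T T' (a i - a j)))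
          ⟨κ, fun n => ker_abs hK hκ _ _ _⟩]
        have := ih _ _ _ (stars_derived T T' e (a i - a j) h)
        have := (abs_le.1 this).2
        simp only [ht2]; linarith
      have hGd : ∀ i, M (G i i) = κ := by
        intro i
        have : G i i = fun _ => κ := funext fun u => hκ _ _
        rw [this, hc]
      have hsumH : 2 * ∑ i ∈ range H, (i : ℝ) = H * (H - 1) := by
        clear hsum hLQ hML hG hGd hH hH' L Q G
        induction H with
        | zero => simp
        | succ H ih2 => rw [sum_range_succ, mul_add, ih2]; push_cast; ring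
      have hMQ : M Q ≤ (1 - m / 2) ^ 2 * κ + (2 * κ + 2) / H := by
        simp only [Q, map_add, map_sub, map_smul, map_sum, hs t2 bt2, hc, sum_const, card_range,
          smul_eq_mul, nsmul_eq_mul]
        rw [sum_symm (fun i j => M (G i j))
          (fun i j => by congr 1; funext u; exact hK.symm _ _ _)]
        simp only [hGd, sum_const, card_range, nsmul_eq_mul]
        have h1 : ∑ i ∈ range H, ∑ j ∈ range i, M (G i j) ≤
            m * (∑ i ∈ range H, ∑ j ∈ range i, t2 (a i - a j)) +
              (∑ i ∈ range H, (i : ℝ)) * ((1 - m) * κ) := by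
          rw [mul_sum, sum_mul, ← sum_add_distrib]
          refine sum_le_sum fun i hi => ?_
          calc _ ≤ ∑ j ∈ range i, (m * t2 (a i - a j) + (1 - m) * κ) :=
                sum_le_sum fun j hj => hG i j (mem_range.1 hj) (mem_range.1 hi)
            _ = _ := by rw [sum_add_distrib, ← mul_sum]; simp
        set P := ∑ i ∈ range H, (i : ℝ)
        set S := ∑ i ∈ range H, ∑ j ∈ range i, M (G i j)
        have h2 : S ≤ m * (P * M t2 + 1) + P * ((1 - m) * κ) :=
          h1.trans (by gcongr)
        have hP : P = H * (H - 1) / 2 := by linarith only [hsumH]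
        have hH0 : (0 : ℝ) < H := by linarith only [hH']
        have h3 : (1 / (H : ℝ)) ^ 2 * (H * κ + 2 * S) ≤
            (1 / (H : ℝ)) ^ 2 * (H * κ + 2 * (m * (P * M t2 + 1) + P * ((1 - m) * κ))) := by
          gcongr
        have h4 : (1 / (H : ℝ)) ^ 2 * (H * κ + 2 * (m * (P * M t2 + 1) + P * ((1 - m) * κ))) =
            m * M t2 + (1 - m) * κ + (m * (κ - M t2) + 2 * m / H) / H := by
          rw [hP]; field_simp; ring
        have h5 : (m * (κ - M t2) + 2 * m / H) / H ≤ (2 * κ + 2) / H := by
          refine div_le_div_of_nonneg_right ?_ hH0.le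
          have a1 : m * (κ - M t2) ≤ 2 * κ := by
            by_cases hh : 0 ≤ κ - M t2
            · linarith only [hκ0, hm1, hm0, hMt2, mul_nonneg_of_nonpos_of_nonpos (Mathlib.Tactic.Linarith.sub_nonpos_of_le hκ0) (Mathlib.Tactic.Linarith.sub_nonpos_of_le hm1), mul_nonneg_of_nonpos_of_nonpos (Mathlib.Tactic.Linarith.sub_nonpos_of_le hm0) (Mathlib.Tactic.Linarith.sub_nonpos_of_le hMt2)]
            · linarith only [hκ0, hm1, hm0, hMt2, mul_nonneg_of_nonpos_of_nonpos (Mathlib.Tactic.Linarith.sub_nonpos_of_le hκ0) (Mathlib.Tactic.Linarith.sub_nonpos_of_le hm1), mul_nonneg_of_nonpos_of_nonpos (Mathlib.Tactic.Linarith.sub_nonpos_of_le hm0) (Mathlib.Tactic.Linarith.sub_nonpos_of_le hMt2)]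
          have a2 : 2 * m / H ≤ 2 := by rw [div_le_iff₀ hH0]; linarith only [hm1, hH']
          linarith only [a1, a2]
        have h6 : 2 * (m / 2) * (1 / (H : ℝ)) * (H * M t2) = m * M t2 := by field_simp
        rw [h6]
        linarith only [h3, h4, h5]
      have bL : Bdd L := by
        refine bddSub.sub_mem (bddSub.smul_mem _ (bddSub.sum_mem fun i _ => ?_)) ⟨_, fun _ => le_rfl⟩
        obtain ⟨C, hC⟩ := bt
        exact ⟨C, fun n => hC _⟩
      have bQ : Bdd Q := by
        refine bddSub.add_mem (bddSub.sub_mem (bddSub.smul_mem _ (bddSub.sum_mem fun i _ =>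
          bddSub.sum_mem fun j _ => ⟨κ, fun n => ker_abs hK hκ _ _ _⟩))
          (bddSub.smul_mem _ (bddSub.sum_mem fun i _ => ?_))) ⟨_, fun _ => le_rfl⟩
        obtain ⟨C, hC⟩ := bt2
        exact ⟨C, fun n => hC _⟩
      have h7 := hm ((2 * z) • L) (κ • Q + fun _ => z ^ 2) (bddSub.smul_mem _ bL)
        (bddSub.add_mem (bddSub.smul_mem _ bQ) ⟨_, fun _ => le_rfl⟩) (fun u => by
          simp only [Pi.smul_apply, Pi.add_apply, smul_eq_mul]
          linarith only [hLQ, hLQ u, sq_nonneg (L u - z), sq_nonneg (L u - z)])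
      simp only [map_add, map_smul, hML, hc, smul_eq_mul] at h7
      have h8 : κ * M Q ≤ κ * ((1 - m / 2) ^ 2 * κ + (2 * κ + 2) / H) := by gcongr
      have h9 : κ * ((1 - m / 2) ^ 2 * κ + (2 * κ + 2) / H) =
          ((1 - m / 2) * κ) ^ 2 + (2 * κ ^ 2 + 2 * κ) / H := by ring
      linarith only [h7, h8, h9]
    have hlim : z ^ 2 ≤ ((1 - m / 2) * κ) ^ 2 := by
      have t0 : Tendsto (fun H : ℕ => ((1 - m / 2) * κ) ^ 2 + (2 * κ ^ 2 + 2 * κ) / H) atTop
          (𝓝 (((1 - m / 2) * κ) ^ 2 + 0)) :=
        tendsto_const_nhds.add (tendsto_natCast_atTop_atTop.const_div_atTop _)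
      rw [add_zero] at t0
      exact ge_of_tendsto t0 ((eventually_gt_atTop 0).mono key)
    have e1 : (1 / 2 : ℝ) ^ (e + 1) = m / 2 := by rw [pow_succ]; ring
    rw [e1]
    exact abs_le_of_sq_le_sq hlim (mul_nonneg (by linarith only [hm1]) hκ0)

end ker2

end Pool.Agent.Work.MP_4523ee_co
end

-- merged part: Pool.Agent.Work.MP_4523ee_co.Bridge
section
/-!
From configuration-free families of finite sets to the limit kernel.
-/

set_option autoImplicit false

open Finset Filter Topology
open scoped BigOperators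

namespace Pool.Agent.Work.MP_4523ee_co

/-- The finite set described by a pattern. -/
def toF {d N : ℕ} (α : Pat d (Fin N)) : Finset (Fin d → Fin N) := univ.filter fun x => α x = true

lemma toF_bij {d N : ℕ} : Function.Bijective (toF : Pat d (Fin N) → _) := by
  constructor
  · intro α β h
    funext x
    have := congrArg (fun s => x ∈ s) h
    simp only [toF, mem_filter, mem_univ, true_and, eq_iff_iff] at this
    cases ha : α x <;> cases hb : β x <;> simp_all
  · intro s
    exact ⟨fun x => decide (x ∈ s), by ext x; simp [toF]⟩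

lemma density_eq {d N : ℕ} (E : Finset (Finset (Fin d → Fin N))) :
    𝔼 α : Pat d (Fin N), (if toF α ∈ E ∧ (toF α).Nonempty then (1 : ℝ) else 0) =
      ((E.erase ∅).card : ℝ) / 2 ^ (N ^ d) := by
  rw [Fintype.expect_bijective toF toF_bij _
    (fun s => if s ∈ E ∧ s.Nonempty then (1 : ℝ) else 0) (fun _ => rfl),
    Fintype.expect_eq_sum_div_card, ← sum_filter]
  have : (univ.filter fun s : Finset (Fin d → Fin N) => s ∈ E ∧ s.Nonempty) = E.erase ∅ := by
    ext s; simp [nonempty_iff_ne_empty, and_comm]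
  rw [this]
  simp

theorem kernel_of_bad {d : ℕ} (hd : 0 < d) (δ δ' : ℝ) (hδ : δ' < δ)
    (Bad : ∀ N, Finset (Finset (Fin d → Fin N)) → Prop)
    (h : ∀ N₀, ∃ N, N₀ ≤ N ∧ ∃ E : Finset (Finset (Fin d → Fin N)),
      δ * (2 ^ (N ^ d) - 1) ≤ E.card ∧ Bad N E) :
    ∃ (p : ℝ) (K : ∀ (V : Type) [Finite V], Pat d V → Pat d V → ℝ), δ' ≤ p ∧ p ≤ 1 ∧ IsKer K ∧
      (∀ (V : Type) [Finite V] (π : Pat d V), K V π π = p * (1 - p)) ∧
      ∀ (V : Type) [Finite V] (π ρ : Pat d V),
        (∀ N E, Bad N E → ∀ ι : V → Fin N, Function.Injective ι → ∀ α,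
          toF (plant ι π α) ∈ E → toF (plant ι ρ α) ∈ E → (toF (plant ι ρ α)).Nonempty → False) →
          K V π ρ = -p ^ 2 := by
  classical
  obtain ⟨n₀, hn₀⟩ := exists_nat_ge ((|δ| + 1) / (δ - δ'))
  choose N hN E hE hBad using fun n => h (n + 1 + n₀)
  obtain ⟨p, K, h1, h2, h3, h4, h5⟩ := exists_kernel hd N (fun n => by have := hN n; omega)
    (fun n α => toF α ∈ E n ∧ (toF α).Nonempty) δ' (fun n => by
      have := density_eq (E n)
      refine le_of_le_of_eq ?_ (by convert this.symm)
      have hpos : (0 : ℝ) < 2 ^ (N n ^ d) := by positivity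
      rw [le_div_iff₀ hpos]
      have a1 : ((E n).card : ℝ) - 1 ≤ ((E n).erase ∅).card := by
        have := pred_card_le_card_erase (s := E n) (a := ∅)
        have h' : (E n).card ≤ ((E n).erase ∅).card + 1 := by omega
        have : ((E n).card : ℝ) ≤ ((E n).erase ∅).card + 1 := by exact_mod_cast h'
        linarith only [this]
      have a2 : (n₀ : ℝ) ≤ 2 ^ (N n ^ d) := by
        have b1 : n₀ ≤ N n := by have := hN n; omega
        have b2 : N n ≤ N n ^ d := Nat.le_self_pow (by omega) _
        have b3 : N n ^ d < 2 ^ (N n ^ d) := Nat.lt_two_pow_self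
        exact_mod_cast (by omega : n₀ ≤ 2 ^ (N n ^ d))
      have a3 : |δ| + 1 ≤ (δ - δ') * 2 ^ (N n ^ d) := by
        rw [div_le_iff₀ (by linarith only [hδ])] at hn₀
        linarith only [hn₀, hδ, a2, mul_nonneg_of_nonpos_of_nonpos (le_of_lt (Mathlib.Tactic.Linarith.sub_neg_of_lt hδ)) (Mathlib.Tactic.Linarith.sub_nonpos_of_le a2)]
      have := hE n
      have := le_abs_self δ
      nlinarith)
  refine ⟨p, K, h1, h2, h3, h4, fun V _ π ρ hno => h5 V π ρ fun n ι hι α hh => ?_⟩
  exact hno _ _ (hBad n) ι hι α hh.1.1 hh.2.1 hh.2.2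

end Pool.Agent.Work.MP_4523ee_co
end
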