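import Mathlib
import Pool.Agent.Work.MP_4523ee_co.Bridge

-- merged part: Pool.Agent.Work.MP_4523ee_co.K2
section
/-!
Two-sorted complex kernels and the Gram system of far operations.
-/

set_option autoImplicit false
set_option linter.unusedVariables false

open Finset Filter Topology
open scoped BigOperators ComplexConjugate

namespace Pool.Agent.Work.MP_4523ee_co

/-- Hermitian positive semidefinite kernels. -/
structure PSDK {M : Type} (g : M → M → ℂ) : Prop where
  herm : ∀ i j, g j i = conj (g i j)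
  psd : ∀ (I : Type) [Fintype I] (c : I → ℂ) (m : I → M),
    0 ≤ (∑ i, ∑ j, c i * conj (c j) * g (m i) (m j)).re

lemma PSDK.diag_im {M : Type} {g : M → M → ℂ} (h : PSDK g) (k : M) : (g k k).im = 0 := by
  have := congrArg Complex.im (h.herm k k)
  simp only [Complex.conj_im] at this
  linarith only [this]

lemma PSDK.diag_nonneg {M : Type} {g : M → M → ℂ} (h : PSDK g) (k : M) : 0 ≤ (g k k).re := by
  simpa using h.psd Unit (fun _ => 1) (fun _ => k)

lemma PSDK.cs {M : Type} {g : M → M → ℂ} (h : PSDK g) (I : Type) [Fintype I] (c : I → ℂ)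
    (m : I → M) (k : M) :
    ‖∑ i, c i * g (m i) k‖ ^ 2 ≤ (∑ i, ∑ j, c i * conj (c j) * g (m i) (m j)).re * (g k k).re := by
  obtain ⟨z, hz⟩ : ∃ z, z = ∑ i, c i * g (m i) k := ⟨_, rfl⟩
  rw [← hz]
  set Q := (∑ i, ∑ j, c i * conj (c j) * g (m i) (m j)).re with hQ
  have hQ0 : 0 ≤ Q := h.psd I c m
  have key : ∀ x : ℝ, 0 ≤ (‖z‖ ^ 2 * (g k k).re) * (x * x) + (2 * ‖z‖ ^ 2) * x + Q := by
    intro x
    have := h.psd (Option I) (fun o => o.elim (x * z) c) (fun o => o.elim k m)
    simp only [Fintype.sum_option, Option.elim, sum_add_distrib] at this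
    have e1 : ∑ j, (x : ℂ) * z * conj (c j) * g k (m j) = x * (z * conj z) := by
      have hc : conj z = ∑ i, conj (c i * g (m i) k) := by rw [hz, map_sum]
      rw [hc, mul_sum, mul_sum]
      refine sum_congr rfl fun j _ => ?_
      rw [h.herm (m j) k, map_mul]; ring
    have e2 : ∑ j, c j * conj ((x : ℂ) * z) * g (m j) k = x * (z * conj z) := by
      have : ∀ j, c j * conj ((x : ℂ) * z) * g (m j) k = x * conj z * (c j * g (m j) k) := by
        intro j; rw [map_mul, Complex.conj_ofReal]; ring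
      simp only [this]; rw [← mul_sum, ← hz]; ring
    have e3 : (x : ℂ) * z * conj ((x : ℂ) * z) = (x * x : ℝ) * (z * conj z) := by
      rw [map_mul, Complex.conj_ofReal]; push_cast; ring
    rw [e1, e2, e3, Complex.mul_conj, Complex.normSq_eq_norm_sq] at this
    simp only [Complex.add_re, Complex.mul_re, Complex.ofReal_re, Complex.ofReal_im,
      Complex.mul_im, h.diag_im k] at this
    rw [← hQ] at this
    linarith only [this]
  have hd := discrim_le_zero key
  unfold discrim at hd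
  by_cases h0 : ‖z‖ = 0
  · rw [h0]; simpa using mul_nonneg hQ0 (h.diag_nonneg k)
  · have hp : 0 < ‖z‖ ^ 2 := by positivity
    have : ‖z‖ ^ 2 * (‖z‖ ^ 2 - Q * (g k k).re) ≤ 0 := by linarith only [hd]
    have := nonpos_of_mul_nonpos_right this hp
    linarith

lemma PSDK.cs1 {M : Type} {g : M → M → ℂ} (h : PSDK g) (i k : M) :
    ‖g i k‖ ^ 2 ≤ (g i i).re * (g k k).re := by
  simpa using h.cs Unit (fun _ => 1) (fun _ => i) k

lemma PSDK.cs2 {M : Type} {g : M → M → ℂ} (h : PSDK g) (i j k : M) (κ : ℂ) :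
    ‖g i k - κ * g j k‖ ^ 2 ≤
      ((g i i).re - 2 * (conj κ * g i j).re + ‖κ‖ ^ 2 * (g j j).re) * (g k k).re := by
  have := h.cs Bool (fun b => if b then 1 else -κ) (fun b => if b then i else j) k
  simp only [Fintype.sum_bool, if_true, Bool.false_eq_true, if_false, one_mul, map_one,
    map_neg, mul_one] at this
  convert this using 2
  · congr 1; ring
  · rw [h.herm i j]
    have e : -κ * -conj κ = ((‖κ‖ ^ 2 : ℝ) : ℂ) := by
      rw [neg_mul_neg, Complex.mul_conj, Complex.normSq_eq_norm_sq]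
    rw [e]
    simp only [Complex.add_re, Complex.mul_re, Complex.ofReal_re, Complex.ofReal_im,
      Complex.neg_re, Complex.neg_im, Complex.conj_re, Complex.conj_im, h.diag_im j]
    ring

/-- Two-sorted kernels. -/
abbrev Ker2 : Type 1 :=
  ∀ (R C : Type) [Finite R] [Finite C], (R → C → Bool) → (R → C → Bool) → ℂ

/-- Normalised positive semidefinite two-sorted kernels with the extension property. -/
structure IsK2 (G : Ker2) : Prop where
  diag : ∀ (R C : Type) [Finite R] [Finite C] (π : R → C → Bool), G R C π π = 1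
  psd : ∀ (R C : Type) [Finite R] [Finite C], PSDK (G R C)
  ext : ∀ (R C R' C' : Type) [Finite R] [Finite C] [Finite R'] [Finite C'] (e : R → R')
    (f : C → C'), Function.Injective e → Function.Injective f → ∀ π ρ : R' → C' → Bool,
    (∀ x y, (x ∉ Set.range e ∨ y ∉ Set.range f) → π x y = ρ x y) →
      G R' C' π ρ = G R C (fun x y => π (e x) (f y)) (fun x y => ρ (e x) (f y))

/-- Block diagonal sum of two patterns. -/
def blk {R C R' C' : Type} (π : R → C → Bool) (π' : R' → C' → Bool) : R ⊕ R' → C ⊕ C' → Bool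
  | Sum.inl x, Sum.inl y => π x y
  | Sum.inr x, Sum.inr y => π' x y
  | _, _ => false

/-- Multiplicative kernels. -/
def IsMult (G : Ker2) : Prop :=
  ∀ (R C R' C' : Type) [Finite R] [Finite C] [Finite R'] [Finite C'] (π ρ : R → C → Bool)
    (π' ρ' : R' → C' → Bool),
    G (R ⊕ R') (C ⊕ C') (blk π π') (blk ρ ρ') = G R C π ρ * G R' C' π' ρ'

/-- The transposed kernel. -/
def tr (G : Ker2) : Ker2 := fun R C _ _ π ρ => G C R (fun y x => π x y) (fun y x => ρ x y)

lemma IsK2.tr {G : Ker2} (h : IsK2 G) : IsK2 (tr G) where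
  diag := fun R C _ _ π => h.diag _ _ _
  psd := fun R C _ _ => ⟨fun i j => (h.psd C R).herm _ _,
    fun I _ c m => (h.psd C R).psd I c (fun i y x => m i x y)⟩
  ext := fun R C R' C' _ _ _ _ e f he hf π ρ hag =>
    h.ext C R C' R' f e hf he _ _ fun y x hxy => hag x y hxy.symm

lemma IsMult.tr {G : Ker2} (h : IsMult G) : IsMult (tr G) := by
  intro R C R' C' _ _ _ _ π ρ π' ρ'
  unfold Pool.Agent.Work.MP_4523ee_co.tr
  rw [← h]
  congr 1 <;> funext y x <;> cases x <;> cases y <;> rfl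

lemma IsK2.norm_le {G : Ker2} (h : IsK2 G) (R C : Type) [Finite R] [Finite C]
    (π ρ : R → C → Bool) : ‖G R C π ρ‖ ≤ 1 := by
  have := (h.psd R C).cs1 π ρ
  simp only [h.diag, Complex.one_re, mul_one] at this
  nlinarith [norm_nonneg (G R C π ρ)]

lemma IsK2.equiv {G : Ker2} (h : IsK2 G) {R C R' C' : Type} [Finite R] [Finite C] [Finite R']
    [Finite C'] (e : R ≃ R') (f : C ≃ C') (π ρ : R' → C' → Bool) :
    G R' C' π ρ = G R C (fun x y => π (e x) (f y)) (fun x y => ρ (e x) (f y)) :=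
  h.ext R C R' C' e f e.injective f.injective π ρ fun x y hxy => by
    rcases hxy with h1 | h1
    · exact absurd ⟨e.symm x, by simp⟩ h1
    · exact absurd ⟨f.symm y, by simp⟩ h1

/-- Rows `A` against the columns `T` (first pattern) and `T'` (second pattern). -/
def Jt (G : Ker2) (A T T' : Type) [Finite A] [Finite T] [Finite T'] : ℂ :=
  G A (T ⊕ T') (fun _ y => y.isLeft) (fun _ y => y.isRight)

/-- The moments of the operator that adds a far column to `s` rows. -/
def J (G : Ker2) (s p r : ℕ) : ℂ := Jt G (Fin s) (Fin p) (Fin r)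

lemma Jt_eq {G : Ker2} (h : IsK2 G) (A T T' : Type) [Finite A] [Finite T] [Finite T'] :
    Jt G A T T' = J G (Nat.card A) (Nat.card T) (Nat.card T') := by
  unfold J Jt
  rw [h.equiv (Finite.equivFin A).symm
    ((Finite.equivFin T).symm.sumCongr (Finite.equivFin T').symm)]
  congr 1 <;> funext x y <;> cases y <;> rfl

/-- First pattern of the mixed system. -/
def fstP (ε : Bool) {A M M' H T T' : Type} : A ⊕ (M ⊕ M') → H ⊕ (T ⊕ T') → Bool
  | Sum.inl _, Sum.inl _ => ε
  | Sum.inl _, Sum.inr y => y.isLeft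
  | Sum.inr x, Sum.inl _ => x.isLeft
  | Sum.inr _, Sum.inr _ => false

/-- Second pattern of the mixed system. -/
def sndP (ε : Bool) {A M M' H T T' : Type} : A ⊕ (M ⊕ M') → H ⊕ (T ⊕ T') → Bool
  | Sum.inl _, Sum.inl _ => ε
  | Sum.inl _, Sum.inr y => y.isRight
  | Sum.inr x, Sum.inl _ => x.isRight
  | Sum.inr _, Sum.inr _ => false

/-- The mixed system over types. -/
def Gt (G : Ker2) (ε ε' : Bool) (A H T T' M M' : Type) [Finite A] [Finite H] [Finite T]
    [Finite T'] [Finite M] [Finite M'] : ℂ :=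
  G (A ⊕ (M ⊕ M')) (H ⊕ (T ⊕ T')) (fstP ε) (sndP ε')

/-- The mixed system. -/
def Gam (G : Ker2) (s t : ℕ) (ε ε' : Bool) (p r p' r' : ℕ) : ℂ :=
  Gt G ε ε' (Fin s) (Fin t) (Fin p) (Fin r) (Fin p') (Fin r')

lemma Gt_eq {G : Ker2} (h : IsK2 G) (ε ε' : Bool) (A H T T' M M' : Type) [Finite A] [Finite H]
    [Finite T] [Finite T'] [Finite M] [Finite M'] :
    Gt G ε ε' A H T T' M M' = Gam G (Nat.card A) (Nat.card H) ε ε' (Nat.card T) (Nat.card T')
      (Nat.card M) (Nat.card M') := by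
  unfold Gam Gt
  rw [h.equiv ((Finite.equivFin A).symm.sumCongr
      ((Finite.equivFin M).symm.sumCongr (Finite.equivFin M').symm))
    ((Finite.equivFin H).symm.sumCongr
      ((Finite.equivFin T).symm.sumCongr (Finite.equivFin T').symm))]
  congr 1 <;> funext x y <;> rcases x with x | x | x <;> rcases y with y | y | y <;> rfl

lemma Gam_swap {G : Ker2} (h : IsK2 G) (s t : ℕ) (ε ε' : Bool) (p r p' r' : ℕ) :
    Gam G s t ε' ε r p r' p' = conj (Gam G s t ε ε' p r p' r') := by
  unfold Gam Gt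
  rw [← (h.psd _ _).herm, h.equiv ((Equiv.refl (Fin s)).sumCongr (Equiv.sumComm (Fin p') (Fin r')))
    ((Equiv.refl (Fin t)).sumCongr (Equiv.sumComm (Fin p) (Fin r)))]
  congr 1 <;> funext x y <;> rcases x with x | x | x <;> rcases y with y | y | y <;> rfl

lemma Gam_tr (G : Ker2) (s t : ℕ) (ε ε' : Bool) (p r p' r' : ℕ) :
    Gam (tr G) t s ε ε' p' r' p r = Gam G s t ε ε' p r p' r' := by
  unfold Gam Gt tr
  congr 1 <;> funext x y <;> rcases x with x | x | x <;> rcases y with y | y | y <;> rfl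

lemma Gam_same {G : Ker2} (h : IsK2 G) (s t : ℕ) (ε : Bool) (p r : ℕ) :
    Gam G s t ε ε p r 0 0 = J G s p r := by
  unfold Gam Gt J Jt
  rw [h.ext (Fin s) (Fin p ⊕ Fin r) _ _ Sum.inl Sum.inr Sum.inl_injective Sum.inr_injective]
  · rfl
  · rintro (x | x | x) (y | y) hxy
    · rfl
    · simp at hxy
    · exact x.elim0
    · exact x.elim0
    · exact x.elim0
    · exact x.elim0

lemma Gam_tf {G : Ker2} (h : IsK2 G) (s t : ℕ) (p r : ℕ) :
    Gam G s t true false p r 0 0 = J G s (t + p) r := by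
  have := Jt_eq h (Fin s) (Fin t ⊕ Fin p) (Fin r)
  simp only [Nat.card_eq_fintype_card, Fintype.card_sum, Fintype.card_fin] at this
  rw [← this]
  unfold Gam Gt Jt
  rw [h.ext (Fin s) ((Fin t ⊕ Fin p) ⊕ Fin r) _ _ Sum.inl (Equiv.sumAssoc _ _ _)
    Sum.inl_injective (Equiv.injective _)]
  · congr 1 <;> funext x y <;> rcases y with (y | y) | y <;> rfl
  · rintro (x | x | x) y hxy
    · exfalso
      rcases hxy with h1 | h1
      · exact h1 ⟨x, rfl⟩
      · exact h1 ⟨(Equiv.sumAssoc _ _ _).symm y, by simp⟩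
    · exact x.elim0
    · exact x.elim0

lemma Gam_ff {G : Ker2} (h : IsK2 G) (hm : IsMult G) (s t : ℕ) (p r p' r' : ℕ) :
    Gam G s t false false p r p' r' = J G s p r * J (tr G) t p' r' := by
  unfold Gam Gt J Jt tr
  rw [← hm, h.equiv (Equiv.refl _) (Equiv.sumComm (Fin p ⊕ Fin r) (Fin t))]
  congr 1 <;> funext x y <;> rcases x with x | x | x <;> rcases y with (y | y) | y <;> rfl

section slots

variable {Λ : Type} [DecidableEq Λ] {L : ℕ}

/-- Contents of the slots in the replicated pattern. -/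
def slot (P Q : Λ → ℕ) (l : Λ) (w : Λ × Bool × Fin L) : Bool :=
  if w.1 = l then w.2.1 && decide (w.2.2.val < P w.1) else !w.2.1 && decide (w.2.2.val < Q w.1)

/-- The slots on which two replicas differ. -/
def slotEmb (P Q : Λ → ℕ) (hP : ∀ l, P l ≤ L) (hQ : ∀ l, Q l ≤ L) (l m : Λ) :
    (Fin (P l) ⊕ Fin (Q m)) ⊕ (Fin (Q l) ⊕ Fin (P m)) → Λ × Bool × Fin L
  | Sum.inl (Sum.inl i) => (l, true, Fin.castLE (hP l) i)
  | Sum.inl (Sum.inr i) => (m, false, Fin.castLE (hQ m) i)
  | Sum.inr (Sum.inl i) => (l, false, Fin.castLE (hQ l) i)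
  | Sum.inr (Sum.inr i) => (m, true, Fin.castLE (hP m) i)

omit [DecidableEq Λ] in
lemma slotEmb_inj (P Q : Λ → ℕ) (hP : ∀ l, P l ≤ L) (hQ : ∀ l, Q l ≤ L) (l m : Λ) (hlm : l ≠ m) :
    Function.Injective (slotEmb P Q hP hQ l m) := by
  rintro ((x | x) | (x | x)) ((y | y) | (y | y)) h <;>
    simp [slotEmb, hlm, hlm.symm, Fin.ext_iff] at h ⊢ <;> exact h

lemma slot_left (P Q : Λ → ℕ) (hP : ∀ l, P l ≤ L) (hQ : ∀ l, Q l ≤ L) (l m : Λ) (hlm : l ≠ m)
    (z) : slot P Q l (slotEmb P Q hP hQ l m z) = z.isLeft := by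
  rcases z with (x | x) | (x | x) <;> simp [slot, slotEmb, hlm.symm]

lemma slot_right (P Q : Λ → ℕ) (hP : ∀ l, P l ≤ L) (hQ : ∀ l, Q l ≤ L) (l m : Λ) (hlm : l ≠ m)
    (z) : slot P Q m (slotEmb P Q hP hQ l m z) = z.isRight := by
  rcases z with (x | x) | (x | x) <;> simp [slot, slotEmb, hlm]

lemma slot_out (P Q : Λ → ℕ) (hP : ∀ l, P l ≤ L) (hQ : ∀ l, Q l ≤ L) (l m : Λ) (hlm : l ≠ m)
    (w : Λ × Bool × Fin L) (hw : w ∉ Set.range (slotEmb P Q hP hQ l m)) :
    slot P Q l w = slot P Q m w := by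
  obtain ⟨n, b, i⟩ := w
  by_cases h1 : n = l
  · subst h1
    cases b
    · have : ¬ i.val < Q n := fun h => hw ⟨Sum.inr (Sum.inl ⟨i, h⟩), rfl⟩
      simp [slot, hlm, this]
    · have : ¬ i.val < P n := fun h => hw ⟨Sum.inl (Sum.inl ⟨i, h⟩), rfl⟩
      simp [slot, hlm, this]
  · by_cases h2 : n = m
    · subst h2
      cases b
      · have : ¬ i.val < Q n := fun h => hw ⟨Sum.inl (Sum.inr ⟨i, h⟩), rfl⟩
        simp [slot, h1, this]
      · have : ¬ i.val < P n := fun h => hw ⟨Sum.inr (Sum.inr ⟨i, h⟩), rfl⟩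
        simp [slot, h1, this]
    · simp [slot, h1, h2]

end slots

/-- Monomials in the far operations applied to one of the two vectors. -/
structure Mon where
  ε : Bool
  p : ℕ
  r : ℕ
  p' : ℕ
  r' : ℕ

/-- The Gram kernel of the monomials. -/
def gm (G : Ker2) (s t : ℕ) (a b : Mon) : ℂ :=
  Gam G s t a.ε b.ε (a.p + b.r) (a.r + b.p) (a.p' + b.r') (a.r' + b.p')

lemma Gam_norm_le {G : Ker2} (h : IsK2 G) (s t : ℕ) (ε ε' : Bool) (p r p' r' : ℕ) :
    ‖Gam G s t ε ε' p r p' r'‖ ≤ 1 := h.norm_le _ _ _ _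

theorem gm_psd {G : Ker2} (h : IsK2 G) (s t : ℕ) : PSDK (gm G s t) where
  herm := fun a b => by
    unfold gm
    rw [← Gam_swap h, add_comm b.p, add_comm b.r, add_comm b.p', add_comm b.r']
  psd := by
    classical
    intro I _ c m
    obtain ⟨L, hL⟩ : ∃ L, ∀ i, (m i).p ≤ L ∧ (m i).r ≤ L ∧ (m i).p' ≤ L ∧ (m i).r' ≤ L := by
      refine ⟨∑ i, ((m i).p + (m i).r + (m i).p' + (m i).r'), fun i => ?_⟩
      have := single_le_sum (f := fun i => (m i).p + (m i).r + (m i).p' + (m i).r')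
        (fun _ _ => Nat.zero_le _) (mem_univ i)
      omega
    set Q := ∑ i, ∑ j, c i * conj (c j) * gm G s t (m i) (m j) with hQ
    set D := ∑ i, c i * conj (c i) * (1 - gm G s t (m i) (m i)) with hD
    have key : ∀ k : ℕ, 0 < k → 0 ≤ Q.re + D.re / k := by
      intro k hk
      let Y : I × Fin k → Fin s ⊕ ((I × Fin k) × Bool × Fin L) →
          Fin t ⊕ ((I × Fin k) × Bool × Fin L) → Bool := fun l x y =>
        match x, y with
        | Sum.inl _, Sum.inl _ => (m l.1).ε
        | Sum.inl _, Sum.inr w => slot (fun l => (m l.1).p) (fun l => (m l.1).r) l w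
        | Sum.inr w, Sum.inl _ => slot (fun l => (m l.1).p') (fun l => (m l.1).r') l w
        | Sum.inr _, Sum.inr _ => false
      have hY : ∀ l l', G _ _ (Y l) (Y l') =
          gm G s t (m l.1) (m l'.1) + if l' = l then 1 - gm G s t (m l.1) (m l.1) else 0 := by
        intro l l'
        by_cases hl : l' = l
        · subst hl; rw [h.diag, if_pos rfl]; ring
        · rw [if_neg hl, add_zero]
          have hl' : l ≠ l' := Ne.symm hl
          have e1 := Gt_eq h (m l.1).ε (m l'.1).ε (Fin s) (Fin t)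
            (Fin (m l.1).p ⊕ Fin (m l'.1).r) (Fin (m l.1).r ⊕ Fin (m l'.1).p)
            (Fin (m l.1).p' ⊕ Fin (m l'.1).r') (Fin (m l.1).r' ⊕ Fin (m l'.1).p')
          simp only [Nat.card_eq_fintype_card, Fintype.card_sum, Fintype.card_fin] at e1
          unfold gm
          rw [← e1]
          unfold Gt
          rw [h.ext _ _ _ _
            (Sum.map id (slotEmb (fun l : I × Fin k => (m l.1).p') (fun l => (m l.1).r')
              (fun l => (hL l.1).2.2.1) (fun l => (hL l.1).2.2.2) l l'))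
            (Sum.map id (slotEmb (fun l : I × Fin k => (m l.1).p) (fun l => (m l.1).r)
              (fun l => (hL l.1).1) (fun l => (hL l.1).2.1) l l'))
            (Function.injective_id.sumMap (slotEmb_inj _ _ _ _ _ _ hl'))
            (Function.injective_id.sumMap (slotEmb_inj _ _ _ _ _ _ hl'))]
          · congr 1
            · funext x y
              rcases x with x | x <;> rcases y with y | y
              · rfl
              · exact slot_left (fun l : I × Fin k => (m l.1).p) (fun l => (m l.1).r)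
                  (fun l => (hL l.1).1) (fun l => (hL l.1).2.1) _ _ hl' y
              · exact slot_left (fun l : I × Fin k => (m l.1).p') (fun l => (m l.1).r')
                  (fun l => (hL l.1).2.2.1) (fun l => (hL l.1).2.2.2) _ _ hl' x
              · rfl
            · funext x y
              rcases x with x | x <;> rcases y with y | y
              · rfl
              · exact slot_right (fun l : I × Fin k => (m l.1).p) (fun l => (m l.1).r)
                  (fun l => (hL l.1).1) (fun l => (hL l.1).2.1) _ _ hl' y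
              · exact slot_right (fun l : I × Fin k => (m l.1).p') (fun l => (m l.1).r')
                  (fun l => (hL l.1).2.2.1) (fun l => (hL l.1).2.2.2) _ _ hl' x
              · rfl
          · rintro (x | x) (y | y) hxy
            · exfalso
              rcases hxy with h1 | h1
              · exact h1 ⟨Sum.inl x, rfl⟩
              · exact h1 ⟨Sum.inl y, rfl⟩
            · rcases hxy with h1 | h1
              · exact absurd ⟨Sum.inl x, rfl⟩ h1
              · exact slot_out (fun l : I × Fin k => (m l.1).p) (fun l => (m l.1).r)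
                  (fun l => (hL l.1).1) (fun l => (hL l.1).2.1) _ _ hl' y fun ⟨z, hz⟩ => h1 ⟨Sum.inr z, by simp [hz]⟩
            · rcases hxy with h1 | h1
              · exact slot_out (fun l : I × Fin k => (m l.1).p') (fun l => (m l.1).r')
                  (fun l => (hL l.1).2.2.1) (fun l => (hL l.1).2.2.2) _ _ hl' x fun ⟨z, hz⟩ => h1 ⟨Sum.inr z, by simp [hz]⟩
              · exact absurd ⟨Sum.inl y, rfl⟩ h1
            · rfl
      have := (h.psd _ _).psd (I × Fin k) (fun l => c l.1) Y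
      simp only [hY, mul_add, sum_add_distrib, mul_ite, mul_zero, sum_ite_eq', mem_univ,
        if_true] at this
      simp only [Fintype.sum_prod_type, sum_const, card_univ, Fintype.card_fin, nsmul_eq_mul,
        ← mul_sum] at this
      rw [← hQ, ← hD] at this
      have hk' : (0 : ℝ) < k := by exact_mod_cast hk
      simp only [Complex.add_re, Complex.mul_re, Complex.natCast_re, Complex.natCast_im,
        zero_mul, sub_zero] at this
      have e : Q.re + D.re / k = (k * (k * Q.re) + k * D.re) / (k * k) := by field_simp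
      rw [e]; positivity
    have t0 : Tendsto (fun k : ℕ => Q.re + D.re / k) atTop (𝓝 (Q.re + 0)) :=
      tendsto_const_nhds.add (tendsto_natCast_atTop_atTop.const_div_atTop _)
    rw [add_zero] at t0
    exact ge_of_tendsto t0 ((eventually_gt_atTop 0).mono key)

end Pool.Agent.Work.MP_4523ee_co
end

-- merged part: Pool.Agent.Work.MP_4523ee_co.Struct
section
/-!
Moments of a normal contraction, its unitary part, and the exchange identity.
-/

set_option autoImplicit false
set_option linter.unusedVariables false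

open Finset Filter Topology
open scoped BigOperators ComplexConjugate

namespace Pool.Agent.Work.MP_4523ee_co

/-- Moment functions of a normal contraction at a unit vector. -/
structure Mom (j : ℕ → ℕ → ℂ) : Prop where
  psd : PSDK (fun a b : ℕ × ℕ => j (a.1 + b.2) (a.2 + b.1))
  bd : ∀ p r, ‖j p r‖ ≤ 1
  one : j 0 0 = 1

/-- Diagonal moments. -/
def nn (j : ℕ → ℕ → ℂ) (t : ℕ) : ℝ := (j t t).re

/-- Mass of the unitary part. -/
noncomputable def th (j : ℕ → ℕ → ℂ) : ℝ := ⨅ t, nn j t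

/-- Moments on the unitary part. -/
noncomputable def be (j : ℕ → ℕ → ℂ) (t : ℕ) : ℂ := limUnder atTop fun n => j (t + n) n

namespace Mom

variable {j : ℕ → ℕ → ℂ} (h : Mom j)
include h

lemma conj_eq (p r : ℕ) : j r p = conj (j p r) := by
  simpa using h.psd.herm (p, r) (0, 0)

lemma diag (t : ℕ) : j t t = nn j t := by
  have := h.psd.diag_im (t, 0)
  simp only [add_zero, zero_add] at this
  exact Complex.ext rfl (by simpa using this)

lemma nn_nonneg (t : ℕ) : 0 ≤ nn j t := by
  simpa [nn] using h.psd.diag_nonneg (t, 0)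

lemma nn_le_one (t : ℕ) : nn j t ≤ 1 := (Complex.re_le_norm _).trans (h.bd t t)

lemma logconv (t : ℕ) : nn j (t + 1) ^ 2 ≤ nn j (t + 2) * nn j t := by
  have := h.psd.cs1 (t + 1, 1) (t, 0)
  simp only [add_zero, zero_add] at this
  rw [add_comm 1 t, h.diag, add_comm 1 (t + 1)] at this
  simpa [nn, add_assoc] using this

lemma anti : Antitone (nn j) := by
  apply antitone_nat_of_succ_le
  intro t
  by_contra hc
  push Not at hc
  have h0 : 0 < nn j t := by
    rcases (h.nn_nonneg t).lt_or_eq with h1 | h1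
    · exact h1
    · have := h.logconv t
      rw [← h1] at this hc
      linarith only [this, hc, mul_pos_of_neg_of_neg (Mathlib.Tactic.Linarith.sub_neg_of_lt hc) (Mathlib.Tactic.Linarith.sub_neg_of_lt hc)]
  set ρ := nn j (t + 1) / nn j t with hρ
  have hρ1 : 1 < ρ := by rw [hρ, lt_div_iff₀ h0]; linarith
  have step : ∀ k, 0 < nn j (t + k) ∧ ρ * nn j (t + k) ≤ nn j (t + k + 1) := by
    intro k
    induction k with
    | zero => exact ⟨h0, by rw [hρ, add_zero, div_mul_cancel₀ _ h0.ne']⟩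
    | succ k ih =>
      have a1 : 0 < nn j (t + k + 1) := lt_of_lt_of_le (by linarith only [ih, hρ1, ih.1, mul_pos_of_neg_of_neg (Mathlib.Tactic.Linarith.sub_neg_of_lt hρ1) (Mathlib.Tactic.Linarith.sub_neg_of_lt ih.left)]) ih.2
      refine ⟨a1, ?_⟩
      have a2 := h.logconv (t + k)
      have a3 : ρ * nn j (t + k + 1) * nn j (t + k) ≤ nn j (t + k + 2) * nn j (t + k) := by
        linarith only [a2, ih, a1, ih.2, mul_nonneg_of_nonpos_of_nonpos (Mathlib.Tactic.Linarith.sub_nonpos_of_le ih.right) (le_of_lt (Mathlib.Tactic.Linarith.sub_neg_of_lt a1))]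
      exact le_of_mul_le_mul_right a3 ih.1
  have grow : ∀ k, ρ ^ k * nn j t ≤ nn j (t + k) := by
    intro k
    induction k with
    | zero => simp
    | succ k ih =>
      have := (step k).2
      rw [pow_succ, ← add_assoc]
      linarith only [ih, this, hρ1, mul_nonneg_of_nonpos_of_nonpos (le_of_lt (Mathlib.Tactic.Linarith.sub_neg_of_lt hρ1)) (Mathlib.Tactic.Linarith.sub_nonpos_of_le ih)]
  obtain ⟨k, hk⟩ := pow_unbounded_of_one_lt (1 / nn j t) hρ1
  rw [div_lt_iff₀ h0] at hk
  linarith [grow k, h.nn_le_one (t + k)]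

lemma bdd : BddBelow (Set.range (nn j)) := ⟨0, by rintro _ ⟨t, rfl⟩; exact h.nn_nonneg t⟩

lemma tendsto_nn : Tendsto (nn j) atTop (𝓝 (th j)) := tendsto_atTop_ciInf h.anti h.bdd

lemma th_le (t : ℕ) : th j ≤ nn j t := ciInf_le h.bdd t

lemma th_nonneg : 0 ≤ th j := le_ciInf h.nn_nonneg

lemma th_le_one : th j ≤ 1 := (h.th_le 0).trans (h.nn_le_one 0)

lemma tendsto_nn' (f : ℕ → ℕ) (hf : ∀ n, n ≤ f n) :
    Tendsto (fun n => nn j (f n)) atTop (𝓝 (th j)) :=
  h.tendsto_nn.comp (tendsto_atTop_mono hf tendsto_id)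

lemma diff_le (t n n' : ℕ) : ‖j (t + n) n - j (t + n') n'‖ ^ 2 ≤
    nn j (t + n + n) - 2 * nn j (t + n + n') + nn j (t + n' + n') := by
  have := h.psd.cs2 (t + n, n) (t + n', n') (0, 0) 1
  simp only [add_zero, one_mul, map_one, norm_one, one_pow, h.one, Complex.one_re,
    mul_one] at this
  rw [add_comm n (t + n), add_comm n' (t + n'), show n + (t + n') = t + n + n' by ring] at this
  exact this

lemma tendsto_be (t : ℕ) : Tendsto (fun n => j (t + n) n) atTop (𝓝 (be j t)) := by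
  apply tendsto_nhds_limUnder
  apply cauchySeq_tendsto_of_complete
  refine cauchySeq_of_le_tendsto_0 (fun N => √(2 * (nn j N - th j))) (fun n n' N hn hn' => ?_) ?_
  · rw [dist_eq_norm]
    apply Real.le_sqrt_of_sq_le
    refine (h.diff_le t n n').trans ?_
    have a1 : nn j (t + n + n) ≤ nn j N := h.anti (by omega)
    have a2 : nn j (t + n' + n') ≤ nn j N := h.anti (by omega)
    have a3 := h.th_le (t + n + n')
    linarith only [a1, a2, a3]
  · have := ((h.tendsto_nn.sub_const (th j)).const_mul 2).sqrt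
    simpa using this

lemma tendsto_be' (t : ℕ) (f : ℕ → ℕ) (hf : ∀ n, n ≤ f n) :
    Tendsto (fun n => j (t + f n) (f n)) atTop (𝓝 (be j t)) :=
  (h.tendsto_be t).comp (tendsto_atTop_mono hf tendsto_id)

lemma be_zero : be j 0 = th j := by
  refine tendsto_nhds_unique (h.tendsto_be 0) ?_
  simp only [zero_add, h.diag]
  exact (Complex.continuous_ofReal.tendsto _).comp h.tendsto_nn

lemma gap (t : ℕ) : ‖j t 0 - be j t‖ ^ 2 ≤ nn j t - th j := by
  have t1 : Tendsto (fun n' => ‖j t 0 - j (t + n') n'‖ ^ 2) atTop (𝓝 (‖j t 0 - be j t‖ ^ 2)) :=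
    ((tendsto_const_nhds.sub (h.tendsto_be t)).norm).pow 2
  have t2 : Tendsto (fun n' => nn j t - 2 * nn j (t + n') + nn j (t + n' + n')) atTop
      (𝓝 (nn j t - 2 * th j + th j)) :=
    (tendsto_const_nhds.sub ((h.tendsto_nn' _ (fun n => by omega)).const_mul 2)).add
      (h.tendsto_nn' _ (fun n => by omega))
  have := le_of_tendsto_of_tendsto' t1 t2 fun n' => by simpa using h.diff_le t 0 n'
  linarith

lemma be_le (t : ℕ) : ‖be j t‖ ≤ th j := by
  have t1 : Tendsto (fun n => ‖j (t + (n + n)) (n + n)‖ ^ 2) atTop (𝓝 (‖be j t‖ ^ 2)) :=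
    ((h.tendsto_be' t (fun n => n + n) (fun n => by omega)).norm).pow 2
  have t2 : Tendsto (fun n => nn j (t + n + n) * nn j (n + n)) atTop (𝓝 (th j * th j)) :=
    (h.tendsto_nn' _ (fun n => by omega)).mul (h.tendsto_nn' _ (fun n => by omega))
  have := le_of_tendsto_of_tendsto' t1 t2 fun n => by
    have := h.psd.cs1 (t + n, n) (n, n)
    simp only at this
    rw [add_comm n (t + n), add_assoc t n n] at this
    rw [add_assoc t n n]
    exact this
  exact abs_le_of_sq_le_sq' (by linarith only [this]) h.th_nonneg |>.2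

lemma be_add (t t₂ : ℕ) (κ : ℂ) (hκ : ‖κ‖ = 1) (hb : be j t = κ * th j) :
    be j (t + t₂) = κ * be j t₂ := by
  have t1 : Tendsto (fun n => ‖j (t + t₂ + n) n - κ * j (t₂ + n) n‖ ^ 2) atTop
      (𝓝 (‖be j (t + t₂) - κ * be j t₂‖ ^ 2)) :=
    (((h.tendsto_be (t + t₂)).sub ((h.tendsto_be t₂).const_mul κ)).norm).pow 2
  have t2 : Tendsto (fun n => (nn j (t + n + n) - 2 * (conj κ * j (t + (n + n)) (n + n)).re +
      nn j (n + n)) * nn j t₂) atTop (𝓝 ((th j - 2 * (conj κ * be j t).re + th j) * nn j t₂)) :=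
    (((h.tendsto_nn' _ (fun n => by omega)).sub (((Complex.continuous_re.tendsto _).comp
      ((h.tendsto_be' t (fun n => n + n) (fun n => by omega)).const_mul _)).const_mul 2)).add
      (h.tendsto_nn' _ (fun n => by omega))).mul_const _
  have := le_of_tendsto_of_tendsto' t1 t2 fun n => by
    have := h.psd.cs2 (t + n, n) (n, n) (0, t₂) κ
    simp only [add_zero, zero_add, hκ, one_pow, one_mul] at this
    rw [add_comm n (t + n), add_assoc t n n, show t + n + t₂ = t + t₂ + n by ring,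
      add_comm n t₂] at this
    rw [add_assoc t n n]
    exact this
  have e : (conj κ * be j t).re = th j := by
    rw [hb, ← mul_assoc, mul_comm (conj κ), Complex.mul_conj, Complex.normSq_eq_norm_sq, hκ]
    simp
  rw [e] at this
  have h0 : ‖be j (t + t₂) - κ * be j t₂‖ ^ 2 ≤ 0 := by
    have e0 : (th j - 2 * th j + th j) * nn j t₂ = 0 := by ring
    rw [e0] at this; exact this
  have : ‖be j (t + t₂) - κ * be j t₂‖ = 0 := by
    nlinarith [norm_nonneg (be j (t + t₂) - κ * be j t₂)]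
  exact sub_eq_zero.1 (norm_eq_zero.1 this)

lemma be_mul (t : ℕ) (κ : ℂ) (hκ : ‖κ‖ = 1) (hb : be j t = κ * th j) (m : ℕ) :
    be j (m * t) = κ ^ m * th j := by
  induction m with
  | zero => simp [h.be_zero]
  | succ m ih => rw [add_mul, one_mul, add_comm, h.be_add t _ κ hκ hb, ih]; ring

end Mom

lemma mom_J {G : Ker2} (h : IsK2 G) (s : ℕ) : Mom (J G s) where
  psd := by
    have hp := gm_psd h s 0
    have e : (fun a b : ℕ × ℕ => J G s (a.1 + b.2) (a.2 + b.1)) = fun a b =>
        gm G s 0 ⟨false, a.1, a.2, 0, 0⟩ ⟨false, b.1, b.2, 0, 0⟩ := by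
      funext a b
      simp only [gm, add_zero, Gam_same h]
    rw [e]
    exact ⟨fun a b => hp.herm _ _, fun I _ c m => hp.psd I c _⟩
  bd := fun p r => h.norm_le _ _ _ _
  one := by
    unfold J Jt
    have : (fun (_ : Fin s) (y : Fin 0 ⊕ Fin 0) => y.isLeft) = fun _ y => y.isRight := by
      funext x y; rcases y with y | y <;> exact y.elim0
    rw [this, h.diag]

lemma gm_diag_le {G : Ker2} (h : IsK2 G) (s t : ℕ) (k : Mon) : (gm G s t k k).re ≤ 1 :=
  (Complex.re_le_norm _).trans (Gam_norm_le h _ _ _ _ _ _ _ _)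

lemma approx_col {G : Ker2} (h : IsK2 G) (s t n : ℕ) (k : Mon) :
    ‖gm G s t ⟨true, n, n, 0, 0⟩ k - gm G s t ⟨false, t + n, n, 0, 0⟩ k‖ ≤
      √(nn (J G s) n - th (J G s)) := by
  apply Real.le_sqrt_of_sq_le
  have := (gm_psd h s t).cs2 ⟨true, n, n, 0, 0⟩ ⟨false, t + n, n, 0, 0⟩ k 1
  simp only [one_mul, map_one, norm_one, one_pow] at this
  refine this.trans ?_
  have hm := mom_J h s
  have e1 : (gm G s t ⟨true, n, n, 0, 0⟩ ⟨true, n, n, 0, 0⟩).re = nn (J G s) (n + n) := by
    simp only [gm, add_zero, Gam_same h, nn]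
  have e2 : (gm G s t ⟨true, n, n, 0, 0⟩ ⟨false, t + n, n, 0, 0⟩).re = nn (J G s) (t + (n + n)) := by
    simp only [gm, add_zero, Gam_tf h, nn]
    rw [show n + (t + n) = t + (n + n) by ring]
  have e3 : (gm G s t ⟨false, t + n, n, 0, 0⟩ ⟨false, t + n, n, 0, 0⟩).re =
      nn (J G s) (t + (n + n)) := by
    simp only [gm, add_zero, Gam_same h, nn]
    rw [show n + (t + n) = t + (n + n) by ring, add_assoc]
  rw [e1, e2, e3]
  have a1 : nn (J G s) (n + n) ≤ nn (J G s) n := hm.anti (by omega)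
  have a2 := hm.th_le (t + (n + n))
  have a3 : nn (J G s) (t + (n + n)) ≤ nn (J G s) (n + n) := hm.anti (by omega)
  have a4 := gm_diag_le h s t k
  have a5 := (gm_psd h s t).diag_nonneg k
  linarith only [a1, a2, a3, a4, mul_nonneg_of_nonpos_of_nonpos (Mathlib.Tactic.Linarith.sub_nonpos_of_le a3) (Mathlib.Tactic.Linarith.sub_nonpos_of_le a4)]

lemma gm_tr (G : Ker2) (s t : ℕ) (a b : Mon) :
    gm (tr G) t s ⟨a.ε, a.p', a.r', a.p, a.r⟩ ⟨b.ε, b.p', b.r', b.p, b.r⟩ = gm G s t a b := by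
  simp only [gm, Gam_tr]

lemma approx_row {G : Ker2} (h : IsK2 G) (s t n : ℕ) (k : Mon) :
    ‖gm G s t ⟨true, 0, 0, n, n⟩ k - gm G s t ⟨false, 0, 0, s + n, n⟩ k‖ ≤
      √(nn (J (tr G) t) n - th (J (tr G) t)) := by
  rw [← gm_tr G s t ⟨true, 0, 0, n, n⟩ k, ← gm_tr G s t ⟨false, 0, 0, s + n, n⟩ k]
  exact approx_col h.tr t s n _

/-- The exchange identity. -/
theorem exchange {G : Ker2} (h : IsK2 G) (hm : IsMult G) (s t : ℕ) :
    be (J G s) t * conj (be (J (tr G) t) s) = th (J G s) * th (J (tr G) t) := by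
  have m1 := mom_J h s
  have m2 := mom_J h.tr t
  have hp := gm_psd h s t
  set e1 : ℕ → ℝ := fun n => √(nn (J G s) n - th (J G s)) with he1
  set e2 : ℕ → ℝ := fun n => √(nn (J (tr G) t) n - th (J (tr G) t)) with he2
  have te1 : Tendsto e1 atTop (𝓝 0) := by
    simpa using (m1.tendsto_nn.sub_const (th (J G s))).sqrt
  have te2 : Tendsto e2 atTop (𝓝 0) := by
    simpa using (m2.tendsto_nn.sub_const (th (J (tr G) t))).sqrt
  have t1 : Tendsto (fun n => J G s (t + (n + n)) (n + n) * conj (J (tr G) t (s + n) n)) atTop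
      (𝓝 (be (J G s) t * conj (be (J (tr G) t) s))) :=
    (m1.tendsto_be' t (fun n => n + n) (fun n => by omega)).mul
      ((Complex.continuous_conj.tendsto _).comp (m2.tendsto_be s))
  have t2 : Tendsto (fun n => ((nn (J G s) (t + (n + n)) * nn (J (tr G) t) n : ℝ) : ℂ)) atTop
      (𝓝 ((th (J G s) * th (J (tr G) t) : ℝ) : ℂ)) :=
    (Complex.continuous_ofReal.tendsto _).comp
      ((m1.tendsto_nn' _ (fun n => by omega)).mul m2.tendsto_nn)
  have t3 : Tendsto (fun n => e1 (n + n) + e2 n + e1 n + e1 n) atTop (𝓝 0) := by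
    have : Tendsto (fun n => e1 (n + n)) atTop (𝓝 0) :=
      te1.comp (tendsto_atTop_mono (fun n => by simp) tendsto_id)
    simpa using ((this.add te2).add te1).add te1
  have t4 : Tendsto (fun n => J G s (t + (n + n)) (n + n) * conj (J (tr G) t (s + n) n) -
      ((nn (J G s) (t + (n + n)) * nn (J (tr G) t) n : ℝ) : ℂ)) atTop (𝓝 0) := by
    refine squeeze_zero_norm (fun n => ?_) t3
    have a1 := approx_col h s t (n + n) ⟨false, 0, 0, s + n, n⟩
    have a2 := approx_row h s t n ⟨true, n + n, n + n, 0, 0⟩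
    have a3 := approx_col h s t n ⟨true, n, n, n, n⟩
    have a4 := approx_col h s t n ⟨false, t + n, n, n, n⟩
    rw [hp.herm ⟨true, n + n, n + n, 0, 0⟩, hp.herm ⟨true, n + n, n + n, 0, 0⟩, ← map_sub,
      Complex.norm_conj] at a2
    rw [← Complex.norm_conj, map_sub] at a4
    have b1 : gm G s t ⟨false, t + (n + n), n + n, 0, 0⟩ ⟨false, 0, 0, s + n, n⟩ =
        J G s (t + (n + n)) (n + n) * conj (J (tr G) t (s + n) n) := by
      simp only [gm, add_zero, zero_add, Gam_ff h hm]
      rw [m2.conj_eq (s + n) n]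
    have b2 : gm G s t ⟨true, n + n, n + n, 0, 0⟩ ⟨true, 0, 0, n, n⟩ =
        gm G s t ⟨true, n, n, 0, 0⟩ ⟨true, n, n, n, n⟩ := by
      simp only [gm, add_zero, zero_add]
    have b3 : gm G s t ⟨false, t + n, n, 0, 0⟩ ⟨true, n, n, n, n⟩ =
        conj (gm G s t ⟨true, n, n, 0, 0⟩ ⟨false, t + n, n, n, n⟩) := by
      simp only [gm, zero_add]
      rw [← Gam_swap h, show n + (t + n) = t + n + n by ring]
    have b4 : conj (gm G s t ⟨false, t + n, n, 0, 0⟩ ⟨false, t + n, n, n, n⟩) =
        ((nn (J G s) (t + (n + n)) * nn (J (tr G) t) n : ℝ) : ℂ) := by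
      simp only [gm, zero_add, Gam_ff h hm]
      rw [show n + (t + n) = t + (n + n) by ring, add_assoc, m1.diag, m2.diag, ← Complex.ofReal_mul,
        Complex.conj_ofReal]
    rw [b1] at a1
    rw [b2] at a2
    rw [b3] at a3
    rw [b4] at a4
    set x1 := J G s (t + (n + n)) (n + n) * conj (J (tr G) t (s + n) n)
    set x2 := gm G s t ⟨true, n + n, n + n, 0, 0⟩ ⟨false, 0, 0, s + n, n⟩
    set x3 := gm G s t ⟨true, n, n, 0, 0⟩ ⟨true, n, n, n, n⟩
    set x4 := conj (gm G s t ⟨true, n, n, 0, 0⟩ ⟨false, t + n, n, n, n⟩)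
    set x5 := ((nn (J G s) (t + (n + n)) * nn (J (tr G) t) n : ℝ) : ℂ)
    have : x1 - x5 = -(x2 - x1) + -(x3 - x2) + (x3 - x4) + (x4 - x5) := by ring
    rw [this]
    refine (norm_add_le _ _).trans (add_le_add ((norm_add_le _ _).trans (add_le_add
      ((norm_add_le _ _).trans (add_le_add ?_ ?_)) a3)) a4)
    · rw [norm_neg]; exact a1
    · rw [norm_neg]; exact a2
  have := tendsto_nhds_unique (t1.sub t2) t4
  push_cast at this
  exact sub_eq_zero.1 this

end Pool.Agent.Work.MP_4523ee_co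
end

-- merged part: Pool.Agent.Work.MP_4523ee_co.Avg
section
/-!
Fejer-type averages, the gap lemma and a van der Corput estimate.
-/

set_option autoImplicit false
set_option linter.unusedVariables false

open Finset Filter Topology
open scoped BigOperators ComplexConjugate

namespace Pool.Agent.Work.MP_4523ee_co

section psi

variable {E : Type} [NormedAddCommGroup E] [NormedSpace ℝ E]

/-- Fejer-type average of `g 1, g 2, ...`. -/
noncomputable def Psi (g : ℕ → E) (S : ℕ) : E :=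
  ((2 : ℝ) / (S : ℝ) ^ 2) • ∑ i ∈ range S, ∑ j ∈ range i, g (j + 1)

lemma Psi_add (g g' : ℕ → E) (S : ℕ) : Psi (fun j => g j + g' j) S = Psi g S + Psi g' S := by
  simp [Psi, sum_add_distrib]

lemma Psi_sub (g g' : ℕ → E) (S : ℕ) : Psi (fun j => g j - g' j) S = Psi g S - Psi g' S := by
  simp [Psi, sum_sub_distrib, smul_sub]

lemma Psi_smul (c : ℝ) (g : ℕ → E) (S : ℕ) : Psi (fun j => c • g j) S = c • Psi g S := by
  simp only [Psi, ← smul_sum]; rw [smul_comm]

lemma Psi_sum {ι : Type} (s : Finset ι) (g : ι → ℕ → E) (S : ℕ) :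
    Psi (fun j => ∑ l ∈ s, g l j) S = ∑ l ∈ s, Psi (g l) S := by
  classical
  induction s using Finset.induction_on with
  | empty => simp [Psi]
  | insert a s ha ih => simp only [sum_insert ha, Psi_add, ih]

lemma norm_Psi_le (g : ℕ → E) (S : ℕ) : ‖Psi g S‖ ≤ Psi (fun j => ‖g j‖) S := by
  unfold Psi
  rw [norm_smul, Real.norm_of_nonneg (by positivity), smul_eq_mul]
  refine mul_le_mul_of_nonneg_left ?_ (by positivity)
  exact (norm_sum_le _ _).trans (sum_le_sum fun i _ => norm_sum_le _ _)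

lemma Psi_shift_one (g : ℕ → E) (C : ℝ) (hC : ∀ j, ‖g j‖ ≤ C) (S : ℕ) :
    ‖Psi (fun j => g (j + 1)) S - Psi g S‖ ≤ 4 * C / S := by
  rw [← Psi_sub]
  unfold Psi
  have e : ∀ i, ∑ j ∈ range i, (g (j + 1 + 1) - g (j + 1)) = g (i + 1) - g (0 + 1) :=
    fun i => sum_range_sub (fun j => g (j + 1)) i
  simp only [e]
  rw [norm_smul, Real.norm_of_nonneg (by positivity)]
  rcases Nat.eq_zero_or_pos S with rfl | hS
  · simp
  · have hS' : (0 : ℝ) < S := by exact_mod_cast hS
    have : ‖∑ i ∈ range S, (g (i + 1) - g (0 + 1))‖ ≤ S * (2 * C) := by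
      refine (norm_sum_le _ _).trans ((sum_le_sum fun i _ => (norm_sub_le _ _).trans
        (add_le_add (hC _) (hC _))).trans (le_of_eq ?_))
      simp; ring
    calc _ ≤ 2 / (S : ℝ) ^ 2 * (S * (2 * C)) := by gcongr
      _ = _ := by field_simp; ring

lemma Psi_shift (g : ℕ → E) (C : ℝ) (hC : ∀ j, ‖g j‖ ≤ C) (a : ℕ) :
    Tendsto (fun S => Psi (fun j => g (j + a)) S - Psi g S) atTop (𝓝 0) := by
  induction a with
  | zero => simp
  | succ a ih =>
    have t1 : Tendsto (fun S => Psi (fun j => g (j + 1 + a)) S - Psi (fun j => g (j + a)) S)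
        atTop (𝓝 0) :=
      squeeze_zero_norm (fun S => Psi_shift_one (fun j => g (j + a)) C (fun j => hC _) S)
        (tendsto_natCast_atTop_atTop.const_div_atTop _)
    have := t1.add ih
    simp only [add_zero, sub_add_sub_cancel] at this
    simpa only [add_assoc, add_comm 1 a] using this

end psi

lemma Psi_mono (g g' : ℕ → ℝ) (h : ∀ j, g (j + 1) ≤ g' (j + 1)) (S : ℕ) : Psi g S ≤ Psi g' S := by
  unfold Psi
  simp only [smul_eq_mul]
  exact mul_le_mul_of_nonneg_left (sum_le_sum fun i _ => sum_le_sum fun j _ => h j)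
    (by positivity)

lemma two_sum_range (H : ℕ) : 2 * ∑ i ∈ range H, (i : ℝ) = H * (H - 1) := by
  induction H with
  | zero => simp
  | succ H ih2 => rw [sum_range_succ, mul_add, ih2]; push_cast; ring

lemma Psi_const (c : ℝ) (S : ℕ) (hS : 0 < S) : Psi (fun _ => c) S = c * (1 - 1 / S) := by
  have hS' : (0 : ℝ) < S := by exact_mod_cast hS
  simp only [Psi, sum_const, card_range, nsmul_eq_mul, smul_eq_mul, ← sum_mul]
  have := two_sum_range S
  have e : ∑ i ∈ range S, (i : ℝ) = S * (S - 1) / 2 := by linarith only [this]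
  rw [e]; field_simp

lemma Psi_const_le (c : ℝ) (hc : 0 ≤ c) (S : ℕ) : Psi (fun _ => c) S ≤ c := by
  rcases Nat.eq_zero_or_pos S with rfl | hS
  · simp [Psi, hc]
  · rw [Psi_const c S hS]
    have : (0 : ℝ) ≤ 1 / S := by positivity
    linarith only [hc, this, mul_nonneg_of_nonpos_of_nonpos (Mathlib.Tactic.Linarith.sub_nonpos_of_le hc) (Mathlib.Tactic.Linarith.sub_nonpos_of_le this)]

lemma Psi_nonneg (g : ℕ → ℝ) (h : ∀ j, 0 ≤ g (j + 1)) (S : ℕ) : 0 ≤ Psi g S := by
  have := Psi_mono (fun _ => 0) g h S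
  simpa [Psi] using this

lemma Psi_re (g : ℕ → ℂ) (S : ℕ) : (Psi g S).re = Psi (fun j => (g j).re) S := by
  simp only [Psi, Complex.smul_re, Complex.re_sum]

lemma Psi_cmul (c : ℂ) (g : ℕ → ℂ) (S : ℕ) : Psi (fun j => c * g j) S = c * Psi g S := by
  simp only [Psi, ← mul_sum]; rw [mul_smul_comm]

lemma Psi_geom (a : ℕ → ℂ) (C : ℝ) (hC : ∀ j, ‖a j‖ ≤ C) (ω : ℂ) (hω : ω ≠ 1)
    (h : ∀ u, a (u + 1) = ω * a u) : Tendsto (Psi a) atTop (𝓝 0) := by
  have t := Psi_shift a C hC 1
  simp only [h, Psi_cmul] at t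
  have := t.const_mul (ω - 1)⁻¹
  rw [mul_zero] at this
  convert this using 2 with S
  have : ω - 1 ≠ 0 := sub_ne_zero.2 hω
  field_simp

lemma Psi_of_sq {E : Type} [NormedAddCommGroup E] [NormedSpace ℝ E] (x : ℕ → E) (y : ℕ → ℝ)
    (h : ∀ j, ‖x (j + 1)‖ ^ 2 ≤ y (j + 1)) (η : ℝ) (hη : 0 < η) (S : ℕ) :
    ‖Psi x S‖ ≤ η + Psi y S / η := by
  refine (norm_Psi_le x S).trans ?_
  calc _ ≤ Psi (fun j => η + η⁻¹ • y j) S := Psi_mono _ _ (fun j => by
        have := h j
        rw [smul_eq_mul, ← div_eq_inv_mul, ← sub_le_iff_le_add', le_div_iff₀ hη]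
        linarith only [this, hη, norm_nonneg (x (j + 1)), sq_nonneg (‖x (j + 1)‖ - η), sq_nonneg (‖x (j + (1 : ℕ))‖ - η), sq_nonneg ‖x (j + (1 : ℕ))‖, mul_pos_of_neg_of_neg (Mathlib.Tactic.Linarith.sub_neg_of_lt hη) (Mathlib.Tactic.Linarith.sub_neg_of_lt hη)]) S
    _ ≤ _ := by
        rw [Psi_add, Psi_smul, smul_eq_mul, ← div_eq_inv_mul]
        linarith [Psi_const_le η hη.le S]

lemma Psi_tendsto_of_sq {E : Type} [NormedAddCommGroup E] [NormedSpace ℝ E] (x : ℕ → E)
    (y : ℕ → ℝ) (h : ∀ j, ‖x (j + 1)‖ ^ 2 ≤ y (j + 1)) (hy : Tendsto (Psi y) atTop (𝓝 0)) :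
    Tendsto (Psi x) atTop (𝓝 0) := by
  rw [NormedAddGroup.tendsto_nhds_zero]
  intro ε hε
  have := (hy.div_const (ε / 2)).eventually (gt_mem_nhds (show 0 / (ε / 2) < ε / 2 by
    simpa using hε))
  filter_upwards [this] with S hS
  linarith only [hS, h, hε, Psi_of_sq x y h (ε / 2) (by linarith) S]

/-- Fejer means. -/
noncomputable def Phi (g : ℕ → ℝ) (H : ℕ) : ℝ :=
  (∑ i ∈ range H, ∑ j ∈ range H, g (Nat.dist i j)) / (H : ℝ) ^ 2

lemma Phi_eq (g : ℕ → ℝ) (H : ℕ) (hH : 0 < H) : Phi g H = g 0 / H + Psi g H := by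
  have hH' : (0 : ℝ) < H := by exact_mod_cast hH
  unfold Phi Psi
  rw [sum_symm (fun i j => g (Nat.dist i j)) (fun i j => by rw [Nat.dist_comm])]
  have e : ∀ i, ∑ j ∈ range i, g (Nat.dist i j) = ∑ j ∈ range i, g (j + 1) := by
    intro i
    rw [← sum_range_reflect]
    refine sum_congr rfl fun j hj => ?_
    have := mem_range.1 hj
    congr 1; unfold Nat.dist; omega
  simp only [e, Nat.dist_self, sum_const, card_range, nsmul_eq_mul, smul_eq_mul]
  field_simp

/-- Positive definite real sequences. -/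
def PD (g : ℕ → ℝ) : Prop := PSDK (fun i j : ℕ => (g (Nat.dist i j) : ℂ))

lemma PD.mul {g : ℕ → ℝ} (h : PD g) (q : ℕ) : PD (fun j => g (q * j)) := by
  have e : (fun i j : ℕ => ((fun j => g (q * j)) (Nat.dist i j) : ℂ)) =
      fun i j => (g (Nat.dist (q * i) (q * j)) : ℂ) := by
    funext i j; rw [Nat.dist_mul_left]
  unfold PD
  rw [e]
  exact ⟨fun i j => h.herm _ _, fun I _ c m => h.psd I c _⟩

lemma PD.gram {g : ℕ → ℝ} (h : PD g) (u H : ℕ) :
    ∑ i ∈ range H, ∑ j ∈ range H, g (u + (i + j)) ≤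
      ∑ i ∈ range H, ∑ j ∈ range H, g (Nat.dist i j) := by
  have := h.psd (Fin H ⊕ Fin H) (Sum.elim (fun _ => 1) (fun _ => -1))
    (Sum.elim (fun i => H + u + i) (fun j => H - j))
  simp only [Fintype.sum_sum_type, Sum.elim_inl, Sum.elim_inr, map_one, map_neg, one_mul,
    mul_neg, mul_one, neg_neg, neg_mul, sum_add_distrib, Complex.add_re, Complex.re_sum,
    Complex.neg_re, Complex.ofReal_re, sum_neg_distrib] at this
  have e1 : ∀ i j : Fin H, Nat.dist (H + u + i) (H + u + j) = Nat.dist i j := by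
    intro i j; unfold Nat.dist; omega
  have e2 : ∀ i j : Fin H, Nat.dist (H - i) (H - j) = Nat.dist i j := by
    intro i j; unfold Nat.dist; omega
  have e3 : ∀ i j : Fin H, Nat.dist (H + u + i) (H - j) = u + (i + j) := by
    intro i j; unfold Nat.dist; omega
  have e4 : ∀ i j : Fin H, Nat.dist (H - i) (H + u + j) = u + (i + j) := by
    intro i j; unfold Nat.dist; omega
  simp only [e1, e2, e3, e4] at this
  have c1 : ∀ f : ℕ → ℕ → ℝ, ∑ i : Fin H, ∑ j : Fin H, f i j =
      ∑ i ∈ range H, ∑ j ∈ range H, f i j := by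
    intro f
    rw [Fin.sum_univ_eq_sum_range (fun i => ∑ j : Fin H, f i j)]
    exact sum_congr rfl fun i _ => Fin.sum_univ_eq_sum_range (fun j => f i j) H
  rw [c1 (fun i j => g (Nat.dist i j)), c1 (fun i j => g (u + (i + j)))] at this
  linarith

/-- The gap lemma. -/
theorem gap_lemma (n : ℕ → ℕ → ℝ) (θ : ℕ → ℝ) (hpd : ∀ t, PD (fun s => n s t))
    (h0 : ∀ s, 0 ≤ θ s) (h1 : ∀ s t, n s t ≤ 1) (hanti : ∀ s, Antitone (n s))
    (hlim : ∀ s, Tendsto (n s) atTop (𝓝 (θ s))) :
    Tendsto (Psi fun j => n j j - θ j) atTop (𝓝 0) := by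
  have hle : ∀ s t, θ s ≤ n s t := fun s t => (hanti s).le_of_tendsto (hlim s) t
  have hn : ∀ s t, ‖n s t‖ ≤ 1 := fun s t =>
    abs_le.2 ⟨by linarith [h0 s, hle s t], h1 s t⟩
  rw [NormedAddGroup.tendsto_nhds_zero]
  intro ε hε
  have hbdd : BddBelow (Set.range fun H => Phi θ (H + 1)) := by
    refine ⟨0, ?_⟩
    rintro _ ⟨H, rfl⟩
    exact div_nonneg (sum_nonneg fun _ _ => sum_nonneg fun _ _ => h0 _) (by positivity)
  set L := ⨅ H, Phi θ (H + 1) with hL
  obtain ⟨H, hH⟩ := exists_lt_of_ciInf_lt (show L < L + ε / 4 by linarith)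
  have tt : Tendsto (fun t => Phi (fun s => n s t) (H + 1)) atTop (𝓝 (Phi θ (H + 1))) :=
    (tendsto_finsetSum _ fun i _ => tendsto_finsetSum _ fun j _ => hlim _).div_const _
  obtain ⟨t, ht⟩ := (tt.eventually (gt_mem_nhds hH)).exists
  set f : ℕ → ℝ := fun s => n s t with hf
  set c : ℝ := 1 / ((H + 1 : ℕ) : ℝ) ^ 2 with hc
  have t1 := Psi_shift (fun j => n j j) 1 (fun j => hn _ _) t
  have t2 := Psi_shift f 1 (fun j => hn _ _) t
  have t3 : Tendsto (fun S => Psi (fun u => c • ∑ i ∈ range (H + 1), ∑ j ∈ range (H + 1),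
      f (u + (i + j))) S - Psi f S) atTop (𝓝 0) := by
    have : Tendsto (fun S => c • ∑ i ∈ range (H + 1), ∑ j ∈ range (H + 1),
        (Psi (fun u => f (u + (i + j))) S - Psi f S)) atTop
        (𝓝 (c • ∑ i ∈ range (H + 1), ∑ j ∈ range (H + 1), (0 : ℝ))) :=
      (tendsto_finsetSum _ fun i _ => tendsto_finsetSum _ fun j _ =>
        Psi_shift f 1 (fun j => hn _ _) _).const_smul c
    simp only [sum_const_zero, smul_zero] at this
    convert this using 2 with S
    simp only [Psi_smul, Psi_sum]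
    simp only [sum_sub_distrib, sum_const, card_range, smul_eq_mul, nsmul_eq_mul, hc]
    field_simp
  have t4 : Tendsto (fun S : ℕ => (1 : ℝ) / S) atTop (𝓝 0) :=
    tendsto_natCast_atTop_atTop.const_div_atTop _
  have t5 := ((t2.sub t1).sub t3).add t4
  simp only [sub_zero, add_zero] at t5
  filter_upwards [t5.eventually (gt_mem_nhds (show (0 : ℝ) < ε / 2 by linarith only [hε])),
    eventually_gt_atTop 0] with S hS hS0
  rw [Real.norm_of_nonneg (Psi_nonneg _ (fun j => sub_nonneg.2 (hle _ _)) S), Psi_sub]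
  have a1 : Psi (fun j => n (j + t) (j + t)) S ≤ Psi (fun j => f (j + t)) S :=
    Psi_mono _ _ (fun j => hanti (j + 1 + t) (show t ≤ j + 1 + t by omega)) S
  have a2 : Psi (fun u => c • ∑ i ∈ range (H + 1), ∑ j ∈ range (H + 1), f (u + (i + j))) S ≤
      Phi f (H + 1) := by
    refine (Psi_mono _ (fun _ => Phi f (H + 1)) (fun u => ?_) S).trans (Psi_const_le _ ?_ S)
    · rw [smul_eq_mul, hc, Phi, one_div, ← div_eq_inv_mul]
      exact div_le_div_of_nonneg_right ((hpd t).gram _ _) (by positivity)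
    · exact div_nonneg (sum_nonneg fun _ _ => sum_nonneg fun _ _ => (h0 _).trans (hle _ _))
        (by positivity)
  have a3 : L ≤ θ 0 / S + Psi θ S := by
    rw [← Phi_eq θ S hS0]
    obtain ⟨S', rfl⟩ : ∃ S', S = S' + 1 := ⟨S - 1, by omega⟩
    exact ciInf_le hbdd S'
  have a4 : θ 0 / S ≤ 1 / S :=
    div_le_div_of_nonneg_right ((hle 0 0).trans (h1 0 0)) (by positivity)
  linarith only [hε, ht, hS, a1, a2, a3, a4]

/-- The van der Corput estimate. -/
theorem vdc_lemma (g : ℕ → ℝ) (hg : PD g) (h0 : g 0 = 1) (ζ : ℂ) (hζ : ‖ζ‖ = 1)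
    (hinf : ∀ k, 0 < k → ζ ^ k ≠ 1) :
    Tendsto (Psi fun j => ζ ^ (j ^ 2) * (g j : ℂ)) atTop (𝓝 0) := by
  have hb : ∀ j, ‖(g j : ℂ)‖ ≤ 1 := by
    intro j
    have := hg.cs1 j 0
    simp only [Nat.dist_self, h0, Complex.ofReal_one, Complex.one_re, mul_one,
      Nat.dist_zero_right] at this
    (refine le_of_not_gt fun h_nl => ?_; linarith only [h_nl, this, norm_nonneg (g j : ℂ), mul_pos_of_neg_of_neg (Mathlib.Tactic.Linarith.sub_neg_of_lt h_nl) (Mathlib.Tactic.Linarith.sub_neg_of_lt h_nl)])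
  have hz : ζ * conj ζ = 1 := by rw [Complex.mul_conj, Complex.normSq_eq_norm_sq, hζ]; simp
  set a : ℕ → ℂ := fun j => ζ ^ (j ^ 2) * (g j : ℂ) with ha
  have hab : ∀ j, ‖a j‖ ≤ 1 := fun j => by
    rw [ha]; simp only [norm_mul, norm_pow, hζ, one_pow, one_mul]; exact hb j
  rw [NormedAddGroup.tendsto_nhds_zero]
  intro ε hε
  obtain ⟨H, hH⟩ := exists_nat_gt (16 / ε ^ 2)
  have hH0 : (0 : ℝ) < H := lt_trans (by positivity) hH
  set x : ℕ → ℂ := fun u => (1 / H : ℝ) • ∑ h ∈ range H, a (u + h) with hx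
  set w : ℕ → ℕ → ℕ → ℂ := fun h h' u => ζ ^ ((u + h) ^ 2) * conj (ζ ^ ((u + h') ^ 2)) with hw
  set y : ℕ → ℝ := fun u => (1 / H : ℝ) ^ 2 • ∑ h ∈ range H, ∑ h' ∈ range H,
    ((g (Nat.dist h h') : ℂ) * w h h' u).re with hy
  have hxy : ∀ u, ‖x u‖ ^ 2 ≤ y u := by
    intro u
    have := hg.cs (Fin H) (fun h => ζ ^ ((u + h) ^ 2)) (fun h => u + h) 0
    simp only [Nat.dist_self, h0, Complex.ofReal_one, Complex.one_re, mul_one,
      Nat.dist_zero_right, Nat.dist_add_add_left, Complex.re_sum] at this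
    rw [Fin.sum_univ_eq_sum_range (fun h => ζ ^ ((u + h) ^ 2) * (g (u + h) : ℂ)),
      Fin.sum_univ_eq_sum_range (fun h => ∑ h' : Fin H, (ζ ^ ((u + h) ^ 2) *
        conj (ζ ^ ((u + h') ^ 2)) * (g (Nat.dist h h') : ℂ)).re)] at this
    simp only [hx, hy, norm_smul, mul_pow, smul_eq_mul, Real.norm_eq_abs, sq_abs]
    refine mul_le_mul_of_nonneg_left (this.trans (le_of_eq ?_)) (by positivity)
    refine sum_congr rfl fun h _ => ?_
    rw [Fin.sum_univ_eq_sum_range (fun h' => (ζ ^ ((u + h) ^ 2) *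
        conj (ζ ^ ((u + h') ^ 2)) * (g (Nat.dist h h') : ℂ)).re)]
    refine sum_congr rfl fun h' _ => ?_
    rw [mul_comm]
  have t1 : Tendsto (fun S => Psi x S - Psi a S) atTop (𝓝 0) := by
    have : Tendsto (fun S => (1 / H : ℝ) • ∑ h ∈ range H, (Psi (fun u => a (u + h)) S - Psi a S))
        atTop (𝓝 ((1 / H : ℝ) • ∑ h ∈ range H, (0 : ℂ))) :=
      (tendsto_finsetSum _ fun h _ => Psi_shift a 1 hab h).const_smul _
    simp only [sum_const_zero, smul_zero] at this
    convert this using 2 with S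
    simp only [hx, Psi_smul, Psi_sum, sum_sub_distrib, sum_const, card_range, smul_sub]
    congr 1
    rw [← Nat.cast_smul_eq_nsmul ℝ, smul_smul, one_div, inv_mul_cancel₀ hH0.ne', one_smul]
  have hoff : ∀ h h', h ≠ h' → Tendsto (Psi (w h h')) atTop (𝓝 0) := by
    intro h h' hne
    refine Psi_geom _ 1 (fun j => by simp [hw, hζ]) (ζ ^ (2 * h) * conj ζ ^ (2 * h')) ?_ ?_
    · intro hc
      rcases lt_or_gt_of_ne hne with hl | hl
      · apply hinf (2 * h' - 2 * h) (by omega)
        have e : ζ ^ (2 * h') = ζ ^ (2 * h) * ζ ^ (2 * h' - 2 * h) := by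
          rw [← pow_add]; congr 1; omega
        have : ζ ^ (2 * h') * conj ζ ^ (2 * h') = 1 := by rw [← mul_pow, hz, one_pow]
        rw [e] at this
        linear_combination this - ζ ^ (2 * h' - 2 * h) * hc
      · apply hinf (2 * h - 2 * h') (by omega)
        have e : ζ ^ (2 * h) = ζ ^ (2 * h') * ζ ^ (2 * h - 2 * h') := by
          rw [← pow_add]; congr 1; omega
        have : ζ ^ (2 * h') * conj ζ ^ (2 * h') = 1 := by rw [← mul_pow, hz, one_pow]
        rw [e] at hc
        linear_combination hc - ζ ^ (2 * h - 2 * h') * this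
    · intro u
      simp only [hw, map_pow]
      have e1 : (u + 1 + h) ^ 2 = 2 * h + (u + h) ^ 2 + (2 * u + 1) := by ring
      have e2 : (u + 1 + h') ^ 2 = 2 * h' + (u + h') ^ 2 + (2 * u + 1) := by ring
      have : ζ ^ (2 * u + 1) * conj ζ ^ (2 * u + 1) = 1 := by rw [← mul_pow, hz, one_pow]
      rw [e1, e2, pow_add, pow_add, pow_add (conj ζ), pow_add (conj ζ)]
      linear_combination (ζ ^ (2 * h) * ζ ^ (u + h) ^ 2 * conj ζ ^ (2 * h') *
        conj ζ ^ (u + h') ^ 2) * this
  have t2 : Tendsto (fun S => (1 / H : ℝ) ^ 2 * ∑ h ∈ range H, ∑ h' ∈ range H,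
      (if h = h' then 1 else ((g (Nat.dist h h') : ℂ) * Psi (w h h') S).re)) atTop
      (𝓝 ((1 / H : ℝ) ^ 2 * ∑ h ∈ range H, ∑ h' ∈ range H, (if h = h' then (1 : ℝ) else 0))) := by
    refine (tendsto_finsetSum _ fun h _ => tendsto_finsetSum _ fun h' _ => ?_).const_mul _
    split_ifs with hh
    · exact tendsto_const_nhds
    · have := (Complex.continuous_re.tendsto _).comp
        ((hoff h h' hh).const_mul (g (Nat.dist h h') : ℂ))
      simpa [Function.comp_def] using this
  have e5 : (1 / H : ℝ) ^ 2 * ∑ h ∈ range H, ∑ h' ∈ range H, (if h = h' then (1 : ℝ) else 0) =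
      1 / H := by
    rw [sum_congr rfl (g := fun _ => (1 : ℝ)) (fun h hh => by simp [mem_range.1 hh])]
    simp; field_simp
  rw [e5] at t2
  have hlt : 1 / (H : ℝ) < ε ^ 2 / 16 := by
    rw [div_lt_iff₀ (by positivity)] at hH
    rw [div_lt_div_iff₀ hH0 (by norm_num)]; linarith only [hH]
  filter_upwards [t2.eventually (gt_mem_nhds hlt),
    (NormedAddGroup.tendsto_nhds_zero.1 t1) (ε / 4) (by linarith only [hε])] with S h1 h2
  have a1 : Psi y S ≤ ε ^ 2 / 16 := by
    refine le_trans ?_ h1.le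
    simp only [hy, Psi_smul, Psi_sum]
    rw [smul_eq_mul]
    refine mul_le_mul_of_nonneg_left (sum_le_sum fun h _ => sum_le_sum fun h' _ => ?_)
      (by positivity)
    split_ifs with hh
    · subst hh
      refine le_trans (Psi_mono _ (fun _ => 1) (fun u => ?_) S) (Psi_const_le 1 zero_le_one S)
      refine (Complex.re_le_norm _).trans ?_
      simp [hw, hζ, h0]
    · rw [← Psi_cmul, Psi_re]
  have a2 := Psi_of_sq x y (fun j => hxy _) (ε / 4) (by linarith only [hε]) S
  have a3 : Psi y S / (ε / 4) ≤ ε / 4 := by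
    rw [div_le_iff₀ (by linarith only [hε])]; linarith only [a1]
  have a4 : ‖Psi a S‖ ≤ ‖Psi x S‖ + ‖Psi x S - Psi a S‖ := by
    have : Psi a S = Psi x S - (Psi x S - Psi a S) := by ring
    conv_lhs => rw [this]
    exact norm_sub_le _ _
  linarith only [hε, h2, a2, a3, a4]

end Pool.Agent.Work.MP_4523ee_co
end

-- merged part: Pool.Agent.Work.MP_4523ee_co.Mult
section
/-!
Multiplicative kernels: averaged rectangle correlations are asymptotically nonnegative.
-/

set_option autoImplicit false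
set_option linter.unusedVariables false

open Finset Filter Topology
open scoped BigOperators ComplexConjugate

namespace Pool.Agent.Work.MP_4523ee_co

/-- The correlation of the full and the empty `s × t` rectangle. -/
def rect (G : Ker2) (s t : ℕ) : ℂ := G (Fin s) (Fin t) (fun _ _ => true) (fun _ _ => false)

lemma J_rect {G : Ker2} (h : IsK2 G) (s t : ℕ) : J G s t 0 = rect G s t := by
  unfold J Jt rect
  rw [h.ext (Fin s) (Fin t) _ _ id Sum.inl Function.injective_id Sum.inl_injective]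
  · rfl
  · rintro x (y | y) hxy
    · simp at hxy
    · exact y.elim0

lemma rect_tr (G : Ker2) (s t : ℕ) : rect (tr G) t s = rect G s t := rfl

lemma nn_zero {G : Ker2} (h : IsK2 G) (t : ℕ) : nn (J G 0) t = 1 := by
  unfold nn J Jt
  have : (fun (_ : Fin 0) (y : Fin t ⊕ Fin t) => y.isLeft) = fun _ y => y.isRight := by
    funext x; exact x.elim0
  rw [this, h.diag, Complex.one_re]

lemma th_zero {G : Ker2} (h : IsK2 G) : th (J G 0) = 1 := by
  simp [th, nn_zero h]

lemma pd_nn {G : Ker2} (h : IsK2 G) (t : ℕ) : PD (fun s => nn (J G s) t) := by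
  refine ⟨fun i j => by rw [Nat.dist_comm, Complex.conj_ofReal], fun I _ c m => ?_⟩
  obtain ⟨n, hn⟩ : ∃ n, ∀ i, m i ≤ n :=
    ⟨∑ i, m i, fun i => single_le_sum (f := m) (fun _ _ => Nat.zero_le _) (mem_univ i)⟩
  let Y : ℕ → Fin n → Fin t ⊕ Fin t → Bool := fun k x y =>
    if x.val < k then y.isLeft else y.isRight
  have h1 : ∀ k k', k' ≤ k → k ≤ n → G _ _ (Y k) (Y k') = (nn (J G (k - k')) t : ℂ) := by
    intro k k' hk hkn
    rw [← (mom_J h _).diag]
    unfold J Jt
    rw [h.ext (Fin (k - k')) (Fin t ⊕ Fin t) (Fin n) _ (fun i => ⟨k' + i.val, by omega⟩) id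
      (fun a b hab => Fin.ext (Nat.add_left_cancel (congrArg Fin.val hab)))
      Function.injective_id]
    · congr 1 <;> funext x y
      · have : k' + x.val < k := by omega
        simp [Y, this]
      · simp [Y]
    · intro x y hxy
      rcases hxy with h2 | h2
      · have : ¬ (k' ≤ x.val ∧ x.val < k) := fun hh =>
          h2 ⟨⟨x.val - k', by omega⟩, by simp [Fin.ext_iff]; omega⟩
        by_cases h3 : x.val < k'
        · have : x.val < k := by omega
          simp [Y, h3, this]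
        · have : ¬ x.val < k := by omega
          simp [Y, h3, this]
      · simp at h2
  have h2 : ∀ i j, G _ _ (Y (m i)) (Y (m j)) = (nn (J G (Nat.dist (m i) (m j))) t : ℂ) := by
    intro i j
    rcases le_total (m j) (m i) with hh | hh
    · rw [h1 _ _ hh (hn i), Nat.dist_eq_sub_of_le_right hh]
    · rw [(h.psd _ _).herm, h1 _ _ hh (hn j), Nat.dist_eq_sub_of_le hh, Complex.conj_ofReal]
  have := (h.psd _ _).psd I c (fun i => Y (m i))
  simpa only [h2] using this

lemma pd_th {G : Ker2} (h : IsK2 G) : PD (fun s => th (J G s)) := by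
  refine ⟨fun i j => by rw [Nat.dist_comm, Complex.conj_ofReal], fun I _ c m => ?_⟩
  have t1 : Tendsto (fun t => (∑ i, ∑ j, c i * conj (c j) *
      (nn (J G (Nat.dist (m i) (m j))) t : ℂ)).re) atTop
      (𝓝 (∑ i, ∑ j, c i * conj (c j) * (th (J G (Nat.dist (m i) (m j))) : ℂ)).re) :=
    (Complex.continuous_re.tendsto _).comp (tendsto_finsetSum _ fun i _ =>
      tendsto_finsetSum _ fun j _ =>
        ((Complex.continuous_ofReal.tendsto _).comp (mom_J h _).tendsto_nn).const_mul _)
  exact ge_of_tendsto' t1 fun t => (pd_nn h t).psd I c m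

lemma rect_sub_be {G : Ker2} (h : IsK2 G) (q : ℕ) (hq : 0 < q) :
    Tendsto (Psi fun j => rect G (q * j) (q * j) - be (J G (q * j)) (q * j)) atTop (𝓝 0) := by
  refine Psi_tendsto_of_sq _ (fun j => nn (J G (q * j)) j - th (J G (q * j))) (fun j => ?_) ?_
  · rw [← J_rect h]
    refine ((mom_J h _).gap _).trans (sub_le_sub_right ((mom_J h _).anti ?_) _)
    exact Nat.le_mul_of_pos_left _ hq
  · exact gap_lemma (fun s t => nn (J G (q * s)) t) (fun s => th (J G (q * s)))
      (fun t => (pd_nn h t).mul q) (fun s => (mom_J h _).th_nonneg)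
      (fun s t => (mom_J h _).nn_le_one t) (fun s => (mom_J h _).anti)
      (fun s => (mom_J h _).tendsto_nn)

lemma Psi_congr {E : Type} [NormedAddCommGroup E] [NormedSpace ℝ E] (g g' : ℕ → E)
    (h : ∀ j, g (j + 1) = g' (j + 1)) : Psi g = Psi g' := by
  funext S; simp only [Psi, h]

/-- Sequences whose averages along multiples are asymptotically nonnegative. -/
def Good (y : ℕ → ℝ) : Prop :=
  ∃ q₀, 0 < q₀ ∧ ∀ q, 0 < q → q₀ ∣ q → ∀ ε > 0, ∀ᶠ S in atTop, -ε ≤ Psi (fun j => y (q * j)) S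

lemma ev_of_tendsto (x : ℕ → ℂ) (h : Tendsto (Psi x) atTop (𝓝 0)) (ε : ℝ) (hε : 0 < ε) :
    ∀ᶠ S in atTop, -ε ≤ Psi (fun j => (x j).re) S := by
  filter_upwards [NormedAddGroup.tendsto_nhds_zero.1 h ε hε] with S hS
  rw [← Psi_re]
  linarith only [hS, (abs_le.1 (Complex.abs_re_le_norm (Psi x S))).1]

lemma rect_of_zero {G : Ker2} (h : IsK2 G) (h0 : ∀ s, 0 < s → th (J G s) = 0) (q : ℕ)
    (hq : 0 < q) : Tendsto (Psi fun j => rect G (q * j) (q * j)) atTop (𝓝 0) := by
  rw [Psi_congr _ (fun j => rect G (q * j) (q * j) - be (J G (q * j)) (q * j))]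
  · exact rect_sub_be h q hq
  · intro j
    have := (mom_J h (q * (j + 1))).be_le (q * (j + 1))
    rw [h0 _ (by positivity), norm_le_zero_iff] at this
    rw [this, sub_zero]

lemma be_formula {G : Ker2} (h : IsK2 G) (hm : IsMult G) (s₀ t₀ : ℕ) (hs : 0 < th (J G s₀))
    (ht : 0 < th (J (tr G) t₀)) :
    ∃ κ : ℂ, ‖κ‖ = 1 ∧ ∀ m m', be (J G (m * s₀)) (m' * t₀) = κ ^ (m * m') * th (J G (m * s₀)) := by
  have m2 := mom_J h.tr t₀
  have ht' : (th (J (tr G) t₀) : ℂ) ≠ 0 := by exact_mod_cast ht.ne'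
  set κ := be (J (tr G) t₀) s₀ / th (J (tr G) t₀) with hκ
  have hb : be (J (tr G) t₀) s₀ = κ * th (J (tr G) t₀) := by rw [hκ]; field_simp
  have hk : ‖κ‖ = 1 := by
    have e := congrArg norm (exchange h hm s₀ t₀)
    rw [norm_mul, Complex.norm_conj, norm_mul, Complex.norm_real, Complex.norm_real,
      Real.norm_of_nonneg hs.le, Real.norm_of_nonneg ht.le] at e
    have a1 := (mom_J h s₀).be_le t₀
    have a2 := m2.be_le s₀
    have a3 : ‖be (J (tr G) t₀) s₀‖ = th (J (tr G) t₀) := by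
      refine le_antisymm a2 (le_of_mul_le_mul_left ?_ hs)
      rw [← e]
      exact mul_le_mul_of_nonneg_right a1 (norm_nonneg _)
    rw [hκ, norm_div, a3, Complex.norm_real, Real.norm_of_nonneg ht.le, div_self ht.ne']
  refine ⟨κ, hk, fun m m' => ?_⟩
  have e := exchange h hm (m * s₀) t₀
  rw [m2.be_mul s₀ κ hk hb m, map_mul, Complex.conj_ofReal, ← mul_assoc] at e
  have e2 := mul_right_cancel₀ ht' e
  have hz : κ ^ m * conj (κ ^ m) = 1 := by
    rw [Complex.mul_conj, Complex.normSq_eq_norm_sq, norm_pow, hk]; simp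
  have e3 : be (J G (m * s₀)) t₀ = κ ^ m * th (J G (m * s₀)) := by
    rw [← e2]; linear_combination (-be (J G (m * s₀)) t₀) * hz
  rw [(mom_J h _).be_mul t₀ (κ ^ m) (by rw [norm_pow, hk, one_pow]) e3 m', pow_mul]

theorem good_of_mult {G : Ker2} (h : IsK2 G) (hm : IsMult G) :
    Good (fun s => (rect G s s).re) := by
  by_cases hA : ∀ s, 0 < s → th (J G s) = 0
  · exact ⟨1, one_pos, fun q hq _ ε hε => ev_of_tendsto _ (rect_of_zero h hA q hq) ε hε⟩
  by_cases hB : ∀ s, 0 < s → th (J (tr G) s) = 0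
  · exact ⟨1, one_pos, fun q hq _ ε hε => ev_of_tendsto _ (rect_of_zero h.tr hB q hq) ε hε⟩
  push Not at hA hB
  obtain ⟨s₀, hs₀, hs⟩ := hA
  obtain ⟨t₀, ht₀, ht⟩ := hB
  obtain ⟨κ, hk, hκ⟩ := be_formula h hm s₀ t₀ (lt_of_le_of_ne (mom_J h _).th_nonneg hs.symm)
    (lt_of_le_of_ne (mom_J h.tr _).th_nonneg ht.symm)
  have hform : ∀ q' j, be (J G (s₀ * t₀ * q' * j)) (s₀ * t₀ * q' * j) =
      (κ ^ (s₀ * t₀ * q' ^ 2)) ^ (j ^ 2) * th (J G (s₀ * t₀ * q' * j)) := by
    intro q' j
    have := hκ (t₀ * q' * j) (s₀ * q' * j)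
    rw [show t₀ * q' * j * s₀ = s₀ * t₀ * q' * j by ring,
      show s₀ * q' * j * t₀ = s₀ * t₀ * q' * j by ring] at this
    rw [this, ← pow_mul]
    congr 2; ring
  have hsplit : ∀ q S, Psi (fun j => (rect G (q * j) (q * j)).re) S =
      Psi (fun j => (rect G (q * j) (q * j) - be (J G (q * j)) (q * j)).re) S +
        Psi (fun j => (be (J G (q * j)) (q * j)).re) S := by
    intro q S
    rw [← Psi_add]
    congr 1; funext j; simp
  by_cases hfin : ∃ r, 0 < r ∧ κ ^ r = 1
  · obtain ⟨r, hr, hκr⟩ := hfin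
    refine ⟨s₀ * t₀ * r, by positivity, fun q hq ⟨u, hu⟩ ε hε => ?_⟩
    filter_upwards [ev_of_tendsto _ (rect_sub_be h q hq) ε hε] with S hS
    rw [hsplit]
    have : 0 ≤ Psi (fun j => (be (J G (q * j)) (q * j)).re) S := by
      refine Psi_nonneg _ (fun j => ?_) S
      rw [hu, mul_assoc (s₀ * t₀), hform,
        show s₀ * t₀ * (r * u) ^ 2 = r * (s₀ * t₀ * r * u ^ 2) by ring, pow_mul, hκr]
      simpa using (mom_J h _).th_nonneg
    linarith only [hS, this]
  · push Not at hfin
    refine ⟨s₀ * t₀, by positivity, fun q hq ⟨u, hu⟩ ε hε => ?_⟩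
    have hu0 : 0 < u := by
      rcases Nat.eq_zero_or_pos u with rfl | h'
      · omega
      · exact h'
    have tv := vdc_lemma (fun j => th (J G (q * j))) ((pd_th h).mul q) (by simpa using th_zero h)
      (κ ^ (s₀ * t₀ * u ^ 2)) (by rw [norm_pow, hk, one_pow])
      (fun k hk' => by rw [← pow_mul]; exact hfin _ (by positivity))
    filter_upwards [ev_of_tendsto _ (rect_sub_be h q hq) (ε / 2) (by linarith only [hε]),
      ev_of_tendsto _ tv (ε / 2) (by linarith only [hε])] with S hS hS'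
    rw [hsplit]
    simp only [hu, hform] at hS hS' ⊢
    linarith only [hS, hS']

end Pool.Agent.Work.MP_4523ee_co
end

-- merged part: Pool.Agent.Work.MP_4523ee_co.Meas
section
/-!
Barycentres of measures on a compact set of sequences and the final averaging argument.
-/

set_option autoImplicit false
set_option linter.unusedVariables false

open Finset Filter Topology MeasureTheory
open scoped BigOperators

namespace Pool.Agent.Work.MP_4523ee_co

lemma integrable_of_cont {Y : Set (ℕ → ℝ)} [CompactSpace Y] (μ : Measure Y) [IsFiniteMeasure μ]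
    (f : Y → ℝ) (hf : Continuous f) : Integrable f μ :=
  hf.integrable_of_hasCompactSupport (HasCompactSupport.of_compactSpace f)

theorem bary (Y : Set (ℕ → ℝ)) (hY : IsCompact Y) (a : ℕ → ℝ)
    (ha : a ∈ closure (convexHull ℝ Y)) :
    ∃ μ : ProbabilityMeasure Y, ∀ s, ∫ y, (y : ℕ → ℝ) s ∂(μ : Measure Y) = a s := by
  have : CompactSpace Y := isCompact_iff_compactSpace.1 hY
  have hc : ∀ s, Continuous fun y : Y => (y : ℕ → ℝ) s := fun s =>
    (continuous_apply s).comp continuous_subtype_val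
  let B : ProbabilityMeasure Y → ℕ → ℝ := fun μ s => ∫ y, (y : ℕ → ℝ) s ∂(μ : Measure Y)
  have hB : Continuous B := continuous_pi fun s =>
    ProbabilityMeasure.continuous_integral_continuousMap (⟨_, hc s⟩ : C(Y, ℝ))
  have h1 : IsClosed (Set.range B) := (isCompact_range hB).isClosed
  have h2 : Convex ℝ (Set.range B) := by
    rintro _ ⟨μ, rfl⟩ _ ⟨ν, rfl⟩ u v hu hv huv
    refine ⟨⟨ENNReal.ofReal u • (μ : Measure Y) + ENNReal.ofReal v • (ν : Measure Y), ⟨?_⟩⟩, ?_⟩
    · simp [← ENNReal.ofReal_add hu hv, huv]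
    · funext s
      simp only [B, ProbabilityMeasure.coe_mk, Pi.add_apply, Pi.smul_apply]
      rw [integral_add_measure ((integrable_of_cont _ _ (hc s)).smul_measure ENNReal.ofReal_ne_top)
        ((integrable_of_cont _ _ (hc s)).smul_measure ENNReal.ofReal_ne_top),
        integral_smul_measure, integral_smul_measure, ENNReal.toReal_ofReal hu,
        ENNReal.toReal_ofReal hv]
  have h3 : Y ⊆ Set.range B := fun y hy =>
    ⟨⟨Measure.dirac ⟨y, hy⟩, inferInstance⟩, by funext s; simp [B]⟩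
  obtain ⟨μ, hμ⟩ := closure_minimal (convexHull_min h3 h2) h1 ha
  exact ⟨μ, fun s => congrFun hμ s⟩

theorem not_neg (Y : Set (ℕ → ℝ)) (hY : IsCompact Y) (hb : ∀ y ∈ Y, ∀ s, |y s| ≤ 1)
    (hg : ∀ y ∈ Y, Good y) (a : ℕ → ℝ) (ha : a ∈ closure (convexHull ℝ Y)) (c : ℝ) (hc : 0 < c)
    (h : ∀ s, 0 < s → a s ≤ -c) : False := by
  classical
  have : CompactSpace Y := isCompact_iff_compactSpace.1 hY
  obtain ⟨μ, hμ⟩ := bary Y hY a ha
  have hcs : ∀ s, Continuous fun y : Y => (y : ℕ → ℝ) s := fun s =>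
    (continuous_apply s).comp continuous_subtype_val
  let f : ℕ → ℕ → Y → ℝ := fun n S y => Psi (fun j => (y : ℕ → ℝ) (n.factorial * j)) S
  have hf : ∀ n S, Continuous (f n S) := fun n S => by
    simp only [f, Psi, smul_eq_mul]
    exact continuous_const.mul
      (continuous_finsetSum _ fun i _ => continuous_finsetSum _ fun j _ => hcs _)
  have hf1 : ∀ n S y, -1 ≤ f n S y := by
    intro n S y
    have a1 := norm_Psi_le (fun j => (y : ℕ → ℝ) (n.factorial * j)) S
    have a2 := (Psi_mono (fun j => ‖(y : ℕ → ℝ) (n.factorial * j)‖) (fun _ => 1)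
      (fun j => hb y y.2 (n.factorial * (j + 1))) S).trans
      (Psi_const_le 1 zero_le_one S)
    exact (abs_le.1 (a1.trans a2)).1
  have hint : ∀ n S, ∫ y, f n S y ∂(μ : Measure Y) = Psi (fun j => a (n.factorial * j)) S := by
    intro n S
    simp only [f, Psi]
    rw [integral_smul, integral_finsetSum]
    · congr 1
      refine sum_congr rfl fun i _ => ?_
      rw [integral_finsetSum]
      · exact sum_congr rfl fun j _ => hμ _
      · exact fun j _ => integrable_of_cont _ _ (hcs _)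
    · exact fun i _ => integrable_of_cont _ _ (continuous_finsetSum _ fun j _ => hcs _)
  let Ω : ℕ → Set Y := fun n => {y | Tendsto (fun S => min (f n S y) 0) atTop (𝓝 0)}
  have hΩ : ∀ n, MeasurableSet (Ω n) := fun n =>
    measurableSet_tendsto _ fun S => ((hf n S).min continuous_const).measurable
  let F : ℕ → ℕ → Y → ℝ := fun n S y => if y ∈ Ω n then min (f n S y) 0 else -1
  let F' : ℕ → Y → ℝ := fun n y => if y ∈ Ω n then 0 else -1
  have hFm : ∀ n S, Measurable (F n S) := fun n S =>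
    Measurable.ite (hΩ n) ((hf n S).min continuous_const).measurable measurable_const
  have hF'm : ∀ n, Measurable (F' n) := fun n =>
    Measurable.ite (hΩ n) measurable_const measurable_const
  have hFb : ∀ n S y, ‖F n S y‖ ≤ 1 := by
    intro n S y
    simp only [F]
    split_ifs
    · exact abs_le.2 ⟨le_min (hf1 n S y) (by norm_num), (min_le_right _ _).trans zero_le_one⟩
    · simp
  have t1 : ∀ n, Tendsto (fun S => ∫ y, F n S y ∂(μ : Measure Y)) atTop
      (𝓝 (∫ y, F' n y ∂(μ : Measure Y))) := fun n =>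
    tendsto_integral_of_dominated_convergence (fun _ => 1)
      (fun S => (hFm n S).aestronglyMeasurable) (integrable_const _)
      (fun S => Eventually.of_forall (hFb n S)) (Eventually.of_forall fun y => by
        simp only [F, F']
        split_ifs with hy
        · exact hy
        · exact tendsto_const_nhds)
  have t2 : Tendsto (fun n => ∫ y, F' n y ∂(μ : Measure Y)) atTop
      (𝓝 (∫ y, (0 : ℝ) ∂(μ : Measure Y))) :=
    tendsto_integral_of_dominated_convergence (fun _ => 1)
      (fun n => (hF'm n).aestronglyMeasurable) (integrable_const _)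
      (fun n => Eventually.of_forall fun y => by simp only [F']; split_ifs <;> simp)
      (Eventually.of_forall fun y => by
        obtain ⟨q₀, hq₀, hq⟩ := hg y y.2
        refine tendsto_const_nhds.congr' ?_
        filter_upwards [eventually_ge_atTop q₀] with n hn
        have : y ∈ Ω n := by
          refine NormedAddGroup.tendsto_nhds_zero.2 fun ε hε => ?_
          filter_upwards [hq n.factorial n.factorial_pos (Nat.dvd_factorial hq₀ hn) (ε / 2)
            (by linarith only [hε])] with S hS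
          refine abs_lt.2 ⟨lt_min (lt_of_lt_of_le (by linarith only [hε]) hS) (by linarith), ?_⟩
          exact lt_of_le_of_lt (min_le_right _ _) hε
        simp [F', this])
  have t3 : Tendsto (fun S : ℕ => -c * (1 - 1 / (S : ℝ))) atTop (𝓝 (-c * (1 - 0))) :=
    (tendsto_const_nhds.sub (tendsto_natCast_atTop_atTop.const_div_atTop _)).const_mul _
  have key : ∀ n, ∫ y, F' n y ∂(μ : Measure Y) ≤ -c * (1 - 0) := by
    intro n
    refine le_of_tendsto_of_tendsto (t1 n) t3 ?_
    filter_upwards [eventually_gt_atTop 0] with S hS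
    rw [← Psi_const _ S hS]
    refine le_trans ?_ (Psi_mono (fun j => a (n.factorial * j)) _
      (fun j => h _ (by have := n.factorial_pos; positivity)) S)
    rw [← hint]
    refine integral_mono ((integrable_const (1 : ℝ)).mono' (hFm n S).aestronglyMeasurable
      (Eventually.of_forall (hFb n S))) (integrable_of_cont _ _ (hf n S)) fun y => ?_
    simp only [F]
    split_ifs
    · exact min_le_left _ _
    · exact hf1 n S y
  have := le_of_tendsto' t2 key
  simp at this
  linarith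

end Pool.Agent.Work.MP_4523ee_co
end

-- merged part: Pool.Agent.Work.MP_4523ee_co.Choquet
section
/-!
Extreme two-sorted kernels are multiplicative; the spectral rectangle theorem.
-/

set_option autoImplicit false
set_option linter.unusedVariables false

open Finset Filter Topology
open scoped BigOperators ComplexConjugate

namespace Pool.Agent.Work.MP_4523ee_co

/-- Countable index set for kernels. -/
abbrev Idx : Type := Σ m : ℕ, Σ n : ℕ, (Fin m → Fin n → Bool) × (Fin m → Fin n → Bool)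

/-- Encoding of a kernel. -/
def enc (G : Ker2) : Idx → ℂ := fun i => G (Fin i.1) (Fin i.2.1) i.2.2.1 i.2.2.2

/-- Decoding of a kernel. -/
noncomputable def dec (g : Idx → ℂ) : Ker2 := fun R C _ _ π ρ =>
  g ⟨Nat.card R, Nat.card C,
    fun x y => π ((Finite.equivFin R).symm x) ((Finite.equivFin C).symm y),
    fun x y => ρ ((Finite.equivFin R).symm x) ((Finite.equivFin C).symm y)⟩

lemma dec_enc {G : Ker2} (h : IsK2 G) (R C : Type) [Finite R] [Finite C] (π ρ : R → C → Bool) :
    dec (enc G) R C π ρ = G R C π ρ :=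
  (h.equiv (Finite.equivFin R).symm (Finite.equivFin C).symm π ρ).symm

/-- Pointwise convergence of kernels. -/
def Conv (Gs : ℕ → Ker2) (G : Ker2) : Prop :=
  ∀ (R C : Type) [Finite R] [Finite C] (π ρ : R → C → Bool),
    Tendsto (fun n => Gs n R C π ρ) atTop (𝓝 (G R C π ρ))

lemma IsK2.of_conv {Gs : ℕ → Ker2} {G : Ker2} (h : ∀ n, IsK2 (Gs n)) (ht : Conv Gs G) :
    IsK2 G where
  diag := fun R C _ _ π => tendsto_nhds_unique (ht R C π π)
    (by simp only [(h _).diag]; exact tendsto_const_nhds)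
  psd := fun R C _ _ => ⟨fun π ρ => tendsto_nhds_unique (ht R C ρ π) (by
      simp only [fun n => ((h n).psd R C).herm π ρ]
      exact (Complex.continuous_conj.tendsto _).comp (ht R C π ρ)),
    fun I _ c m => ge_of_tendsto' ((Complex.continuous_re.tendsto _).comp
      (tendsto_finsetSum _ fun i _ => tendsto_finsetSum _ fun j _ =>
        (ht R C (m i) (m j)).const_mul (c i * conj (c j))))
      fun n => ((h n).psd R C).psd I c m⟩
  ext := fun R C R' C' _ _ _ _ e f he hf π ρ hag => tendsto_nhds_unique (ht R' C' π ρ) (by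
    simp only [fun n => (h n).ext R C R' C' e f he hf π ρ hag]
    exact ht _ _ _ _)

lemma IsMult.of_conv {Gs : ℕ → Ker2} {G : Ker2} (h : ∀ n, IsMult (Gs n)) (ht : Conv Gs G) :
    IsMult G := fun R C R' C' _ _ _ _ π ρ π' ρ' => tendsto_nhds_unique (ht _ _ _ _) (by
  simp only [fun n => h n R C R' C' π ρ π' ρ']
  exact (ht _ _ _ _).mul (ht _ _ _ _))

lemma compact_enc (P : Ker2 → Prop) (h1 : ∀ G, P G → IsK2 G)
    (h2 : ∀ Gs G, (∀ n, P (Gs n)) → Conv Gs G → P G) : IsCompact (enc '' {G | P G}) := by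
  refine (isCompact_univ_pi fun _ : Idx => isCompact_closedBall (0 : ℂ) 1).of_isClosed_subset
    (IsSeqClosed.isClosed ?_) ?_
  · intro x g hx hg
    choose Gs hG hGx using hx
    have hc : Conv Gs (dec g) := by
      intro R C _ _ π ρ
      simp only [fun n => (dec_enc (h1 _ (hG n)) R C π ρ).symm, hGx]
      exact tendsto_pi_nhds.1 hg _
    refine ⟨dec g, h2 _ _ hG hc, funext fun i => tendsto_nhds_unique (hc _ _ _ _) ?_⟩
    have := tendsto_pi_nhds.1 hg i
    simp only [← hGx] at this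
    exact this
  · rintro _ ⟨G, hG, rfl⟩ i _
    simpa [enc] using (h1 G hG).norm_le _ _ _ _

lemma IsK2.comb {G G' : Ker2} (h : IsK2 G) (h' : IsK2 G') (u v : ℝ) (hu : 0 ≤ u) (hv : 0 ≤ v)
    (huv : u + v = 1) : IsK2 (fun R C _ _ π ρ => u * G R C π ρ + v * G' R C π ρ) where
  diag := fun R C _ _ π => by
    rw [h.diag, h'.diag, mul_one, mul_one, ← Complex.ofReal_add, huv, Complex.ofReal_one]
  psd := fun R C _ _ => ⟨fun π ρ => by
      rw [(h.psd R C).herm, (h'.psd R C).herm π ρ]; simp,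
    fun I _ c m => by
      have e : ∑ i, ∑ j, c i * conj (c j) * (u * G R C (m i) (m j) + v * G' R C (m i) (m j)) =
          u * (∑ i, ∑ j, c i * conj (c j) * G R C (m i) (m j)) +
            v * ∑ i, ∑ j, c i * conj (c j) * G' R C (m i) (m j) := by
        simp only [mul_sum, ← sum_add_distrib]
        exact sum_congr rfl fun i _ => sum_congr rfl fun j _ => by ring
      rw [e, Complex.add_re, Complex.re_ofReal_mul, Complex.re_ofReal_mul]
      exact add_nonneg (mul_nonneg hu ((h.psd R C).psd I c m))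
        (mul_nonneg hv ((h'.psd R C).psd I c m))⟩
  ext := fun R C R' C' _ _ _ _ e f he hf π ρ hag => by
    rw [h.ext R C R' C' e f he hf π ρ hag, h'.ext R C R' C' e f he hf π ρ hag]

lemma IsK2.blk_left {G : Ker2} (h : IsK2 G) {R C R' C' : Type} [Finite R] [Finite C] [Finite R']
    [Finite C'] (π ρ : R → C → Bool) (π' : R' → C' → Bool) :
    G _ _ (blk π π') (blk ρ π') = G R C π ρ := by
  rw [h.ext R C _ _ Sum.inl Sum.inl Sum.inl_injective Sum.inl_injective]
  · rfl
  · rintro (x | x) (y | y) hxy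
    · simp at hxy
    all_goals rfl

lemma IsK2.blk_right {G : Ker2} (h : IsK2 G) {R C R' C' : Type} [Finite R] [Finite C] [Finite R']
    [Finite C'] (π : R → C → Bool) (π' ρ' : R' → C' → Bool) :
    G _ _ (blk π π') (blk π ρ') = G R' C' π' ρ' := by
  rw [h.ext R' C' _ _ Sum.inr Sum.inr Sum.inr_injective Sum.inr_injective]
  · rfl
  · rintro (x | x) (y | y) hxy
    rotate_left 3
    · simp at hxy
    all_goals rfl

lemma IsK2.blk_ext {G : Ker2} (h : IsK2 G) {R C R₁ C₁ R' C' : Type} [Finite R] [Finite C]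
    [Finite R₁] [Finite C₁] [Finite R'] [Finite C'] (e : R → R₁) (f : C → C₁)
    (he : Function.Injective e) (hf : Function.Injective f) (π ρ : R₁ → C₁ → Bool)
    (hag : ∀ x y, (x ∉ Set.range e ∨ y ∉ Set.range f) → π x y = ρ x y) (π' ρ' : R' → C' → Bool) :
    G _ _ (blk π π') (blk ρ ρ') =
      G _ _ (blk (fun x y => π (e x) (f y)) π') (blk (fun x y => ρ (e x) (f y)) ρ') := by
  rw [h.ext _ _ _ _ (Sum.map e id) (Sum.map f id) (he.sumMap Function.injective_id)
    (hf.sumMap Function.injective_id)]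
  · congr 1 <;> funext x y <;> cases x <;> cases y <;> rfl
  · rintro (x | x) (y | y) hxy
    · refine hag x y (hxy.imp ?_ ?_)
      · exact fun h1 ⟨z, hz⟩ => h1 ⟨Sum.inl z, by simp [hz]⟩
      · exact fun h1 ⟨z, hz⟩ => h1 ⟨Sum.inl z, by simp [hz]⟩
    · rfl
    · rfl
    · exfalso
      rcases hxy with h1 | h1
      · exact h1 ⟨Sum.inr x, rfl⟩
      · exact h1 ⟨Sum.inr y, rfl⟩

/-- Perturbation direction. -/
noncomputable def pert (G : Ker2) {R' C' : Type} [Finite R'] [Finite C'] (π' ρ' : R' → C' → Bool)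
    (l : ℂ) : Ker2 := fun R C _ _ π ρ =>
  (conj l * (G _ _ (blk π π') (blk ρ ρ') - G R' C' π' ρ' * G R C π ρ) +
    l * (G _ _ (blk π ρ') (blk ρ π') - conj (G R' C' π' ρ') * G R C π ρ)) / 4

lemma IsK2.pert {G : Ker2} (h : IsK2 G) {R' C' : Type} [Finite R'] [Finite C']
    (π' ρ' : R' → C' → Bool) (l : ℂ) (hl : ‖l‖ = 1) :
    IsK2 (fun R C _ _ π ρ => G R C π ρ + pert G π' ρ' l R C π ρ) where
  diag := fun R C _ _ π => by
    simp only [Pool.Agent.Work.MP_4523ee_co.pert, h.diag, h.blk_right]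
    rw [(h.psd R' C').herm π' ρ']; ring
  psd := fun R C _ _ => ⟨fun π ρ => by
      simp only [Pool.Agent.Work.MP_4523ee_co.pert]
      rw [(h.psd R C).herm π ρ, (h.psd _ _).herm (blk π ρ') (blk ρ π'),
        (h.psd _ _).herm (blk π π') (blk ρ ρ')]
      simp only [map_add, map_div₀, map_mul, map_sub, Complex.conj_conj, map_ofNat]
      ring,
    fun I _ c m => by
      set a := G R' C' π' ρ' with ha
      have hz : l * conj l = 1 := by
        rw [Complex.mul_conj, Complex.normSq_eq_norm_sq, hl]; simp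
      have h1 := (h.psd _ _).psd (I ⊕ I) (Sum.elim c (fun i => l * c i))
        (Sum.elim (fun i => blk (m i) π') (fun i => blk (m i) ρ'))
      simp only [Fintype.sum_sum_type, Sum.elim_inl, Sum.elim_inr, h.blk_left,
        ← sum_add_distrib] at h1
      have h2 := (h.psd R C).psd I c m
      have hr : (conj l * a).re ≤ 1 := by
        refine (Complex.re_le_norm _).trans ?_
        rw [norm_mul, Complex.norm_conj, hl, one_mul]
        exact h.norm_le _ _ _ _
      have e0 : l * conj a + conj l * a = (2 * (conj l * a).re : ℝ) := by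
        rw [← Complex.add_conj]; simp [add_comm]
      have e : ∑ i, ∑ j, c i * conj (c j) * (G R C (m i) (m j) +
          Pool.Agent.Work.MP_4523ee_co.pert G π' ρ' l R C (m i) (m j)) =
          ((1 / 4 : ℝ) : ℂ) * (∑ i, ∑ j, (c i * conj (c j) * G R C (m i) (m j) +
            c i * conj (l * c j) * G _ _ (blk (m i) π') (blk (m j) ρ') +
            (l * c i * conj (c j) * G _ _ (blk (m i) ρ') (blk (m j) π') +
              l * c i * conj (l * c j) * G R C (m i) (m j)))) +
          (((1 - (conj l * a).re) / 2 : ℝ) : ℂ) *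
            ∑ i, ∑ j, c i * conj (c j) * G R C (m i) (m j) := by
        simp only [mul_sum, ← sum_add_distrib]
        refine sum_congr rfl fun i _ => sum_congr rfl fun j _ => ?_
        simp only [Pool.Agent.Work.MP_4523ee_co.pert, ← ha, map_mul]
        push_cast at e0 ⊢
        linear_combination (-(c i * conj (c j) * G R C (m i) (m j)) / 4) * hz +
          (-(c i * conj (c j) * G R C (m i) (m j)) / 4) * e0
      rw [e, Complex.add_re, Complex.re_ofReal_mul, Complex.re_ofReal_mul]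
      exact add_nonneg (mul_nonneg (by norm_num) h1) (mul_nonneg (by linarith only [hr]) h2)⟩
  ext := fun R C R₁ C₁ _ _ _ _ e f he hf π ρ hag => by
    simp only [Pool.Agent.Work.MP_4523ee_co.pert]
    rw [h.ext R C R₁ C₁ e f he hf π ρ hag, h.blk_ext e f he hf π ρ hag π' ρ',
      h.blk_ext e f he hf π ρ hag ρ' π']

theorem mult_of_extreme {G : Ker2} (h : IsK2 G)
    (he : enc G ∈ (enc '' {G | IsK2 G}).extremePoints ℝ) : IsMult G := by
  intro R C R' C' _ _ _ _ π ρ π' ρ'
  have key : ∀ l : ℂ, ‖l‖ = 1 → pert G π' ρ' l R C π ρ = 0 := by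
    intro l hl
    have h1 := h.pert π' ρ' l hl
    have h2 := h.pert π' ρ' (-l) (by rw [norm_neg, hl])
    have h3 := (mem_extremePoints_iff_left.1 he).2 _ ⟨_, h1, rfl⟩ _ ⟨_, h2, rfl⟩
      ⟨1 / 2, 1 / 2, by norm_num, by norm_num, by norm_num, by
        funext i
        simp only [enc, pert, Pi.add_apply, Pi.smul_apply, map_neg, Complex.real_smul]
        push_cast; ring⟩
    have h4 := dec_enc h1 R C π ρ
    rw [h3, dec_enc h] at h4
    linear_combination -h4
  have k1 := key 1 norm_one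
  have k2 := key Complex.I Complex.norm_I
  simp only [pert, map_one, Complex.conj_I] at k1 k2
  have hI : Complex.I * Complex.I = -1 := Complex.I_mul_I
  linear_combination 2 * k1 + 2 * Complex.I * k2 -
    (-(G _ _ (blk π π') (blk ρ ρ') - G R' C' π' ρ' * G R C π ρ) +
      (G _ _ (blk π ρ') (blk ρ π') - conj (G R' C' π' ρ') * G R C π ρ)) / 2 * hI

/-- The spectral rectangle theorem. -/
theorem rect_not_neg {G : Ker2} (h : IsK2 G) (c : ℝ) (hc : 0 < c)
    (hneg : ∀ s, 0 < s → (rect G s s).re ≤ -c) : False := by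
  let Λ : (Idx → ℂ) →L[ℝ] (ℕ → ℝ) := ContinuousLinearMap.pi fun s =>
    Complex.reCLM.comp (ContinuousLinearMap.proj
      (⟨s, s, fun _ _ => true, fun _ _ => false⟩ : Idx))
  have hΛ : ∀ G s, Λ (enc G) s = (rect G s s).re := fun G s => rfl
  have hP : IsCompact (enc '' {G | IsK2 G}) :=
    compact_enc _ (fun _ h => h) (fun _ _ h ht => IsK2.of_conv h ht)
  have hX : IsCompact (enc '' {G | IsK2 G ∧ IsMult G}) :=
    compact_enc _ (fun _ h => h.1) (fun _ _ h ht =>
      ⟨IsK2.of_conv (fun n => (h n).1) ht, IsMult.of_conv (fun n => (h n).2) ht⟩)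
  have hconv : Convex ℝ (enc '' {G | IsK2 G}) := by
    rintro _ ⟨G₁, h₁, rfl⟩ _ ⟨G₂, h₂, rfl⟩ u v hu hv huv
    exact ⟨_, IsK2.comb h₁ h₂ u v hu hv huv, by funext i; simp [enc]⟩
  have hsub : (enc '' {G | IsK2 G}).extremePoints ℝ ⊆ enc '' {G | IsK2 G ∧ IsMult G} := by
    intro g hg
    obtain ⟨G', hG', rfl⟩ := extremePoints_subset hg
    exact ⟨G', ⟨hG', mult_of_extreme hG' hg⟩, rfl⟩
  have hmem : enc G ∈ closure (convexHull ℝ (enc '' {G | IsK2 G ∧ IsMult G})) := by
    apply closure_mono (convexHull_mono hsub)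
    rw [closure_convexHull_extremePoints hP hconv]
    exact ⟨G, h, rfl⟩
  refine not_neg (Λ '' (enc '' {G | IsK2 G ∧ IsMult G})) (hX.image Λ.continuous) ?_ ?_
    (Λ (enc G)) ?_ c hc hneg
  · rintro _ ⟨_, ⟨G', hG', rfl⟩, rfl⟩ s
    exact (Complex.abs_re_le_norm _).trans (hG'.1.norm_le _ _ _ _)
  · rintro _ ⟨_, ⟨G', hG', rfl⟩, rfl⟩
    exact good_of_mult hG'.1 hG'.2
  · have := image_closure_subset_closure_image Λ.continuous ⟨_, hmem, rfl⟩
    rwa [show (Λ : (Idx → ℂ) → ℕ → ℝ) = Λ.toLinearMap from rfl,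
      LinearMap.image_convexHull] at this

end Pool.Agent.Work.MP_4523ee_co
end

-- merged part: Pool.Agent.Work.MP_4523ee_co.Rect
section
/-!
Dense families of subsets of the square contain two sets differing by a balanced rectangle.
-/

set_option autoImplicit false
set_option linter.unusedVariables false

open Finset Filter Topology
open scoped BigOperators ComplexConjugate

namespace Pool.Agent.Work.MP_4523ee_co

/-- A two-sorted pattern as a function of a pair of vertices. -/
def liftP {R C : Type} (π : R → C → Bool) : R ⊕ C → R ⊕ C → Bool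
  | Sum.inl x, Sum.inr y => π x y
  | _, _ => false

/-- A two-sorted pattern as a pattern on the square of the disjoint union. -/
def lift2 {R C : Type} (π : R → C → Bool) : Pat 2 (R ⊕ C) := fun c => liftP π (c 0) (c 1)

lemma isK2_of_ker {K : ∀ (V : Type) [Finite V], Pat 2 V → Pat 2 V → ℝ} (hK : IsKer K) (κ : ℝ)
    (hκ0 : 0 < κ) (hκ : ∀ (V : Type) [Finite V] (π : Pat 2 V), K V π π = κ) :
    IsK2 (fun R C _ _ π ρ => ((K (R ⊕ C) (lift2 π) (lift2 ρ) / κ : ℝ) : ℂ)) where
  diag := fun R C _ _ π => by rw [hκ, div_self hκ0.ne', Complex.ofReal_one]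
  psd := fun R C _ _ => ⟨fun π ρ => by rw [hK.symm, Complex.conj_ofReal], fun I _ c m => by
    have h1 := hK.psd (R ⊕ C) I (fun i => (c i).re) (fun i => lift2 (m i))
    have h2 := hK.psd (R ⊕ C) I (fun i => (c i).im) (fun i => lift2 (m i))
    have := div_nonneg (add_nonneg h1 h2) hκ0.le
    refine this.trans (le_of_eq ?_)
    simp only [← sum_add_distrib, sum_div, Complex.re_sum]
    refine sum_congr rfl fun i _ => sum_congr rfl fun j _ => ?_
    rw [mul_comm (c i * _), Complex.re_ofReal_mul]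
    simp only [Complex.mul_re, Complex.conj_re, Complex.conj_im]
    ring⟩
  ext := fun R C R' C' _ _ _ _ e f he hf π ρ hag => by
    rw [hK.ext _ _ (Sum.map e f) (he.sumMap hf)]
    · congr 3 <;> funext c <;> simp only [lift2, Function.comp] <;> cases c 0 <;> cases c 1 <;> rfl
    · rintro c ⟨j, hj⟩
      simp only [lift2]
      rcases h0 : c 0 with x | x <;> rcases h1 : c 1 with y | y
      · rfl
      · refine hag x y ?_
        fin_cases j
        · exact Or.inl fun ⟨z, hz⟩ => hj ⟨Sum.inl z, by simp [hz, h0]⟩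
        · exact Or.inr fun ⟨z, hz⟩ => hj ⟨Sum.inr z, by simp [hz, h1]⟩
      · rfl
      · rfl

theorem rect_main (δ : ℝ) (hδ : 0 < δ) :
    ∃ N₀ : ℕ, ∀ N : ℕ, N₀ ≤ N → ∀ E : Finset (Finset (Fin 2 → Fin N)),
      δ * (2 ^ (N ^ 2) - 1) ≤ (E.card : ℝ) →
      ∃ α : Finset (Fin 2 → Fin N), ∃ γ γ' : Finset (Fin N),
        α.Nonempty ∧ γ.Nonempty ∧ γ.card = γ'.card ∧ Disjoint γ γ' ∧
        Disjoint α (Fintype.piFinset ![γ, γ']) ∧
        α ∈ E ∧ α ∪ Fintype.piFinset ![γ, γ'] ∈ E := by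
  classical
  by_contra hcon
  obtain ⟨p, K, hp, hp1, hK, hκ, hz⟩ := kernel_of_bad (d := 2) two_pos δ (δ / 2) (by linarith only [hδ])
    (fun N E => ¬ ∃ α : Finset (Fin 2 → Fin N), ∃ γ γ' : Finset (Fin N),
        α.Nonempty ∧ γ.Nonempty ∧ γ.card = γ'.card ∧ Disjoint γ γ' ∧
        Disjoint α (Fintype.piFinset ![γ, γ']) ∧
        α ∈ E ∧ α ∪ Fintype.piFinset ![γ, γ'] ∈ E) (by
      intro N₀
      by_contra h
      push Not at h
      exact hcon ⟨N₀, fun N hN E hE => h N hN E hE⟩)
  have hp0 : 0 < p := by linarith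
  have hneg : ∀ s, 0 < s → K (Fin s ⊕ Fin s) (lift2 fun _ _ => true) (lift2 fun _ _ => false) =
      -p ^ 2 := by
    intro s hs
    apply hz
    intro N E hE ι hι α ha hb hne
    apply hE
    have hmem : ∀ x : Fin 2 → Fin N, x ∈ Fintype.piFinset
        ![univ.image (ι ∘ Sum.inl), univ.image (ι ∘ Sum.inr)] ↔
        ∃ a b, ι (Sum.inl a) = x 0 ∧ ι (Sum.inr b) = x 1 := by
      intro x; simp [Fintype.mem_piFinset, Fin.forall_fin_two]
    have hfalse : ∀ c : Fin 2 → Fin s ⊕ Fin s, lift2 (fun _ _ => false) c = false := by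
      intro c; unfold lift2; cases c 0 <;> cases c 1 <;> rfl
    refine ⟨_, univ.image (ι ∘ Sum.inl), univ.image (ι ∘ Sum.inr), hne,
      ⟨ι (Sum.inl ⟨0, hs⟩), mem_image_of_mem _ (mem_univ _)⟩, ?_, ?_, ?_, hb, ?_⟩
    · rw [card_image_of_injective _ (hι.comp Sum.inl_injective),
        card_image_of_injective _ (hι.comp Sum.inr_injective)]
    · rw [Finset.disjoint_left]
      intro x hx hx'
      obtain ⟨a, _, rfl⟩ := mem_image.1 hx
      obtain ⟨b, _, hb⟩ := mem_image.1 hx'
      simpa using hι hb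
    · rw [Finset.disjoint_left]
      intro x hx hx'
      obtain ⟨a, b, h0, h1⟩ := (hmem x).1 hx'
      simp only [toF, mem_filter, mem_univ, true_and, plant] at hx
      rw [if_pos (Fin.forall_fin_two.2 ⟨⟨_, h0⟩, ⟨_, h1⟩⟩)] at hx
      simp [hfalse] at hx
    · convert ha using 1
      ext x
      simp only [mem_union, hmem, toF, mem_filter, mem_univ, true_and, plant]
      by_cases hx : ∀ j, x j ∈ Set.range ι
      · rw [if_pos hx, if_pos hx]
        simp only [hfalse, Bool.false_eq_true, and_false, exists_false, decide_false, false_or,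
          decide_eq_true_eq]
        constructor
        · rintro ⟨a, b, h0, h1⟩
          exact ⟨![Sum.inl a, Sum.inr b], funext (Fin.forall_fin_two.2 ⟨h0, h1⟩), rfl⟩
        · rintro ⟨c, rfl, hc⟩
          unfold lift2 at hc
          rcases h0 : c 0 with a | a <;> rcases h1 : c 1 with b | b <;> rw [h0, h1] at hc
          · simp [liftP] at hc
          · exact ⟨a, b, by simp [h0], by simp [h1]⟩
          · simp [liftP] at hc
          · simp [liftP] at hc
      · rw [if_neg hx, if_neg hx, or_iff_left]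
        rintro ⟨a, b, h0, h1⟩
        exact hx (Fin.forall_fin_two.2 ⟨⟨_, h0⟩, ⟨_, h1⟩⟩)
  have hκ0 : 0 < p * (1 - p) := by
    have := ker_abs hK hκ (Fin 1 ⊕ Fin 1) (lift2 fun _ _ => true) (lift2 fun _ _ => false)
    rw [hneg 1 one_pos, abs_neg, abs_of_pos (by positivity)] at this
    exact lt_of_lt_of_le (by positivity) this
  refine rect_not_neg (isK2_of_ker hK _ hκ0 hκ) (p ^ 2 / (p * (1 - p))) (by positivity)
    fun s hs => ?_
  simp only [rect, Complex.ofReal_re, hneg s hs, neg_div, le_refl]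

/-- The case `k = 2`, `d = 2` of the conjecture for families invariant under row permutations. -/
theorem row_invariant (δ : ℝ) (hδ : 0 < δ) :
    ∃ N₀ : ℕ, ∀ N : ℕ, N₀ ≤ N → ∀ E : Finset (Finset (Fin 2 → Fin N)),
      δ * (2 ^ (N ^ 2) - 1) ≤ (E.card : ℝ) →
      (∀ σ : Equiv.Perm (Fin N), ∀ α ∈ E, α.image (fun x => ![σ (x 0), x 1]) ∈ E) →
      ∃ α : Finset (Fin 2 → Fin N), ∃ γ : Finset (Fin N),
        α.Nonempty ∧ γ.Nonempty ∧ Disjoint α (Fintype.piFinset fun _ : Fin 2 => γ) ∧
        α ∈ E ∧ α ∪ (Fintype.piFinset fun _ : Fin 2 => γ) ∈ E := by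
  classical
  obtain ⟨N₀, h⟩ := rect_main δ hδ
  refine ⟨N₀, fun N hN E hE hinv => ?_⟩
  obtain ⟨α, γ, γ', h1, h2, h3, _, h5, h6, h7⟩ := h N hN E hE
  obtain ⟨σ, hσ⟩ := Equiv.Perm.exists_map_finset_eq γ γ' h3
  have hinj : Function.Injective (fun x : Fin 2 → Fin N => ![σ (x 0), x 1]) := by
    intro x y hxy
    have a0 := congrFun hxy 0
    have a1 := congrFun hxy 1
    simp only [Matrix.cons_val_zero, Matrix.cons_val_one, EmbeddingLike.apply_eq_iff_eq] at a0 a1
    exact funext (Fin.forall_fin_two.2 ⟨a0, a1⟩)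
  have himg : (Fintype.piFinset ![γ, γ']).image (fun x => ![σ (x 0), x 1]) =
      Fintype.piFinset fun _ : Fin 2 => γ' := by
    ext y
    simp only [mem_image, Fintype.mem_piFinset, Fin.forall_fin_two, Matrix.cons_val_zero,
      Matrix.cons_val_one]
    constructor
    · rintro ⟨x, ⟨a0, a1⟩, rfl⟩
      refine ⟨?_, a1⟩
      rw [← hσ]; exact mem_map_of_mem _ a0
    · rintro ⟨a0, a1⟩
      rw [← hσ, Finset.mem_map] at a0
      obtain ⟨z, hz, hz'⟩ := a0
      exact ⟨![z, y 1], ⟨hz, a1⟩, funext (Fin.forall_fin_two.2 ⟨hz', rfl⟩)⟩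
  refine ⟨_, γ', h1.image _, card_pos.1 (h3 ▸ card_pos.2 h2), ?_, hinv σ α h6, ?_⟩
  · rw [← himg]; exact (disjoint_image hinj).2 h5
  · rw [← himg, ← image_union]; exact hinv σ _ h7

end Pool.Agent.Work.MP_4523ee_co
end
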