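import Mathlib
import Pool.Agent.Work.MP_4523ee_co.Bridge

/-!
The threshold theorem for two-point configurations.
-/

set_option autoImplicit false

open Finset Filter Topology
open scoped BigOperators

namespace Pool.Agent.Work.MP_4523ee_co

theorem threshold_main (d : ℕ) (hd : 1 ≤ d) (δ : ℝ)
    (hδ : ((2 : ℝ) ^ (d - 1) - 1) / (2 ^ d - 1) < δ) :
    ∃ N₀ : ℕ, ∀ N : ℕ, N₀ ≤ N → ∀ E : Finset (Finset (Fin d → Fin N)),
      δ * (2 ^ (N ^ d) - 1) ≤ (E.card : ℝ) →
      ∃ α : Finset (Fin d → Fin N), ∃ γ : Finset (Fin N),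
        α.Nonempty ∧ γ.Nonempty ∧ Disjoint α (Fintype.piFinset fun _ : Fin d => γ) ∧
        α ∈ E ∧ α ∪ (Fintype.piFinset fun _ : Fin d => γ) ∈ E := by
  classical
  by_contra hcon
  obtain ⟨δ', h1, h2⟩ := exists_between hδ
  obtain ⟨p, K, hp, hp1, hK, hκ, hz⟩ := kernel_of_bad (d := d) hd δ δ' h2
    (fun N E => ¬ ∃ α : Finset (Fin d → Fin N), ∃ γ : Finset (Fin N),
        α.Nonempty ∧ γ.Nonempty ∧ Disjoint α (Fintype.piFinset fun _ : Fin d => γ) ∧
        α ∈ E ∧ α ∪ (Fintype.piFinset fun _ : Fin d => γ) ∈ E) (by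
      intro N₀
      by_contra h
      push Not at h
      exact hcon ⟨N₀, fun N hN E hE => h N hN E hE⟩)
  obtain ⟨M, hc, hm, hs⟩ := exists_mean
  have hdisc := disc hK hκ M hc hm hs d Empty (fun _ => true) (fun _ => false) (by
    intro τ hτ
    exfalso
    unfold stars at hτ
    have := card_filter_le (univ : Finset (Fin d)) (fun j => τ j = none)
    simp only [card_univ, Fintype.card_fin] at this
    exact absurd (lt_of_lt_of_le hτ (by convert this)) (lt_irrefl _))
  have h0 : tf K (B := Empty) (fun _ => true) (fun _ => false) 0 = p * (1 - p) := by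
    unfold tf
    have : tpl (d := d) (B := Empty) (fun _ => true) 0 = tpl (fun _ => false) 0 := by
      funext c
      rcases c ⟨0, hd⟩ with x | x
      · exact x.elim
      · exact x.elim0
    rw [this, hκ]
  have hsucc : ∀ s, tf K (B := Empty) (fun _ => true) (fun _ => false) (s + 1) = -p ^ 2 := by
    intro s
    apply hz
    intro N E hE ι _ α ha hb hne
    apply hE
    have hmem : ∀ x : Fin d → Fin N, x ∈ (Fintype.piFinset fun _ : Fin d => univ.image ι) ↔
        ∀ j, x j ∈ Set.range ι := by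
      intro x; simp [Fintype.mem_piFinset]
    refine ⟨_, univ.image ι, hne, ⟨ι (Sum.inr 0), mem_image_of_mem _ (mem_univ _)⟩, ?_, hb, ?_⟩
    · rw [Finset.disjoint_left]
      intro x hx hx'
      rw [hmem] at hx'
      simp only [toF, mem_filter, mem_univ, true_and, plant, tpl] at hx
      rw [if_pos hx'] at hx
      simp at hx
    · convert ha using 1
      ext x
      simp only [mem_union, hmem, toF, mem_filter, mem_univ, true_and, plant, tpl]
      by_cases hx : ∀ j, x j ∈ Set.range ι
      · rw [if_pos hx, if_pos hx]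
        simp only [hx, implies_true, or_true, and_true, decide_eq_true_eq, true_iff]
        choose c hc using hx
        exact ⟨c, funext hc⟩
      · rw [if_neg hx, if_neg hx]
        simp only [hx, or_false]
  have hM : M (tf K (B := Empty) (fun _ => true) (fun _ => false)) = -p ^ 2 := by
    rw [← hs (tf K (B := Empty) (fun _ => true) (fun _ => false))
      ⟨p * (1 - p), fun n => ker_abs hK hκ _ _ _⟩ 1]
    simp only [hsucc, hc]
  rw [hM, h0] at hdisc
  have h3 := (abs_le.1 hdisc).1
  obtain ⟨e, rfl⟩ : ∃ e, d = e + 1 := ⟨d - 1, by omega⟩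
  simp only [Nat.add_sub_cancel] at h1
  have hx : (1 : ℝ) ≤ 2 ^ e := one_le_pow₀ (by norm_num)
  have hden : (0 : ℝ) < 2 ^ (e + 1) - 1 := by rw [pow_succ]; linarith
  have h4 : (2 : ℝ) ^ e - 1 < p * (2 ^ (e + 1) - 1) := by
    rw [← div_lt_iff₀ hden]; linarith
  have hp0 : 0 < p := by
    by_contra hh
    push Not at hh
    nlinarith
  have e1 : (1 / 2 : ℝ) ^ (e + 1) = 1 / (2 * 2 ^ e) := by
    rw [one_div_pow, pow_succ]; ring
  rw [e1] at h3
  rw [pow_succ] at h4
  set x : ℝ := 2 ^ e
  have hx0 : 0 < x := by linarith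
  have h5 : p * (p * (x * 2 - 1) - (x - 1)) ≤ 0 := by
    have : p * (p * (x * 2 - 1) - (x - 1)) =
        -x * ((-p ^ 2 - 1 / (2 * x) * (p * (1 - p))) - -((1 - 1 / (2 * x)) * (p * (1 - p)))) := by
      field_simp; ring
    rw [this]
    nlinarith
  nlinarith

end Pool.Agent.Work.MP_4523ee_co
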